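import Pool.Agent.SGp.Defs

/-!
# Basic facts: regular functions, trivial module, direct sums
-/

namespace Pool.Agent.SGp

open Matrix

variable {m n : ℕ}

@[simp] lemma emb_one : emb (1 : G0 m n) = 1 := by
  simp [emb]

@[simp] lemma emb_mul (g h : G0 m n) : emb (g * h) = emb g * emb h := by
  simp [emb, Matrix.fromBlocks_multiply]

@[simp] lemma emb_mul_inv (g : G0 m n) : emb g * emb g⁻¹ = 1 := by
  rw [← emb_mul, mul_inv_cancel, emb_one]

@[simp] lemma emb_inv_mul (g : G0 m n) : emb g⁻¹ * emb g = 1 := by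
  rw [← emb_mul, inv_mul_cancel, emb_one]

lemma emb_even (g : G0 m n) : emb g ∈ evenM m n := by
  constructor <;> intro i j <;> simp [emb]

lemma emb_injective : Function.Injective (emb : G0 m n → gl m n) := by
  intro g h hgh
  unfold emb at hgh
  rw [Matrix.fromBlocks_inj] at hgh
  exact Prod.ext (Units.ext hgh.1) (Units.ext hgh.2.2.2)

/-- The value at a point as a ring homomorphism. -/
noncomputable def rvHom (g : G0 m n) : Reg m n →+* ℂ :=
  MvPolynomial.eval (Sum.elim (fun p => emb g p.1 p.2) (fun p => emb g⁻¹ p.1 p.2))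

lemma rv_eq (P : Reg m n) (g : G0 m n) : rv P g = rvHom g P := rfl

@[simp] lemma rv_zero (g : G0 m n) : rv 0 g = 0 := map_zero (rvHom g)
@[simp] lemma rv_one (g : G0 m n) : rv 1 g = 1 := map_one (rvHom g)
@[simp] lemma rv_add (P Q : Reg m n) (g : G0 m n) : rv (P + Q) g = rv P g + rv Q g :=
  map_add (rvHom g) P Q
@[simp] lemma rv_mul (P Q : Reg m n) (g : G0 m n) : rv (P * Q) g = rv P g * rv Q g :=
  map_mul (rvHom g) P Q
@[simp] lemma rv_C (c : ℂ) (g : G0 m n) : rv (MvPolynomial.C c) g = c := by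
  simp [rv]
@[simp] lemma rv_neg (P : Reg m n) (g : G0 m n) : rv (-P) g = -rv P g := map_neg (rvHom g) P
@[simp] lemma rv_sub (P Q : Reg m n) (g : G0 m n) : rv (P - Q) g = rv P g - rv Q g :=
  map_sub (rvHom g) P Q
lemma rv_sum {ι : Type*} (s : Finset ι) (P : ι → Reg m n) (g : G0 m n) :
    rv (∑ i ∈ s, P i) g = ∑ i ∈ s, rv (P i) g := map_sum (rvHom g) P s
@[simp] lemma rv_X_inl (p : (Fin m ⊕ Fin n) × (Fin m ⊕ Fin n)) (g : G0 m n) :
    rv (MvPolynomial.X (Sum.inl p)) g = emb g p.1 p.2 := by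
  simp [rv]
@[simp] lemma rv_X_inr (p : (Fin m ⊕ Fin n) × (Fin m ⊕ Fin n)) (g : G0 m n) :
    rv (MvPolynomial.X (Sum.inr p)) g = emb g⁻¹ p.1 p.2 := by
  simp [rv]

/-- The value at `1 + ε X`. -/
noncomputable def dvHom (X : gl m n) : Reg m n →ₐ[ℂ] DualNumber ℂ :=
  MvPolynomial.aeval (S₁ := DualNumber ℂ) (Sum.elim
    (fun p => TrivSqZeroExt.inl ((1 : gl m n) p.1 p.2) + TrivSqZeroExt.inr (X p.1 p.2))
    (fun p => TrivSqZeroExt.inl ((1 : gl m n) p.1 p.2) - TrivSqZeroExt.inr (X p.1 p.2)))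

lemma dv_eq (P : Reg m n) (X : gl m n) : dv P X = (dvHom X P).snd := rfl

lemma fst_dvHom (P : Reg m n) (X : gl m n) : (dvHom X P).fst = rv P 1 := by
  induction P using MvPolynomial.induction_on with
  | C a =>
    have h : dvHom X (MvPolynomial.C a) = algebraMap ℂ (DualNumber ℂ) a := by simp [dvHom]
    rw [h, rv_C, TrivSqZeroExt.algebraMap_eq_inl, TrivSqZeroExt.fst_inl]
  | add p q hp hq => simp [hp, hq]
  | mul_X p i hp =>
    rw [map_mul, TrivSqZeroExt.fst_mul, hp, rv_mul]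
    congr 1
    rcases i with i | i <;> simp [dvHom]

@[simp] lemma dv_zero (X : gl m n) : dv 0 X = 0 := by simp [dv_eq]
@[simp] lemma dv_one (X : gl m n) : dv 1 X = 0 := by simp [dv_eq]
@[simp] lemma dv_add (P Q : Reg m n) (X : gl m n) : dv (P + Q) X = dv P X + dv Q X := by
  simp [dv_eq]
@[simp] lemma dv_neg (P : Reg m n) (X : gl m n) : dv (-P) X = -dv P X := by
  simp [dv_eq]
@[simp] lemma dv_sub (P Q : Reg m n) (X : gl m n) : dv (P - Q) X = dv P X - dv Q X := by
  simp [dv_eq]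
@[simp] lemma dv_C (c : ℂ) (X : gl m n) : dv (MvPolynomial.C c) X = 0 := by
  have h : dvHom X (MvPolynomial.C c) = algebraMap ℂ (DualNumber ℂ) c := by simp [dvHom]
  rw [dv_eq, h, TrivSqZeroExt.algebraMap_eq_inl, TrivSqZeroExt.snd_inl]
@[simp] lemma dv_mul (P Q : Reg m n) (X : gl m n) :
    dv (P * Q) X = rv P 1 * dv Q X + rv Q 1 * dv P X := by
  rw [dv_eq, map_mul, TrivSqZeroExt.snd_mul, fst_dvHom, fst_dvHom]
  simp [dv_eq, mul_comm]
@[simp] lemma dv_X_inl (p : (Fin m ⊕ Fin n) × (Fin m ⊕ Fin n)) (X : gl m n) :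
    dv (MvPolynomial.X (Sum.inl p)) X = X p.1 p.2 := by
  simp [dv_eq, dvHom]
@[simp] lemma dv_X_inr (p : (Fin m ⊕ Fin n) × (Fin m ⊕ Fin n)) (X : gl m n) :
    dv (MvPolynomial.X (Sum.inr p)) X = - X p.1 p.2 := by
  simp [dv_eq, dvHom]

/-- The trivial module. -/
noncomputable def triv (m n : ℕ) : SMod m n where
  V := ℂ
  L := { par := LinearMap.id
         a := 0
         par_par := fun _ => rfl
         par_even := fun _ _ _ => rfl
         par_odd := fun _ _ _ => by simp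
         lie_even := fun _ _ _ _ => by simp
         lie_odd := fun _ _ _ _ _ => by simp }
  ρ := fun _ => LinearMap.id
  ρ_one := fun _ => rfl
  ρ_mul := fun _ _ _ => rfl
  par_ρ := fun _ _ => rfl
  ad := fun _ _ _ => by simp
  rat := fun v => ⟨Unit, inferInstance, fun _ => 1, fun _ => v, fun g => by simp,
    fun X _ => by simp⟩

/-- The direct sum of two modules over the Lie superalgebra. -/
noncomputable def LRep.prod {V W : Type} [AddCommGroup V] [Module ℂ V] [AddCommGroup W] [Module ℂ W]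
    (R : LRep m n V) (S : LRep m n W) : LRep m n (V × W) where
  par := R.par.prodMap S.par
  a := { toFun := fun X => (R.a X).prodMap (S.a X)
         map_add' := fun X Y => by ext <;> simp
         map_smul' := fun c X => by ext <;> simp }
  par_par := fun v => by simp [R.par_par, S.par_par]
  par_even := fun X hX v => by simp [R.par_even X hX, S.par_even X hX]
  par_odd := fun X hX v => by simp [R.par_odd X hX, S.par_odd X hX]
  lie_even := fun X hX Y v => by
    have h1 := R.lie_even X hX Y v.1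
    have h2 := S.lie_even X hX Y v.2
    ext
    · simpa using h1
    · simpa using h2
  lie_odd := fun X hX Y hY v => by
    have h1 := R.lie_odd X hX Y hY v.1
    have h2 := S.lie_odd X hX Y hY v.2
    ext
    · simpa using h1
    · simpa using h2

/-- The direct sum of two modules. -/
noncomputable def dsum (A B : SMod m n) : SMod m n where
  V := A.V × B.V
  L := A.L.prod B.L
  ρ := fun g => (A.ρ g).prodMap (B.ρ g)
  ρ_one := fun v => by simp [A.ρ_one, B.ρ_one]
  ρ_mul := fun g h v => by simp [A.ρ_mul, B.ρ_mul]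
  par_ρ := fun g v => by
    show ((A.L.par (A.ρ g v.1)), (B.L.par (B.ρ g v.2))) = (A.ρ g (A.L.par v.1), B.ρ g (B.L.par v.2))
    rw [A.par_ρ, B.par_ρ]
  ad := fun g X v => by
    show (A.ρ g (A.L.a X v.1), B.ρ g (B.L.a X v.2))
      = (A.L.a (emb g * X * emb g⁻¹) (A.ρ g v.1), B.L.a (emb g * X * emb g⁻¹) (B.ρ g v.2))
    rw [A.ad, B.ad]
  rat := fun v => by
    obtain ⟨ι, h1, P, w, hw, hw'⟩ := A.rat v.1
    obtain ⟨κ, h2, Q, u, hu, hu'⟩ := B.rat v.2
    refine ⟨ι ⊕ κ, inferInstance, Sum.elim P Q,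
      Sum.elim (fun i => (w i, 0)) (fun i => (0, u i)), ?_, ?_⟩
    · intro g
      show (A.ρ g v.1, B.ρ g v.2) = _
      rw [hw g, hu g, Fintype.sum_sum_type]
      ext
      · simp [Prod.fst_sum, Prod.snd_sum]
      · simp [Prod.fst_sum, Prod.snd_sum]
    · intro X hX
      show (A.L.a X v.1, B.L.a X v.2) = _
      rw [hw' X hX, hu' X hX, Fintype.sum_sum_type]
      ext
      · simp [Prod.fst_sum, Prod.snd_sum]
      · simp [Prod.fst_sum, Prod.snd_sum]

lemma IsGLin.id (A : SMod m n) : IsGLin A A LinearMap.id := ⟨fun _ => rfl, fun _ _ => rfl, fun _ _ => rfl⟩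

lemma IsGLin.comp {A B C : SMod m n} {g : B.V →ₗ[ℂ] C.V} {f : A.V →ₗ[ℂ] B.V}
    (hg : IsGLin B C g) (hf : IsGLin A B f) : IsGLin A C (g ∘ₗ f) :=
  ⟨fun v => by simp [hf.par, hg.par], fun x v => by simp [hf.ρ, hg.ρ], fun X v => by simp [hf.a, hg.a]⟩

lemma IsGLin.isLin {A B : SMod m n} {f : A.V →ₗ[ℂ] B.V} (hf : IsGLin A B f) (H : ClosedSub m n) :
    IsLin H A B f := ⟨hf.par, fun g _ v => hf.ρ g v, fun X _ v => hf.a X v⟩

lemma IsLin.comp_left {H : ClosedSub m n} {A B C : SMod m n} {g : B.V →ₗ[ℂ] C.V}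
    {f : A.V →ₗ[ℂ] B.V} (hg : IsLin H B C g) (hf : IsGLin A B f) : IsLin H A C (g ∘ₗ f) :=
  ⟨fun v => by simp [hf.par, hg.par], fun x hx v => by simp [hf.ρ, hg.ρ x hx],
    fun X hX v => by simp [hf.a, hg.a X hX]⟩

lemma isGLin_fst (A B : SMod m n) : IsGLin (dsum A B) A (LinearMap.fst ℂ A.V B.V) :=
  ⟨fun _ => rfl, fun _ _ => rfl, fun _ _ => rfl⟩

lemma isGLin_snd (A B : SMod m n) : IsGLin (dsum A B) B (LinearMap.snd ℂ A.V B.V) :=
  ⟨fun _ => rfl, fun _ _ => rfl, fun _ _ => rfl⟩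

lemma isGLin_inl (A B : SMod m n) : IsGLin A (dsum A B) (LinearMap.inl ℂ A.V B.V) := by
  refine ⟨fun v => ?_, fun g v => ?_, fun X v => ?_⟩
  · show (A.L.par v, (0 : B.V)) = (A.L.par v, B.L.par 0)
    rw [map_zero]
  · show (A.ρ g v, (0 : B.V)) = (A.ρ g v, B.ρ g 0)
    rw [map_zero]
  · show (A.L.a X v, (0 : B.V)) = (A.L.a X v, B.L.a X 0)
    rw [map_zero]

lemma isGLin_inr (A B : SMod m n) : IsGLin B (dsum A B) (LinearMap.inr ℂ A.V B.V) := by
  refine ⟨fun v => ?_, fun g v => ?_, fun X v => ?_⟩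
  · show ((0 : A.V), B.L.par v) = (A.L.par 0, B.L.par v)
    rw [map_zero]
  · show ((0 : A.V), B.ρ g v) = (A.ρ g 0, B.ρ g v)
    rw [map_zero]
  · show ((0 : A.V), B.L.a X v) = (A.L.a X 0, B.L.a X v)
    rw [map_zero]

lemma isSum_dsum (A B : SMod m n) : IsSum (dsum A B) A B :=
  ⟨_, _, _, _, isGLin_inl A B, isGLin_inr A B, isGLin_fst A B, isGLin_snd A B,
    fun _ => rfl, fun _ => rfl, fun v => by
      show ((v.1, (0 : B.V)) + ((0 : A.V), v.2)) = v
      ext <;> simp⟩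

/-- A curve in `GL(m) × GL(n)` through `1` with tangent vector `X`. -/
structure IsCurve (γ : ℂ → G0 m n) (X : gl m n) : Prop where
  zero : γ 0 = 1
  even : X ∈ evenM m n
  der : ∀ p q, HasDerivAt (fun t => emb (γ t) p q) (X p q) 0
  der_inv : ∀ p q, HasDerivAt (fun t => emb (γ t)⁻¹ p q) (-X p q) 0

end Pool.Agent.SGp
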