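import Pool.Agent.SGp.Basic

/-!
# Module Block: the principal block exists

Hints. For a class `P` of modules let `perp P N` say that every `K` with `P K` has only zero
morphisms to and from `N`, and `N` is finite dimensional. Say `Sm P` if `P` is iso-closed, consists
of finite dimensional modules, and every finite dimensional `A` is `IsSum A B C` with `P B`,
`perp P C`. `Sm P ↔ ∃ Q, Splits FinDim P Q`.
(1) If `Sm P` and `IsSum A B C`, `P A`, then `P B`: `B = B₁ ⊕ B₂` with `P B₁`, `perp P B₂`; the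
inclusion `B₂ → B → A` is a morphism between `B₂` and `A`, so it is zero, so `B₂ = 0`, `B ≅ B₁`.
(2) If `Sm P`, `Sm P'` then `Sm (P ∩ P')`: `M = M₁ ⊕ N` (`P`), `M₁ = K ⊕ K'` (`P'`), then `K` is in
both by (1) and `K' ⊕ N` (use `dsum`) is in `perp (P ∩ P')`.
(3) Let `P₀ A` iff `P A` for all `P` with `Sm P` and `P (triv m n)`. `Sm P₀`: for `A` choose among
all such `P` and decompositions `A = B ⊕ C` (`P B`, `perp P C`) one with `finrank B` minimal. Then
`P₀ B`: for `P'` decompose with respect to `P ∩ P'`: `B = B' ⊕ B''`, `A = B' ⊕ (B'' ⊕ C)`; by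
minimality `B'' = 0`. And `perp P₀ C` as `P₀ ≤ P`.
(4) `P₀` is indecomposable: if `Splits P₀ P₁ P₂` then the one-dimensional module `triv` is in `P₁` or
`P₂` (one of the two summands is zero, the other is isomorphic to `triv`), say `P₁`; `Sm P₁` (its
complement contains `P₂` and the complement of `P₀`), so `P₀ ≤ P₁`, so the modules in `P₂` are in
`P₁` and their identity is zero. `P₀ triv` by definition, `triv` is nonzero.
-/

namespace Pool.Agent.SGp

variable {m n : ℕ}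

/-! ### Sums -/

/-- The relations between the inclusions and projections of a direct sum. -/
lemma Block_cross {A B C : SMod m n} {i₁ : B.V →ₗ[ℂ] A.V} {i₂ : C.V →ₗ[ℂ] A.V}
    {p₁ : A.V →ₗ[ℂ] B.V} {p₂ : A.V →ₗ[ℂ] C.V} (h1 : ∀ v, p₁ (i₁ v) = v) (h2 : ∀ v, p₂ (i₂ v) = v)
    (h3 : ∀ v, i₁ (p₁ v) + i₂ (p₂ v) = v) : (∀ v, p₁ (i₂ v) = 0) ∧ ∀ v, p₂ (i₁ v) = 0 := by
  constructor
  · intro v
    have h := h3 (i₂ v)
    rw [h2, add_eq_right] at h
    have h' := congrArg p₁ h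
    rwa [h1, map_zero] at h'
  · intro v
    have h := h3 (i₁ v)
    rw [h1, add_eq_left] at h
    have h' := congrArg p₂ h
    rwa [h2, map_zero] at h'

lemma Block_symm {A B C : SMod m n} (h : IsSum A B C) : IsSum A C B := by
  obtain ⟨i₁, i₂, p₁, p₂, a1, a2, a3, a4, b1, b2, b3⟩ := h
  exact ⟨i₂, i₁, p₂, p₁, a2, a1, a4, a3, b2, b1, fun v => by rw [add_comm]; exact b3 v⟩

lemma Block_fin_dsum {A B : SMod m n} (hA : FinDim A) (hB : FinDim B) : FinDim (dsum A B) := by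
  unfold FinDim at *
  show FiniteDimensional ℂ (A.V × B.V)
  infer_instance

/-- A map to a direct sum. -/
lemma Block_pair {X A B : SMod m n} {f : X.V →ₗ[ℂ] A.V} {g : X.V →ₗ[ℂ] B.V} (hf : IsGLin X A f)
    (hg : IsGLin X B g) : IsGLin X (dsum A B) (f.prod g) := by
  refine ⟨fun v => ?_, fun x v => ?_, fun Y v => ?_⟩
  · show (f (X.L.par v), g (X.L.par v)) = (A.L.par (f v), B.L.par (g v))
    rw [hf.par, hg.par]
  · show (f (X.ρ x v), g (X.ρ x v)) = (A.ρ x (f v), B.ρ x (g v))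
    rw [hf.ρ, hg.ρ]
  · show (f (X.L.a Y v), g (X.L.a Y v)) = (A.L.a Y (f v), B.L.a Y (g v))
    rw [hf.a, hg.a]

/-- A map from a direct sum. -/
lemma Block_copair {X A B : SMod m n} {f : A.V →ₗ[ℂ] X.V} {g : B.V →ₗ[ℂ] X.V} (hf : IsGLin A X f)
    (hg : IsGLin B X g) : IsGLin (dsum A B) X (f.coprod g) := by
  refine ⟨fun v => ?_, fun x v => ?_, fun Y v => ?_⟩
  · show f (A.L.par v.1) + g (B.L.par v.2) = X.L.par (f v.1 + g v.2)
    rw [hf.par, hg.par, map_add]
  · show f (A.ρ x v.1) + g (B.ρ x v.2) = X.ρ x (f v.1 + g v.2)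
    rw [hf.ρ, hg.ρ, map_add]
  · show f (A.L.a Y v.1) + g (B.L.a Y v.2) = X.L.a Y (f v.1 + g v.2)
    rw [hf.a, hg.a, map_add]

lemma Block_assoc {M M₁ N K K' : SMod m n} (h : IsSum M M₁ N) (h' : IsSum M₁ K K') :
    IsSum M K (dsum K' N) := by
  obtain ⟨i₁, i₂, p₁, p₂, a1, a2, a3, a4, b1, b2, b3⟩ := h
  obtain ⟨j₁, j₂, q₁, q₂, c1, c2, c3, c4, d1, d2, d3⟩ := h'
  obtain ⟨e1, e2⟩ := Block_cross b1 b2 b3
  obtain ⟨f1, f2⟩ := Block_cross d1 d2 d3
  refine ⟨i₁ ∘ₗ j₁, (i₁ ∘ₗ j₂).coprod i₂, q₁ ∘ₗ p₁, (q₂ ∘ₗ p₁).prod p₂, a1.comp c1,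
    Block_copair (a1.comp c2) a2, c3.comp a3, Block_pair (c4.comp a3) a4, ?_, ?_, ?_⟩
  · intro v
    simp only [LinearMap.comp_apply]
    rw [b1, d1]
  · rintro (v : K'.V × N.V)
    have h1 : q₂ (p₁ (i₁ (j₂ v.1) + i₂ v.2)) = v.1 := by
      rw [map_add, b1, e1, add_zero, d2]
    have h2 : p₂ (i₁ (j₂ v.1) + i₂ v.2) = v.2 := by
      rw [map_add, e2, b2, zero_add]
    exact Prod.ext h1 h2
  · intro v
    show i₁ (j₁ (q₁ (p₁ v))) + (i₁ (j₂ (q₂ (p₁ v))) + i₂ (p₂ v)) = v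
    rw [← add_assoc, ← map_add, d3, b3]

lemma Block_iso_of_zero {A B C : SMod m n} (h : IsSum A B C) (hC : ∀ v : C.V, v = 0) :
    Iso B A ∧ Iso A B := by
  obtain ⟨i₁, i₂, p₁, p₂, a1, a2, a3, a4, b1, b2, b3⟩ := h
  have h1 : ∀ v, i₁ (p₁ v) = v := fun v => by
    have := b3 v
    rwa [hC (p₂ v), map_zero, add_zero] at this
  exact ⟨⟨i₁, p₁, a1, a3, b1, h1⟩, ⟨p₁, i₁, a3, a1, h1, b1⟩⟩

lemma Block_fin_left {A B C : SMod m n} (h : IsSum A B C) (hA : FinDim A) : FinDim B := by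
  obtain ⟨i₁, i₂, p₁, p₂, a1, a2, a3, a4, b1, b2, b3⟩ := h
  unfold FinDim at *
  exact FiniteDimensional.of_injective i₁ (Function.LeftInverse.injective b1)

lemma Block_finrank {A B C : SMod m n} (h : IsSum A B C) (hA : FinDim A) :
    Module.finrank ℂ A.V = Module.finrank ℂ B.V + Module.finrank ℂ C.V := by
  have hB := Block_fin_left h hA
  have hC := Block_fin_left (Block_symm h) hA
  obtain ⟨i₁, i₂, p₁, p₂, a1, a2, a3, a4, b1, b2, b3⟩ := h
  obtain ⟨e1, e2⟩ := Block_cross b1 b2 b3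
  unfold FinDim at *
  rw [← Module.finrank_prod]
  refine LinearEquiv.finrank_eq (LinearEquiv.ofLinearMap (p₁.prod p₂) (i₁.coprod i₂) ?_ ?_)
  · apply LinearMap.ext
    intro v
    show (p₁ (i₁ v.1 + i₂ v.2), p₂ (i₁ v.1 + i₂ v.2)) = v
    rw [map_add, map_add, b1, b2, e1, e2, add_zero, zero_add]
  · apply LinearMap.ext
    intro v
    exact b3 v

/-! ### Summands of the category -/

/-- `N` is finite dimensional and has no morphisms to and from objects of `P`. -/
def Block_perp (P : SMod m n → Prop) (N : SMod m n) : Prop :=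
  FinDim N ∧ ∀ K, P K → (∀ f, IsGLin K N f → f = 0) ∧ ∀ f, IsGLin N K f → f = 0

/-- `P` is a direct summand of the category of finite dimensional modules. -/
structure Block_Sm (P : SMod m n → Prop) : Prop where
  iso : ∀ A B, Iso A B → P A → P B
  fin : ∀ A, P A → FinDim A
  dec : ∀ A, FinDim A → ∃ B C, P B ∧ Block_perp P C ∧ IsSum A B C

lemma Block_fin_iso {A B : SMod m n} (h : Iso A B) (hA : FinDim A) : FinDim B := by
  obtain ⟨f, g, _, _, _, h2⟩ := h
  unfold FinDim at *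
  exact FiniteDimensional.of_injective g (Function.LeftInverse.injective h2)

lemma Block_perp_iso {P : SMod m n → Prop} {A B : SMod m n} (h : Iso A B)
    (hA : Block_perp P A) : Block_perp P B := by
  refine ⟨Block_fin_iso h hA.1, fun K hK => ?_⟩
  obtain ⟨f, g, hf, hg, h1, h2⟩ := h
  obtain ⟨k1, k2⟩ := hA.2 K hK
  constructor
  · intro u hu
    have h3 := k1 _ (hg.comp hu)
    apply LinearMap.ext
    intro v
    have h4 : g (u v) = 0 := LinearMap.congr_fun h3 v
    have h5 := congrArg f h4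
    rw [h2, map_zero] at h5
    exact h5
  · intro u hu
    have h3 := k2 _ (hu.comp hf)
    apply LinearMap.ext
    intro v
    have h4 : u (f (g v)) = 0 := LinearMap.congr_fun h3 (g v)
    rw [h2] at h4
    exact h4

lemma Block_perp_dsum {P P' Q : SMod m n → Prop} (hP : ∀ K, Q K → P K) (hP' : ∀ K, Q K → P' K)
    {A B : SMod m n} (hA : Block_perp P A) (hB : Block_perp P' B) :
    Block_perp Q (dsum A B) := by
  refine ⟨Block_fin_dsum hA.1 hB.1, fun K hK => ?_⟩
  obtain ⟨k1, k2⟩ := hA.2 K (hP K hK)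
  obtain ⟨l1, l2⟩ := hB.2 K (hP' K hK)
  constructor
  · intro f hf
    have h1 := k1 _ ((isGLin_fst A B).comp hf)
    have h2 := l1 _ ((isGLin_snd A B).comp hf)
    apply LinearMap.ext
    intro v
    exact Prod.ext (LinearMap.congr_fun h1 v) (LinearMap.congr_fun h2 v)
  · intro f hf
    have h1 := k2 _ (hf.comp (isGLin_inl A B))
    have h2 := l2 _ (hf.comp (isGLin_inr A B))
    apply LinearMap.ext
    intro v
    have h3 : f (LinearMap.inl ℂ A.V B.V v.1) = 0 := LinearMap.congr_fun h1 v.1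
    have h4 : f (LinearMap.inr ℂ A.V B.V v.2) = 0 := LinearMap.congr_fun h2 v.2
    have h5 : (LinearMap.inl ℂ A.V B.V v.1 + LinearMap.inr ℂ A.V B.V v.2 : A.V × B.V) = v := by
      refine Prod.ext ?_ ?_
      · show v.1 + 0 = v.1
        rw [add_zero]
      · show 0 + v.2 = v.2
        rw [zero_add]
    have h6 := f.map_add (LinearMap.inl ℂ A.V B.V v.1) (LinearMap.inr ℂ A.V B.V v.2)
    rw [h3, h4, add_zero] at h6
    exact (congrArg f h5).symm.trans h6

lemma Block_Sm.splits {P : SMod m n → Prop} (h : Block_Sm P) : Splits FinDim P (Block_perp P) where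
  left := h.fin
  right := fun _ hA => hA.1
  iso_left := h.iso
  iso_right := fun _ _ hi hA => Block_perp_iso hi hA
  sum := h.dec
  hom₁ := fun A B f hA hB hf => (hB.2 A hA).1 f hf
  hom₂ := fun A B f hA hB hf => (hB.2 A hA).2 f hf

/-- Step (1). -/
lemma Block_Sm.left {P : SMod m n → Prop} (h : Block_Sm P) {A B C : SMod m n}
    (hs : IsSum A B C) (hA : P A) : P B := by
  have hB := Block_fin_left hs (h.fin A hA)
  obtain ⟨B₁, B₂, h1, h2, h3⟩ := h.dec B hB
  have hz : ∀ v : B₂.V, v = 0 := by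
    obtain ⟨i₁, i₂, p₁, p₂, a1, a2, a3, a4, b1, b2, b3⟩ := hs
    obtain ⟨j₁, j₂, q₁, q₂, c1, c2, c3, c4, d1, d2, d3⟩ := h3
    have h4 := (h2.2 A hA).2 _ (a1.comp c2)
    intro v
    have h5 : i₁ (j₂ v) = 0 := LinearMap.congr_fun h4 v
    have h6 := congrArg p₁ h5
    rw [b1, map_zero] at h6
    have h7 := congrArg q₂ h6
    rwa [d2, map_zero] at h7
  exact h.iso _ _ (Block_iso_of_zero h3 hz).1 h1

/-- The zero module. -/
noncomputable def Block_zero (m n : ℕ) : SMod m n where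
  V := PUnit
  L := { par := 0
         a := 0
         par_par := fun _ => rfl
         par_even := fun _ _ _ => rfl
         par_odd := fun _ _ _ => rfl
         lie_even := fun _ _ _ _ => rfl
         lie_odd := fun _ _ _ _ _ => rfl }
  ρ := fun _ => 0
  ρ_one := fun _ => rfl
  ρ_mul := fun _ _ _ => rfl
  par_ρ := fun _ _ => rfl
  ad := fun _ _ _ => rfl
  rat := fun _ => ⟨Unit, inferInstance, fun _ => 1, fun _ => 0, fun _ => rfl, fun _ _ => rfl⟩

lemma Block_Sm_fin : Block_Sm (FinDim : SMod m n → Prop) := by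
  refine ⟨fun _ _ h hA => Block_fin_iso h hA, fun _ h => h, fun A hA => ?_⟩
  refine ⟨A, Block_zero m n, hA, ⟨?_, fun K hK => ⟨fun f _ => ?_, fun f _ => ?_⟩⟩, ?_⟩
  · show FiniteDimensional ℂ PUnit
    infer_instance
  · apply LinearMap.ext
    intro v
    exact rfl
  · apply LinearMap.ext
    intro v
    show f v = 0
    have : v = 0 := rfl
    rw [this, map_zero]
  · refine ⟨LinearMap.id, 0, LinearMap.id, 0, IsGLin.id A, ⟨?_, ?_, ?_⟩, IsGLin.id A,
      ⟨?_, ?_, ?_⟩, fun _ => rfl, fun _ => rfl, fun v => ?_⟩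
    · intro v; simp
    · intro g v; simp
    · intro X v; simp
    · intro v; rfl
    · intro g v; rfl
    · intro X v; rfl
    · simp

/-- The class `P₀`. -/
def Block_P0 (m n : ℕ) (A : SMod m n) : Prop :=
  ∀ P : SMod m n → Prop, Block_Sm P → P (triv m n) → P A

lemma Block_fin_triv : FinDim (triv m n) := by
  show FiniteDimensional ℂ ℂ
  infer_instance

lemma Block_Sm_P0 : Block_Sm (Block_P0 m n) := by
  refine ⟨fun A B h hA P hP hT => hP.iso A B h (hA P hP hT),
    fun A hA => hA FinDim Block_Sm_fin Block_fin_triv, fun A hA => ?_⟩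
  have hex : ∃ d : ℕ, ∃ (P : SMod m n → Prop) (B C : SMod m n), Block_Sm P ∧ P (triv m n) ∧ P B ∧
      Block_perp P C ∧ IsSum A B C ∧ Module.finrank ℂ B.V = d := by
    obtain ⟨B, C, h1, h2, h3⟩ := Block_Sm_fin.dec A hA
    exact ⟨_, FinDim, B, C, Block_Sm_fin, Block_fin_triv, h1, h2, h3, rfl⟩
  classical
  obtain ⟨P, B, C, hP, hT, hB, hC, hs, hd⟩ := Nat.find_spec hex
  refine ⟨B, C, ?_, ⟨hC.1, fun K hK => hC.2 K (hK P hP hT)⟩, hs⟩
  intro P' hP' hT'
  have hBf := hP.fin B hB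
  obtain ⟨B', B'', h1, h2, h3⟩ := hP'.dec B hBf
  have hPB' : P B' := hP.left h3 hB
  have hsm : Block_Sm (fun A => P A ∧ P' A) := by
    refine ⟨fun A B h hA => ⟨hP.iso A B h hA.1, hP'.iso A B h hA.2⟩, fun A hA => hP.fin A hA.1,
      fun M hM => ?_⟩
    obtain ⟨M₁, N, k1, k2, k3⟩ := hP.dec M hM
    obtain ⟨K, K', l1, l2, l3⟩ := hP'.dec M₁ (hP.fin M₁ k1)
    exact ⟨K, dsum K' N, ⟨hP.left l3 k1, l1⟩,
      Block_perp_dsum (fun X hX => hX.2) (fun X hX => hX.1) l2 k2, Block_assoc k3 l3⟩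
  have hmin := Nat.find_min' hex (m := Module.finrank ℂ B'.V)
    ⟨fun A => P A ∧ P' A, B', dsum B'' C, hsm, ⟨hT, hT'⟩, ⟨hPB', h1⟩,
      Block_perp_dsum (fun X hX => hX.2) (fun X hX => hX.1) h2 hC, Block_assoc hs h3, rfl⟩
  rw [← hd] at hmin
  have hr := Block_finrank h3 hBf
  have h0 : Module.finrank ℂ B''.V = 0 := by omega
  have hB'' : FiniteDimensional ℂ B''.V := h2.1
  have hz : ∀ v : B''.V, v = 0 := by
    have := Module.finrank_zero_iff.1 h0
    exact fun v => Subsingleton.elim v 0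
  exact hP'.iso _ _ (Block_iso_of_zero h3 hz).1 h1

lemma Block_Splits_symm {R P Q : SMod m n → Prop} (h : Splits R P Q) : Splits R Q P where
  left := h.right
  right := h.left
  iso_left := h.iso_right
  iso_right := h.iso_left
  sum := fun A hA => by
    obtain ⟨B, C, h1, h2, h3⟩ := h.sum A hA
    exact ⟨C, B, h2, h1, Block_symm h3⟩
  hom₁ := fun A B f hA hB hf => h.hom₂ B A f hB hA hf
  hom₂ := fun A B f hA hB hf => h.hom₁ B A f hB hA hf

lemma Block_indec {P₁ P₂ : SMod m n → Prop} (h : Splits (Block_P0 m n) P₁ P₂)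
    (hT : P₁ (triv m n)) : ∀ A, P₂ A → Subsingleton A.V := by
  have hsm : Block_Sm P₁ := by
    refine ⟨h.iso_left, fun A hA => Block_Sm_P0.fin A (h.left A hA), fun A hA => ?_⟩
    obtain ⟨B₀, C₀, k1, k2, k3⟩ := Block_Sm_P0.dec A hA
    obtain ⟨B₁, B₂, l1, l2, l3⟩ := h.sum B₀ k1
    refine ⟨B₁, dsum B₂ C₀, l1, ?_, Block_assoc k3 l3⟩
    refine Block_perp_dsum (P := P₁) (P' := Block_P0 m n) (fun X hX => hX)
      (fun X hX => h.left X hX) ?_ k2
    exact ⟨Block_Sm_P0.fin _ (h.right _ l2), fun K hK => ⟨fun f hf => h.hom₁ K B₂ f hK l2 hf,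
      fun f hf => h.hom₂ K B₂ f hK l2 hf⟩⟩
  intro A hA
  have h1 : P₁ A := h.right A hA P₁ hsm hT
  have h2 := h.hom₁ A A LinearMap.id h1 hA (IsGLin.id A)
  refine ⟨fun a b => ?_⟩
  have h3 : ∀ v : A.V, v = 0 := fun v => LinearMap.congr_fun h2 v
  rw [h3 a, h3 b]

theorem exists_block : ∃ P : SMod m n → Prop, IsBlock P ∧ P (triv m n) := by
  refine ⟨Block_P0 m n, ⟨⟨_, Block_Sm_P0.splits⟩, ⟨triv m n, fun P _ hT => hT, ?_⟩, ?_⟩,
    fun P _ hT => hT⟩
  · show Nontrivial ℂ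
    infer_instance
  · intro P₁ P₂ h
    obtain ⟨B, C, h1, h2, h3⟩ := h.sum (triv m n) (fun P _ hT => hT)
    have hr := Block_finrank h3 Block_fin_triv
    have h4 : Module.finrank ℂ (triv m n).V = 1 := Module.finrank_self ℂ
    have hBf := Block_fin_left h3 Block_fin_triv
    have hCf := Block_fin_left (Block_symm h3) Block_fin_triv
    unfold FinDim at hBf hCf
    have h5 : Module.finrank ℂ C.V = 0 ∨ Module.finrank ℂ B.V = 0 := by omega
    rcases h5 with h5 | h5
    · right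
      have h6 := Module.finrank_zero_iff.1 h5
      exact Block_indec h (h.iso_left _ _
        (Block_iso_of_zero h3 (fun v => Subsingleton.elim v 0)).1 h1)
    · left
      have h6 := Module.finrank_zero_iff.1 h5
      exact Block_indec (Block_Splits_symm h) (h.iso_right _ _
        (Block_iso_of_zero (Block_symm h3) (fun v => Subsingleton.elim v 0)).1 h2)

end Pool.Agent.SGp
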