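import Pool.Agent.SGp.Basic

/-!
# Module Curve (general m, n): derivatives along curves in GL(m) × GL(n)
-/

namespace Pool.Agent.SGp

open Matrix

variable {m n : ℕ}

theorem rv_curve {γ : ℂ → G0 m n} {X : gl m n} (h : IsCurve γ X) (P : Reg m n) :
    HasDerivAt (fun t => rv P (γ t)) (dv P X) 0 := by
  induction P using MvPolynomial.induction_on with
  | C a =>
    simp only [rv_C, dv_C]
    exact hasDerivAt_const _ _
  | add p q hp hq =>
    simp only [rv_add, dv_add]
    exact hp.fun_add hq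
  | mul_X p i hp =>
    simp only [rv_mul, dv_mul]
    have hi : HasDerivAt (fun t => rv (MvPolynomial.X i : Reg m n) (γ t))
        (dv (MvPolynomial.X i : Reg m n) X) 0 := by
      rcases i with i | i
      · simp only [rv_X_inl, dv_X_inl]
        exact h.der i.1 i.2
      · simp only [rv_X_inr, dv_X_inr]
        exact h.der_inv i.1 i.2
    have h1 := hp.fun_mul hi
    rw [h.zero] at h1
    refine h1.congr_deriv ?_
    ring

theorem mem_lieAlg_of_curve {γ : ℂ → G0 m n} {X : gl m n} (h : IsCurve γ X)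
    (H : Subgroup (G0 m n)) (hH : ∀ t, γ t ∈ H) : X ∈ lieAlg H := by
  refine ⟨h.even, fun P hP => ?_⟩
  have h1 := rv_curve h P
  have h2 : (fun t => rv P (γ t)) = fun _ => (0 : ℂ) := by
    funext t
    exact hP _ (hH t)
  rw [h2] at h1
  exact h1.unique (hasDerivAt_const _ _)

theorem ρ_curve (A : SMod m n) {γ : ℂ → G0 m n} {X : gl m n} (h : IsCurve γ X) (v : A.V)
    (l : A.V →ₗ[ℂ] ℂ) : HasDerivAt (fun t => l (A.ρ (γ t) v)) (l (A.L.a X v)) 0 := by
  obtain ⟨ι, _, P, w, hw, hw'⟩ := A.rat v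
  have h1 : (fun t => l (A.ρ (γ t) v)) = fun t => ∑ i, rv (P i) (γ t) * l (w i) := by
    funext t
    rw [hw, map_sum]
    simp only [map_smul, smul_eq_mul]
  have h2 : l (A.L.a X v) = ∑ i, dv (P i) X * l (w i) := by
    rw [hw' X h.even, map_sum]
    simp only [map_smul, smul_eq_mul]
  rw [h1, h2]
  exact HasDerivAt.fun_sum fun i _ => (rv_curve h (P i)).mul_const _

theorem a_lin_of_curve (A B : SMod m n) {γ : ℂ → G0 m n} {X : gl m n} (h : IsCurve γ X)
    (r : A.V →ₗ[ℂ] B.V) (hr : ∀ t v, r (A.ρ (γ t) v) = B.ρ (γ t) (r v)) (v : A.V) :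
    r (A.L.a X v) = B.L.a X (r v) := by
  rw [← sub_eq_zero]
  refine (Module.forall_dual_apply_eq_zero_iff ℂ _).mp fun l => ?_
  rw [map_sub, sub_eq_zero]
  have h1 := ρ_curve A h v (l ∘ₗ r)
  have h2 := ρ_curve B h (r v) l
  have h3 : (fun t => (l ∘ₗ r) (A.ρ (γ t) v)) = fun t => l (B.ρ (γ t) (r v)) := by
    funext t
    rw [LinearMap.comp_apply, hr]
  rw [h3] at h1
  exact h1.unique h2

theorem Curve_aux (A B : SMod m n) {γ : ℂ → G0 m n} {X : gl m n} (h : IsCurve γ X)
    (r : A.V →ₗ[ℂ] B.V) (v : A.V) (l : B.V →ₗ[ℂ] ℂ) :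
    HasDerivAt (fun t => l (B.ρ (γ (-t)) (r (A.ρ (γ t) v))))
      (l (r (A.L.a X v)) - l (B.L.a X (r v))) 0 := by
  obtain ⟨ι, _, P, w, hw, hw'⟩ := A.rat v
  have hneg : ∀ u : B.V, HasDerivAt (fun t : ℂ => l (B.ρ (γ (-t)) u)) (-(l (B.L.a X u))) 0 := by
    intro u
    have h1 : HasDerivAt (fun t => l (B.ρ (γ t) u)) (l (B.L.a X u)) (0 - 0) := by
      rw [sub_zero]
      exact ρ_curve B h u l
    have h2 := HasDerivAt.comp_const_sub (0 : ℂ) 0 h1
    simpa only [zero_sub] using h2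
  have h1 : (fun t => l (B.ρ (γ (-t)) (r (A.ρ (γ t) v)))) =
      fun t => ∑ i, rv (P i) (γ t) * l (B.ρ (γ (-t)) (r (w i))) := by
    funext t
    rw [hw, map_sum, map_sum, map_sum]
    simp only [map_smul, smul_eq_mul]
  have h3 : v = ∑ i, rv (P i) 1 • w i := by
    rw [← hw 1, A.ρ_one]
  have h2 : l (r (A.L.a X v)) - l (B.L.a X (r v)) =
      ∑ i, (dv (P i) X * l (B.ρ (γ (-0)) (r (w i))) +
        rv (P i) (γ 0) * (-(l (B.L.a X (r (w i)))))) := by
    rw [Finset.sum_add_distrib]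
    have e1 : l (r (A.L.a X v)) = ∑ i, dv (P i) X * l (B.ρ (γ (-0)) (r (w i))) := by
      rw [hw' X h.even, map_sum, map_sum]
      simp only [map_smul, smul_eq_mul, neg_zero, h.zero, B.ρ_one]
    have e2 : l (B.L.a X (r v)) = ∑ i, rv (P i) 1 * l (B.L.a X (r (w i))) := by
      conv_lhs => rw [h3]
      rw [map_sum, map_sum, map_sum]
      simp only [map_smul, smul_eq_mul]
    rw [e1, e2, h.zero]
    simp only [mul_neg, Finset.sum_neg_distrib]
    ring
  rw [h1, h2]
  exact HasDerivAt.fun_sum fun i _ => (rv_curve h (P i)).fun_mul (hneg (r (w i)))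

theorem ρ_lin_of_curve (A B : SMod m n) {γ : ℂ → G0 m n} {X : gl m n} (h : IsCurve γ X)
    (hadd : ∀ s t, γ (s + t) = γ s * γ t) (r : A.V →ₗ[ℂ] B.V)
    (hr : ∀ v, r (A.L.a X v) = B.L.a X (r v)) (t : ℂ) (v : A.V) :
    r (A.ρ (γ t) v) = B.ρ (γ t) (r v) := by
  have key : B.ρ (γ (-t)) (r (A.ρ (γ t) v)) = r v := by
    rw [← sub_eq_zero]
    refine (Module.forall_dual_apply_eq_zero_iff ℂ _).mp fun l => ?_
    rw [map_sub, sub_eq_zero]
    set F : ℂ → ℂ := fun t => l (B.ρ (γ (-t)) (r (A.ρ (γ t) v))) with hF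
    have hd : ∀ s : ℂ, HasDerivAt F 0 s := by
      intro s
      have h1 := Curve_aux A B h r (A.ρ (γ s) v) (l ∘ₗ B.ρ (γ (-s)))
      rw [hr, sub_self] at h1
      have h2 : (fun t => (l ∘ₗ B.ρ (γ (-s))) (B.ρ (γ (-t)) (r (A.ρ (γ t) (A.ρ (γ s) v))))) =
          fun t => F (t + s) := by
        funext t
        rw [LinearMap.comp_apply, ← B.ρ_mul, ← A.ρ_mul, ← hadd, ← hadd, ← neg_add, add_comm s t]
      rw [h2] at h1
      have h3 : HasDerivAt (fun t => F (t + s)) 0 (s + (-s)) := by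
        rw [add_neg_cancel]
        exact h1
      have h4 := HasDerivAt.comp_add_const s (-s) h3
      simpa only [neg_add_cancel_right] using h4
    have hc := is_const_of_deriv_eq_zero (fun s => (hd s).differentiableAt)
      (fun s => (hd s).deriv) t 0
    have h0 : F 0 = l (r v) := by
      simp only [hF, neg_zero, h.zero, A.ρ_one, B.ρ_one]
    rw [← h0, ← hc]
  have h1 := congrArg (B.ρ (γ t)) key
  rw [← B.ρ_mul, ← hadd, add_neg_cancel, h.zero, B.ρ_one] at h1
  exact h1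

/-- the value of a regular function along the curve `1 + t X`, as a polynomial in `t` -/
noncomputable def Curve_pol (X : gl m n) : Reg m n →ₐ[ℂ] Polynomial ℂ :=
  MvPolynomial.aeval (Sum.elim
    (fun p => Polynomial.C ((1 : gl m n) p.1 p.2) + Polynomial.X * Polynomial.C (X p.1 p.2))
    (fun p => Polynomial.C ((1 : gl m n) p.1 p.2) - Polynomial.X * Polynomial.C (X p.1 p.2)))

theorem Curve_pol_eval {γ : ℂ → G0 m n} {X : gl m n} (h1 : ∀ t, emb (γ t) = 1 + t • X)
    (h2 : ∀ t, emb (γ t)⁻¹ = 1 - t • X) (P : Reg m n) (t : ℂ) :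
    (Curve_pol X P).eval t = rv P (γ t) := by
  induction P using MvPolynomial.induction_on with
  | C a =>
    have h : Curve_pol X (MvPolynomial.C a) = Polynomial.C a := by
      simp [Curve_pol]
    rw [h, rv_C, Polynomial.eval_C]
  | add p q hp hq =>
    rw [map_add, Polynomial.eval_add, hp, hq, rv_add]
  | mul_X p i hp =>
    rw [map_mul, Polynomial.eval_mul, hp, rv_mul]
    congr 1
    rcases i with i | i
    · rw [rv_X_inl, h1]
      simp [Curve_pol]
      ring
    · rw [rv_X_inr, h2]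
      simp [Curve_pol]
      ring

theorem nilp (A : SMod m n) {γ : ℂ → G0 m n} {X : gl m n} (h : IsCurve γ X)
    (hadd : ∀ s t, γ (s + t) = γ s * γ t) (h1 : ∀ t, emb (γ t) = 1 + t • X)
    (h2 : ∀ t, emb (γ t)⁻¹ = 1 - t • X) (v : A.V) :
    ∃ k, ((A.L.a X : Module.End ℂ A.V) ^ k) v = 0 := by
  obtain ⟨ι, _, P, w, hw, hw'⟩ := A.rat v
  set d : ℕ := ∑ i, (Curve_pol X (P i)).natDegree with hd
  refine ⟨d + 1, ?_⟩
  refine (Module.forall_dual_apply_eq_zero_iff ℂ _).mp fun l => ?_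
  set q : Polynomial ℂ := ∑ i, Curve_pol X (P i) * Polynomial.C (l (w i)) with hq
  have hq0 : ∀ t, l (A.ρ (γ t) v) = q.eval t := by
    intro t
    rw [hw, map_sum, hq, Polynomial.eval_finsetSum]
    refine Finset.sum_congr rfl fun i _ => ?_
    rw [map_smul, smul_eq_mul, Polynomial.eval_mul, Polynomial.eval_C, Curve_pol_eval h1 h2]
  have hdeg : q.natDegree < d + 1 := by
    refine Nat.lt_succ_of_le ?_
    rw [hq]
    refine Polynomial.natDegree_sum_le_of_forall_le _ _ fun i _ => ?_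
    refine (Polynomial.natDegree_mul_C_le _ _).trans ?_
    exact Finset.single_le_sum (f := fun i => (Curve_pol X (P i)).natDegree)
      (fun _ _ => Nat.zero_le _) (Finset.mem_univ i)
  have hder : ∀ (u : A.V) (s : ℂ), HasDerivAt (fun t => l (A.ρ (γ t) u))
      (l (A.ρ (γ s) (A.L.a X u))) s := by
    intro u s
    have e1 := ρ_curve A h u (l ∘ₗ A.ρ (γ s))
    have e2 : (fun t => (l ∘ₗ A.ρ (γ s)) (A.ρ (γ t) u)) = fun t => l (A.ρ (γ (t + s)) u) := by
      funext t
      rw [LinearMap.comp_apply, ← A.ρ_mul, ← hadd, add_comm]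
    rw [e2] at e1
    have e3 : HasDerivAt (fun t => l (A.ρ (γ (t + s)) u)) ((l ∘ₗ A.ρ (γ s)) (A.L.a X u))
        (s + (-s)) := by
      rw [add_neg_cancel]
      exact e1
    have e4 := HasDerivAt.comp_add_const s (-s) e3
    simpa only [neg_add_cancel_right, LinearMap.comp_apply] using e4
  have hk : ∀ k : ℕ, ∀ t, l (A.ρ (γ t) (((A.L.a X : Module.End ℂ A.V) ^ k) v)) =
      (Polynomial.derivative^[k] q).eval t := by
    intro k
    induction k with
    | zero =>
      intro t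
      simpa using hq0 t
    | succ k ih =>
      intro t
      have e1 := hder (((A.L.a X : Module.End ℂ A.V) ^ k) v) t
      have e2 : (fun t => l (A.ρ (γ t) (((A.L.a X : Module.End ℂ A.V) ^ k) v))) =
          fun t => (Polynomial.derivative^[k] q).eval t := funext ih
      rw [e2] at e1
      have e3 := (Polynomial.derivative^[k] q).hasDerivAt t
      rw [Function.iterate_succ_apply']
      rw [← e1.unique e3, pow_succ', Module.End.mul_apply]
  have h0 := hk (d + 1) 0
  rw [Polynomial.iterate_derivative_eq_zero hdeg, h.zero, A.ρ_one, Polynomial.eval_zero] at h0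
  exact h0

theorem a_mem_of_curve (A : SMod m n) {γ : ℂ → G0 m n} {X : gl m n} (h : IsCurve γ X)
    (U : Submodule ℂ A.V) (hU : ∀ t, ∀ v ∈ U, A.ρ (γ t) v ∈ U) :
    ∀ v ∈ U, A.L.a X v ∈ U := by
  intro v hv
  by_contra hn
  obtain ⟨l, hl, hlU⟩ := Submodule.exists_le_ker_of_notMem hn
  have h1 := ρ_curve A h v l
  have h2 : (fun t => l (A.ρ (γ t) v)) = fun _ => (0 : ℂ) := by
    funext t
    exact LinearMap.mem_ker.mp (hlU (hU t v hv))
  rw [h2] at h1
  exact hl (h1.unique (hasDerivAt_const _ _))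

end Pool.Agent.SGp
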