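import Pool.Agent.SGp.Basic

/-!
# Module Dcc: closed subgroups satisfy the descending chain condition

Hints. Let `I H = {P : Reg m n | ∀ g ∈ H.H0, rv P g = 0}`, an ideal of the Noetherian ring
`Reg m n` (`MvPolynomial.isNoetherianRing`). By `closed`, `g ∈ H.H0 ↔ ∀ P ∈ I H, rv P g = 0`, so `I`
is injective and order reversing on the even parts. The odd parts are subspaces of the finite
dimensional space `gl m n`.
-/

namespace Pool.Agent.SGp

variable {m n : ℕ}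

/-- The ideal of polynomials vanishing on the even part. -/
noncomputable def dccI (H : ClosedSub m n) : Ideal (Reg m n) where
  carrier := {P | ∀ g ∈ H.H0, rv P g = 0}
  add_mem' hP hQ := fun g hg => by rw [rv_add, hP g hg, hQ g hg, add_zero]
  zero_mem' := fun g _ => rv_zero g
  smul_mem' c P hP := fun g hg => by rw [smul_eq_mul, rv_mul, hP g hg, mul_zero]

lemma dcc_mem (H : ClosedSub m n) (P : Reg m n) : P ∈ dccI H ↔ ∀ g ∈ H.H0, rv P g = 0 := Iff.rfl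

lemma dcc_iff (H : ClosedSub m n) (g : G0 m n) : g ∈ H.H0 ↔ ∀ P ∈ dccI H, rv P g = 0 := by
  constructor
  · intro hg P hP
    exact hP g hg
  · intro h
    obtain ⟨S, hS⟩ := H.closed
    rw [hS]
    intro P hP
    exact h P (fun x hx => (hS x).1 hx P hP)

lemma dcc_anti {K D : ClosedSub m n} (h : K.H0 ≤ D.H0) : dccI D ≤ dccI K :=
  fun _ hP g hg => hP g (h hg)

lemma dcc_inj {K D : ClosedSub m n} (h : dccI K = dccI D) : K.H0 = D.H0 := by
  ext g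
  rw [dcc_iff, dcc_iff, h]

theorem exists_min (Φ : ClosedSub m n → Prop) (H : ClosedSub m n) (hH : Φ H) :
    ∃ D : ClosedSub m n, D.Le H ∧ Φ D ∧ ∀ K : ClosedSub m n, K.Le D → Φ K → K = D := by
  have w1 : WellFounded (InvImage (fun a b : Ideal (Reg m n) => a > b) dccI) :=
    InvImage.wf dccI wellFounded_gt
  obtain ⟨K₀, ⟨hK₀H, hK₀Φ⟩, hK₀⟩ :=
    w1.has_min {K : ClosedSub m n | K.Le H ∧ Φ K} ⟨H, ⟨⟨le_rfl, le_rfl⟩, hH⟩⟩
  have w2 : WellFounded (InvImage (fun a b : Submodule ℂ (gl m n) => a < b)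
      (ClosedSub.h1 (m := m) (n := n))) :=
    InvImage.wf _ wellFounded_lt
  obtain ⟨D, ⟨hD₀, hDΦ⟩, hD⟩ :=
    w2.has_min {K : ClosedSub m n | K.Le K₀ ∧ Φ K} ⟨K₀, ⟨⟨le_rfl, le_rfl⟩, hK₀Φ⟩⟩
  have key : ∀ K : ClosedSub m n, K.Le K₀ → Φ K → K.H0 = K₀.H0 := by
    intro K hK hΦ
    have h1 : dccI K₀ ≤ dccI K := dcc_anti hK.1
    have h2 : ¬ dccI K > dccI K₀ := hK₀ K ⟨⟨hK.1.trans hK₀H.1, hK.2.trans hK₀H.2⟩, hΦ⟩
    have h3 : dccI K₀ = dccI K := by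
      by_contra hne
      exact h2 (lt_of_le_of_ne h1 hne)
    exact (dcc_inj h3).symm
  refine ⟨D, ⟨hD₀.1.trans hK₀H.1, hD₀.2.trans hK₀H.2⟩, hDΦ, ?_⟩
  intro K hK hΦ
  have hK₀' : K.Le K₀ := ⟨hK.1.trans hD₀.1, hK.2.trans hD₀.2⟩
  have h4 : ¬ K.h1 < D.h1 := hD K ⟨hK₀', hΦ⟩
  have h5 : K.h1 = D.h1 := by
    by_contra hne
    exact h4 (lt_of_le_of_ne hK.2 hne)
  exact ClosedSub.ext ((key K hK₀' hΦ).trans (key D hD₀ hDΦ).symm) h5

end Pool.Agent.SGp
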