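import Mathlib

/-!
# The supergroup `GL(m|n)`, its modules, closed subgroups, relative projectivity, blocks

Algebraic supergroups over `ℂ` are encoded by their Harish-Chandra pairs.  The pair of `GL(m|n)` is
`(GL(m) × GL(n), gl(m|n))`.  A `GL(m|n)`-module is a (rational) supermodule of this pair, a closed
subgroup is a closed subpair, and `Ind` is the right adjoint of the restriction functor.
-/

namespace Pool.Agent.SGp

open Matrix

variable {m n : ℕ}

/-- The Lie superalgebra `gl(m|n)`: matrices with rows and columns indexed by `Fin m ⊕ Fin n`. -/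
abbrev gl (m n : ℕ) : Type := Matrix (Fin m ⊕ Fin n) (Fin m ⊕ Fin n) ℂ

/-- The even part of `gl(m|n)`: block diagonal matrices. -/
def evenM (m n : ℕ) : Submodule ℂ (gl m n) where
  carrier := {X | (∀ i j, X (Sum.inl i) (Sum.inr j) = 0) ∧ ∀ i j, X (Sum.inr j) (Sum.inl i) = 0}
  add_mem' hX hY := ⟨fun i j => by simp [hX.1 i j, hY.1 i j], fun i j => by simp [hX.2 i j, hY.2 i j]⟩
  zero_mem' := ⟨fun _ _ => rfl, fun _ _ => rfl⟩
  smul_mem' c X hX := ⟨fun i j => by simp [hX.1 i j], fun i j => by simp [hX.2 i j]⟩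

/-- The odd part of `gl(m|n)`: block off-diagonal matrices. -/
def oddM (m n : ℕ) : Submodule ℂ (gl m n) where
  carrier := {X | (∀ i j, X (Sum.inl i) (Sum.inl j) = 0) ∧ ∀ i j, X (Sum.inr i) (Sum.inr j) = 0}
  add_mem' hX hY := ⟨fun i j => by simp [hX.1 i j, hY.1 i j], fun i j => by simp [hX.2 i j, hY.2 i j]⟩
  zero_mem' := ⟨fun _ _ => rfl, fun _ _ => rfl⟩
  smul_mem' c X hX := ⟨fun i j => by simp [hX.1 i j], fun i j => by simp [hX.2 i j]⟩

/-- The even part `GL(m) × GL(n)` of the supergroup `GL(m|n)`. -/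
abbrev G0 (m n : ℕ) : Type := GL (Fin m) ℂ × GL (Fin n) ℂ

/-- An element of `GL(m) × GL(n)` as a block diagonal matrix. -/
def emb (g : G0 m n) : gl m n :=
  Matrix.fromBlocks (g.1 : Matrix (Fin m) (Fin m) ℂ) 0 0 (g.2 : Matrix (Fin n) (Fin n) ℂ)

/-- Polynomials in the matrix entries of `g` and of `g⁻¹`. -/
abbrev Reg (m n : ℕ) : Type :=
  MvPolynomial (((Fin m ⊕ Fin n) × (Fin m ⊕ Fin n)) ⊕ ((Fin m ⊕ Fin n) × (Fin m ⊕ Fin n))) ℂ

/-- The value `P(g, g⁻¹)`; these are the regular functions on `GL(m) × GL(n)`. -/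
noncomputable def rv (P : Reg m n) (g : G0 m n) : ℂ :=
  MvPolynomial.eval (Sum.elim (fun p => emb g p.1 p.2) (fun p => emb g⁻¹ p.1 p.2)) P

/-- The differential of the regular function `P` at `1` in direction `X`: the coefficient of `ε` in
`P(1 + ε X, 1 - ε X)`, where `ε² = 0`. -/
noncomputable def dv (P : Reg m n) (X : gl m n) : ℂ :=
  TrivSqZeroExt.snd (MvPolynomial.aeval (S₁ := DualNumber ℂ) (Sum.elim
    (fun p => TrivSqZeroExt.inl ((1 : gl m n) p.1 p.2) + TrivSqZeroExt.inr (X p.1 p.2))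
    (fun p => TrivSqZeroExt.inl ((1 : gl m n) p.1 p.2) - TrivSqZeroExt.inr (X p.1 p.2))) P)

/-- The structure of a `gl(m|n)`-supermodule on the vector space `V`: the parity involution `par`
(the grading: `V₀` and `V₁` are its eigenspaces for `1` and `-1`) and the action `a` of `gl(m|n)`. -/
structure LRep (m n : ℕ) (V : Type) [AddCommGroup V] [Module ℂ V] where
  /-- the parity involution -/
  par : V →ₗ[ℂ] V
  /-- the action of the Lie superalgebra -/
  a : gl m n →ₗ[ℂ] (V →ₗ[ℂ] V)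
  par_par : ∀ v, par (par v) = v
  par_even : ∀ X ∈ evenM m n, ∀ v, par (a X v) = a X (par v)
  par_odd : ∀ X ∈ oddM m n, ∀ v, par (a X v) = - a X (par v)
  lie_even : ∀ X ∈ evenM m n, ∀ Y v, a X (a Y v) - a Y (a X v) = a (X * Y - Y * X) v
  lie_odd : ∀ X ∈ oddM m n, ∀ Y ∈ oddM m n, ∀ v, a X (a Y v) + a Y (a X v) = a (X * Y + Y * X) v

/-- A `GL(m|n)`-module: a supermodule of the Harish-Chandra pair `(GL(m) × GL(n), gl(m|n))`, i.e.
a `gl(m|n)`-supermodule with a rational (hence locally finite) action `ρ` of `GL(m) × GL(n)` by even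
maps, whose differential is the action of the even part of `gl(m|n)`, and which is compatible with
the adjoint action.  Modules may be infinite dimensional. -/
structure SMod (m n : ℕ) where
  /-- the vector space -/
  V : Type
  [grp : AddCommGroup V]
  [mod : Module ℂ V]
  /-- the action of the Lie superalgebra -/
  L : LRep m n V
  /-- the action of the even part of the supergroup -/
  ρ : G0 m n → V →ₗ[ℂ] V
  ρ_one : ∀ v, ρ 1 v = v
  ρ_mul : ∀ g h v, ρ (g * h) v = ρ g (ρ h v)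
  par_ρ : ∀ g v, L.par (ρ g v) = ρ g (L.par v)
  ad : ∀ g X v, ρ g (L.a X v) = L.a (emb g * X * emb g⁻¹) (ρ g v)
  rat : ∀ v, ∃ (ι : Type) (_ : Fintype ι) (P : ι → Reg m n) (w : ι → V),
    (∀ g, ρ g v = ∑ i, rv (P i) g • w i) ∧ ∀ X ∈ evenM m n, L.a X v = ∑ i, dv (P i) X • w i

attribute [instance] SMod.grp SMod.mod

/-- `f` is a morphism of `GL(m|n)`-modules. -/
structure IsGLin (A B : SMod m n) (f : A.V →ₗ[ℂ] B.V) : Prop where
  par : ∀ v, f (A.L.par v) = B.L.par (f v)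
  ρ : ∀ g v, f (A.ρ g v) = B.ρ g (f v)
  a : ∀ X v, f (A.L.a X v) = B.L.a X (f v)

/-- The Lie algebra of the Zariski closed subgroup `H` of `GL(m) × GL(n)`. -/
def lieAlg (H : Subgroup (G0 m n)) : Set (gl m n) :=
  {X | X ∈ evenM m n ∧ ∀ P : Reg m n, (∀ g ∈ H, rv P g = 0) → dv P X = 0}

/-- A closed subgroup of the supergroup `GL(m|n)`, given by its Harish-Chandra pair: a Zariski closed
subgroup `H0` of `GL(m) × GL(n)` and a subspace `h1` of the odd part of `gl(m|n)`, stable under the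
adjoint action of `H0`, such that `[h1, h1]` is contained in the Lie algebra of `H0`. -/
@[ext] structure ClosedSub (m n : ℕ) where
  /-- the even part -/
  H0 : Subgroup (G0 m n)
  /-- the odd part of the Lie superalgebra -/
  h1 : Submodule ℂ (gl m n)
  closed : ∃ S : Set (Reg m n), ∀ g, g ∈ H0 ↔ ∀ P ∈ S, rv P g = 0
  odd : h1 ≤ oddM m n
  ad : ∀ g ∈ H0, ∀ X ∈ h1, emb g * X * emb g⁻¹ ∈ h1
  brk : ∀ X ∈ h1, ∀ Y ∈ h1, X * Y + Y * X ∈ lieAlg H0

/-- Inclusion of closed subgroups. -/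
def ClosedSub.Le (K D : ClosedSub m n) : Prop := K.H0 ≤ D.H0 ∧ K.h1 ≤ D.h1

/-- `f` is a morphism of `H`-modules between the restrictions of `A` and `B` to `H`. -/
structure IsLin (H : ClosedSub m n) (A B : SMod m n) (f : A.V →ₗ[ℂ] B.V) : Prop where
  par : ∀ v, f (A.L.par v) = B.L.par (f v)
  ρ : ∀ g ∈ H.H0, ∀ v, f (A.ρ g v) = B.ρ g (f v)
  a : ∀ X ∈ H.h1, ∀ v, f (A.L.a X v) = B.L.a X (f v)

/-- `I` with the evaluation `ev : I → M` is the induced module `Ind_H^G Res_H M`: `ev` is `H`-linear,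
and every `H`-linear map from a `G`-module `X` to `M` factors through `ev` by a unique `G`-linear
map from `X` to `I` (`Ind` is the right adjoint of the restriction functor). -/
structure IsInd (H : ClosedSub m n) (M I : SMod m n) (ev : I.V →ₗ[ℂ] M.V) : Prop where
  lin : IsLin H I M ev
  univ : ∀ (X : SMod m n) (r : X.V →ₗ[ℂ] M.V), IsLin H X M r →
    ∃! φ : X.V →ₗ[ℂ] I.V, IsGLin X I φ ∧ ∀ v, ev (φ v) = r v

/-- `M` is `H`-projective: `M` is a direct summand of `Ind_H^G Res_H M`. -/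
def HProj (H : ClosedSub m n) (M : SMod m n) : Prop :=
  ∃ (I : SMod m n) (ev : I.V →ₗ[ℂ] M.V), IsInd H M I ev ∧
    ∃ (i : M.V →ₗ[ℂ] I.V) (s : I.V →ₗ[ℂ] M.V), IsGLin M I i ∧ IsGLin I M s ∧ ∀ v, s (i v) = v

/-- `A` and `B` are isomorphic. -/
def Iso (A B : SMod m n) : Prop := ∃ (f : A.V →ₗ[ℂ] B.V) (g : B.V →ₗ[ℂ] A.V),
  IsGLin A B f ∧ IsGLin B A g ∧ (∀ v, g (f v) = v) ∧ ∀ v, f (g v) = v

/-- `A` is isomorphic to the direct sum of `B` and `C`. -/
def IsSum (A B C : SMod m n) : Prop :=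
  ∃ (i₁ : B.V →ₗ[ℂ] A.V) (i₂ : C.V →ₗ[ℂ] A.V) (p₁ : A.V →ₗ[ℂ] B.V) (p₂ : A.V →ₗ[ℂ] C.V),
    IsGLin B A i₁ ∧ IsGLin C A i₂ ∧ IsGLin A B p₁ ∧ IsGLin A C p₂ ∧
    (∀ v, p₁ (i₁ v) = v) ∧ (∀ v, p₂ (i₂ v) = v) ∧ ∀ v, i₁ (p₁ v) + i₂ (p₂ v) = v

/-- `A` is finite dimensional, that is, an object of `Rep GL(m|n)`. -/
def FinDim (A : SMod m n) : Prop := FiniteDimensional ℂ A.V

/-- The full subcategory `R` of `Rep GL(m|n)` is the direct sum of its full subcategories `P` and
`Q`: every object of `R` is the direct sum of an object of `P` and an object of `Q`, and there are no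
nonzero morphisms between objects of `P` and objects of `Q`, in either direction. -/
structure Splits (R P Q : SMod m n → Prop) : Prop where
  left : ∀ A, P A → R A
  right : ∀ A, Q A → R A
  iso_left : ∀ A B, Iso A B → P A → P B
  iso_right : ∀ A B, Iso A B → Q A → Q B
  sum : ∀ A, R A → ∃ B C, P B ∧ Q C ∧ IsSum A B C
  hom₁ : ∀ A B f, P A → Q B → IsGLin A B f → f = 0
  hom₂ : ∀ A B f, P A → Q B → IsGLin B A f → f = 0

/-- `P` is a block of `Rep GL(m|n)`: an indecomposable direct summand of this abelian category. -/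
structure IsBlock (P : SMod m n → Prop) : Prop where
  summand : ∃ Q, Splits FinDim P Q
  nonzero : ∃ A, P A ∧ Nontrivial A.V
  indec : ∀ P₁ P₂, Splits P P₁ P₂ →
    (∀ A, P₁ A → Subsingleton A.V) ∨ ∀ A, P₂ A → Subsingleton A.V

/-- `D` is a defect group of the block `P`: a closed subgroup, minimal with respect to inclusion
among those `H` such that every module in `P` is `H`-projective. -/
def IsDefect (P : SMod m n → Prop) (D : ClosedSub m n) : Prop :=
  (∀ A, P A → HProj D A) ∧ ∀ K : ClosedSub m n, K.Le D → (∀ A, P A → HProj K A) → K = D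

/-- `D` and `D'` are conjugate: `g D g⁻¹ = D'` for some `g ∈ GL(m|n)(ℂ) = GL(m) × GL(n)`. -/
def Conj (D D' : ClosedSub m n) : Prop := ∃ g : G0 m n,
  (∀ x, x ∈ D.H0 ↔ g * x * g⁻¹ ∈ D'.H0) ∧ ∀ X, X ∈ D.h1 ↔ emb g * X * emb g⁻¹ ∈ D'.h1

end Pool.Agent.SGp
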