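import Pool.Agent.SGp.Basic

/-!
# Matrix units and one-parameter subgroups of `GL(1|2)`
-/

namespace Pool.Agent.SGp

open Matrix

noncomputable section

/-- the even index -/
abbrev p0 : Fin 1 ⊕ Fin 2 := Sum.inl 0
/-- the first odd index -/
abbrev p1 : Fin 1 ⊕ Fin 2 := Sum.inr 0
/-- the second odd index -/
abbrev p2 : Fin 1 ⊕ Fin 2 := Sum.inr 1

/-- the matrix unit `E₀₀` -/
def h0 : gl 1 2 := Matrix.single p0 p0 1
/-- the matrix unit `E₁₁` -/
def h1 : gl 1 2 := Matrix.single p1 p1 1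
/-- the matrix unit `E₂₂` -/
def h2 : gl 1 2 := Matrix.single p2 p2 1
/-- the matrix unit `E₁₂` -/
def ee : gl 1 2 := Matrix.single p1 p2 1
/-- the matrix unit `E₂₁` -/
def ff : gl 1 2 := Matrix.single p2 p1 1
/-- the matrix unit `E₀₁` -/
def x1 : gl 1 2 := Matrix.single p0 p1 1
/-- the matrix unit `E₀₂` -/
def x2 : gl 1 2 := Matrix.single p0 p2 1
/-- the matrix unit `E₁₀` -/
def y1 : gl 1 2 := Matrix.single p1 p0 1
/-- the matrix unit `E₂₀` -/
def y2 : gl 1 2 := Matrix.single p2 p0 1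

/-- upper unipotent matrices -/
def uu (t : ℂ) : G0 1 2 :=
  (1, ⟨!![1, t; 0, 1], !![1, -t; 0, 1],
    by ext i j; fin_cases i <;> fin_cases j <;> simp,
    by ext i j; fin_cases i <;> fin_cases j <;> simp⟩)

/-- lower unipotent matrices -/
def ll (t : ℂ) : G0 1 2 :=
  (1, ⟨!![1, 0; t, 1], !![1, 0; -t, 1],
    by ext i j; fin_cases i <;> fin_cases j <;> simp,
    by ext i j; fin_cases i <;> fin_cases j <;> simp⟩)

/-- diagonal matrices, first entry -/
def d0 (t : ℂ) : G0 1 2 :=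
  (⟨!![Complex.exp t], !![Complex.exp (-t)],
    by ext i j; fin_cases i; fin_cases j; simp [← Complex.exp_add],
    by ext i j; fin_cases i; fin_cases j; simp [← Complex.exp_add]⟩, 1)

/-- diagonal matrices, second entry -/
def d1 (t : ℂ) : G0 1 2 :=
  (1, ⟨!![Complex.exp t, 0; 0, 1], !![Complex.exp (-t), 0; 0, 1],
    by ext i j; fin_cases i <;> fin_cases j <;> simp [← Complex.exp_add],
    by ext i j; fin_cases i <;> fin_cases j <;> simp [← Complex.exp_add]⟩)

/-- diagonal matrices, third entry -/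
def d2 (t : ℂ) : G0 1 2 :=
  (1, ⟨!![1, 0; 0, Complex.exp t], !![1, 0; 0, Complex.exp (-t)],
    by ext i j; fin_cases i <;> fin_cases j <;> simp [← Complex.exp_add],
    by ext i j; fin_cases i <;> fin_cases j <;> simp [← Complex.exp_add]⟩)

lemma h0_even : h0 ∈ evenM 1 2 := by constructor <;> intro i j <;> simp [h0, Matrix.single]
lemma h1_even : h1 ∈ evenM 1 2 := by constructor <;> intro i j <;> simp [h1, Matrix.single]
lemma h2_even : h2 ∈ evenM 1 2 := by constructor <;> intro i j <;> simp [h2, Matrix.single]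
lemma ee_even : ee ∈ evenM 1 2 := by constructor <;> intro i j <;> simp [ee, Matrix.single]
lemma ff_even : ff ∈ evenM 1 2 := by constructor <;> intro i j <;> simp [ff, Matrix.single]
lemma x1_odd : x1 ∈ oddM 1 2 := by constructor <;> intro i j <;> simp [x1, Matrix.single]
lemma x2_odd : x2 ∈ oddM 1 2 := by constructor <;> intro i j <;> simp [x2, Matrix.single]
lemma y1_odd : y1 ∈ oddM 1 2 := by constructor <;> intro i j <;> simp [y1, Matrix.single]
lemma y2_odd : y2 ∈ oddM 1 2 := by constructor <;> intro i j <;> simp [y2, Matrix.single]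

/-- every matrix is a combination of the nine matrix units -/
lemma gl_expand (X : gl 1 2) : X = X p0 p0 • h0 + X p1 p1 • h1 + X p2 p2 • h2 + X p1 p2 • ee
    + X p2 p1 • ff + X p0 p1 • x1 + X p0 p2 • x2 + X p1 p0 • y1 + X p2 p0 • y2 := by
  ext i j
  rcases i with i | i <;> rcases j with j | j <;> fin_cases i <;> fin_cases j <;>
    simp [h0, h1, h2, ee, ff, x1, x2, y1, y2, Matrix.single]

lemma even_expand (X : gl 1 2) (hX : X ∈ evenM 1 2) :
    X = X p0 p0 • h0 + X p1 p1 • h1 + X p2 p2 • h2 + X p1 p2 • ee + X p2 p1 • ff := by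
  conv_lhs => rw [gl_expand X]
  rw [hX.1 0 0, hX.1 0 1, hX.2 0 0, hX.2 0 1]
  simp

lemma odd_expand (X : gl 1 2) (hX : X ∈ oddM 1 2) :
    X = X p0 p1 • x1 + X p0 p2 • x2 + X p1 p0 • y1 + X p2 p0 • y2 := by
  conv_lhs => rw [gl_expand X]
  rw [hX.1 0 0, hX.2 0 0, hX.2 0 1, hX.2 1 0, hX.2 1 1]
  simp

section rels

variable {V : Type} [AddCommGroup V] [Module ℂ V] (R : LRep 1 2 V) (v : V)

/-- a relation for an even element -/
lemma relE (X Y Z : gl 1 2) (hX : X ∈ evenM 1 2) (h : X * Y - Y * X = Z) :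
    R.a X (R.a Y v) = R.a Y (R.a X v) + R.a Z v := by
  rw [← h, ← R.lie_even X hX Y v]; abel

/-- a relation for an even element -/
lemma relE' (X Y Z : gl 1 2) (hY : Y ∈ evenM 1 2) (h : X * Y - Y * X = Z) :
    R.a X (R.a Y v) = R.a Y (R.a X v) + R.a Z v := by
  have h2 : R.a Z v = - R.a (Y * X - X * Y) v := by
    rw [← h, ← LinearMap.neg_apply, ← map_neg, neg_sub]
  rw [h2, ← R.lie_even Y hY X v]; abel

/-- a relation for two odd elements -/
lemma relO (X Y Z : gl 1 2) (hX : X ∈ oddM 1 2) (hY : Y ∈ oddM 1 2) (h : X * Y + Y * X = Z) :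
    R.a X (R.a Y v) = - R.a Y (R.a X v) + R.a Z v := by
  rw [← h, ← R.lie_odd X hX Y hY v]; abel

end rels

end

end Pool.Agent.SGp
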