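import Pool.Agent.SGp.Curve
import Pool.Agent.SGp.One2

/-!
# Module Gen: the one-parameter subgroups of GL(1|2) and generation of its even part

Hints. `emb_uu` etc.: `ext i j; rcases i with i | i <;> rcases j with j | j <;> fin_cases i <;>
fin_cases j <;> simp [emb, uu, ee, Matrix.single]`. The inverse of `(1, ⟨A, B, _, _⟩)` has second
component with matrix `B`. Derivatives: entries are constants, `t`, `exp t`, `exp (-t)`.
`gen`: let `K` contain all the one-parameter subgroups. Every `(e, A)` is in `K`: `e` is `exp t`;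
if `A 0 0 ≠ 0` then `A = ll (c/a) * diag (a, d - bc/a) * uu (b/a)` (each nonzero diagonal entry is
an exponential, `Complex.exp_log`); if `A 0 0 = 0` then `A 1 0 ≠ 0` and `uu 1 * A` has nonzero upper
left entry. `glin_of_a`: `{g | ∀ v, r (ρ g v) = ρ g (r v)}` is a subgroup (for the inverse use
`ρ_mul`, `ρ_one`); use `ρ_lin_of_curve` for the five curves and `gen`.
-/

namespace Pool.Agent.SGp

open Matrix

lemma gen_ext {g h : G0 1 2} 
    (h1 : (g.1 : Matrix (Fin 1) (Fin 1) ℂ) 0 0 = (h.1 : Matrix (Fin 1) (Fin 1) ℂ) 0 0)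
    (h2 : ∀ i j, (g.2 : Matrix (Fin 2) (Fin 2) ℂ) i j =
      (h.2 : Matrix (Fin 2) (Fin 2) ℂ) i j) : g = h := by
  refine Prod.ext (Units.ext ?_) (Units.ext ?_)
  · ext i j
    fin_cases i
    fin_cases j
    exact h1
  · ext i j
    exact h2 i j

theorem uu_add (s t : ℂ) : uu (s + t) = uu s * uu t := by
  refine gen_ext (by simp [uu]) fun i j => ?_
  fin_cases i <;> fin_cases j <;> simp [uu, add_comm]

theorem ll_add (s t : ℂ) : ll (s + t) = ll s * ll t := by
  refine gen_ext (by simp [ll]) fun i j => ?_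
  fin_cases i <;> fin_cases j <;> simp [ll, add_comm]

theorem d0_add (s t : ℂ) : d0 (s + t) = d0 s * d0 t := by
  refine gen_ext (by simp [d0, Complex.exp_add, Matrix.mul_apply]) fun i j => ?_
  fin_cases i <;> fin_cases j <;> simp [d0]

theorem d1_add (s t : ℂ) : d1 (s + t) = d1 s * d1 t := by
  refine gen_ext (by simp [d1]) fun i j => ?_
  fin_cases i <;> fin_cases j <;> simp [d1, Complex.exp_add]

theorem d2_add (s t : ℂ) : d2 (s + t) = d2 s * d2 t := by
  refine gen_ext (by simp [d2]) fun i j => ?_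
  fin_cases i <;> fin_cases j <;> simp [d2, Complex.exp_add]

lemma gen_uu_inv (t : ℂ) : (uu t)⁻¹ = uu (-t) := by
  refine Prod.ext (by simp [uu]) (Units.ext rfl)

lemma gen_ll_inv (t : ℂ) : (ll t)⁻¹ = ll (-t) := by
  refine Prod.ext (by simp [ll]) (Units.ext rfl)

lemma gen_d0_inv (t : ℂ) : (d0 t)⁻¹ = d0 (-t) := by
  refine Prod.ext (Units.ext rfl) (by simp [d0])

lemma gen_d1_inv (t : ℂ) : (d1 t)⁻¹ = d1 (-t) := by
  refine Prod.ext (by simp [d1]) (Units.ext rfl)

lemma gen_d2_inv (t : ℂ) : (d2 t)⁻¹ = d2 (-t) := by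
  refine Prod.ext (by simp [d2]) (Units.ext rfl)

theorem emb_uu (t : ℂ) : emb (uu t) = 1 + t • ee := by
  ext i j
  rcases i with i | i <;> rcases j with j | j <;> fin_cases i <;> fin_cases j <;>
    simp [emb, uu, ee, Matrix.single]

theorem emb_uu_inv (t : ℂ) : emb (uu t)⁻¹ = 1 - t • ee := by
  rw [gen_uu_inv, emb_uu, neg_smul, sub_eq_add_neg]

theorem emb_ll (t : ℂ) : emb (ll t) = 1 + t • ff := by
  ext i j
  rcases i with i | i <;> rcases j with j | j <;> fin_cases i <;> fin_cases j <;>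
    simp [emb, ll, ff, Matrix.single]

theorem emb_ll_inv (t : ℂ) : emb (ll t)⁻¹ = 1 - t • ff := by
  rw [gen_ll_inv, emb_ll, neg_smul, sub_eq_add_neg]

lemma gen_emb_d0 (t : ℂ) : emb (d0 t) = 1 + (Complex.exp t - 1) • h0 := by
  ext i j
  rcases i with i | i <;> rcases j with j | j <;> fin_cases i <;> fin_cases j <;>
    simp [emb, d0, h0, Matrix.single]

lemma gen_emb_d1 (t : ℂ) : emb (d1 t) = 1 + (Complex.exp t - 1) • h1 := by
  ext i j
  rcases i with i | i <;> rcases j with j | j <;> fin_cases i <;> fin_cases j <;>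
    simp [emb, d1, h1, Matrix.single]

lemma gen_emb_d2 (t : ℂ) : emb (d2 t) = 1 + (Complex.exp t - 1) • h2 := by
  ext i j
  rcases i with i | i <;> rcases j with j | j <;> fin_cases i <;> fin_cases j <;>
    simp [emb, d2, h2, Matrix.single]

lemma gen_curve_lin {γ : ℂ → G0 1 2} {X : gl 1 2} (hX : X ∈ evenM 1 2)
    (h : ∀ t, emb (γ t) = 1 + t • X) (hi : ∀ t, emb (γ t)⁻¹ = 1 - t • X) : IsCurve γ X where
  zero := emb_injective (by rw [h, zero_smul, add_zero, emb_one])
  even := hX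
  der p q := by
    have e : (fun t => emb (γ t) p q) = fun t => (1 : gl 1 2) p q + t * X p q := by
      funext t
      rw [h]
      simp
    rw [e]
    simpa using ((hasDerivAt_id (0 : ℂ)).mul_const (X p q)).const_add ((1 : gl 1 2) p q)
  der_inv p q := by
    have e : (fun t => emb (γ t)⁻¹ p q) = fun t => (1 : gl 1 2) p q - t * X p q := by
      funext t
      rw [hi]
      simp
    rw [e]
    simpa using ((hasDerivAt_id (0 : ℂ)).mul_const (X p q)).const_sub ((1 : gl 1 2) p q)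

lemma gen_curve_exp {γ : ℂ → G0 1 2} {X : gl 1 2} (hX : X ∈ evenM 1 2)
    (h : ∀ t, emb (γ t) = 1 + (Complex.exp t - 1) • X) (hi : ∀ t, (γ t)⁻¹ = γ (-t)) :
    IsCurve γ X where
  zero := emb_injective (by rw [h, Complex.exp_zero, sub_self, zero_smul, add_zero, emb_one])
  even := hX
  der p q := by
    have e : (fun t => emb (γ t) p q) =
        fun t => (1 : gl 1 2) p q + (Complex.exp t - 1) * X p q := by
      funext t
      rw [h]
      simp
    rw [e]
    have h1 := ((((Complex.hasDerivAt_exp 0).sub_const 1)).mul_const (X p q)).const_add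
      ((1 : gl 1 2) p q)
    simpa using h1
  der_inv p q := by
    have e : (fun t => emb (γ t)⁻¹ p q) =
        fun t => (1 : gl 1 2) p q + (Complex.exp (-t) - 1) * X p q := by
      funext t
      rw [hi, h]
      simp
    rw [e]
    have h0 : HasDerivAt (fun t : ℂ => Complex.exp (-t)) (-1) 0 := by
      have := (hasDerivAt_neg (0 : ℂ)).cexp
      simpa using this
    have h1 := (((h0.sub_const 1)).mul_const (X p q)).const_add ((1 : gl 1 2) p q)
    simpa using h1

theorem isCurve_uu : IsCurve uu ee := gen_curve_lin ee_even emb_uu emb_uu_inv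
theorem isCurve_ll : IsCurve ll ff := gen_curve_lin ff_even emb_ll emb_ll_inv
theorem isCurve_d0 : IsCurve d0 h0 := gen_curve_exp h0_even gen_emb_d0 gen_d0_inv
theorem isCurve_d1 : IsCurve d1 h1 := gen_curve_exp h1_even gen_emb_d1 gen_d1_inv
theorem isCurve_d2 : IsCurve d2 h2 := gen_curve_exp h2_even gen_emb_d2 gen_d2_inv

theorem gen (K : Subgroup (G0 1 2)) (h1 : ∀ t, uu t ∈ K) (h2 : ∀ t, ll t ∈ K) (h3 : ∀ t, d0 t ∈ K)
    (h4 : ∀ t, d1 t ∈ K) (h5 : ∀ t, d2 t ∈ K) : K = ⊤ := by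
  -- matrices with nonzero upper left entry
  have key : ∀ g : G0 1 2, (g.2 : Matrix (Fin 2) (Fin 2) ℂ) 0 0 ≠ 0 → g ∈ K := by
    intro g ha
    have hdet : (g.2 : Matrix (Fin 2) (Fin 2) ℂ) 0 0 * (g.2 : Matrix (Fin 2) (Fin 2) ℂ) 1 1 -
        (g.2 : Matrix (Fin 2) (Fin 2) ℂ) 0 1 * (g.2 : Matrix (Fin 2) (Fin 2) ℂ) 1 0 ≠ 0 := by
      rw [← Matrix.det_fin_two]
      exact ((Matrix.isUnit_iff_isUnit_det _).1 g.2.isUnit).ne_zero
    have hdet1 : (g.1 : Matrix (Fin 1) (Fin 1) ℂ) 0 0 ≠ 0 := by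
      have := ((Matrix.isUnit_iff_isUnit_det _).1 g.1.isUnit).ne_zero
      rwa [Matrix.det_fin_one] at this
    generalize hA : (g.2 : Matrix (Fin 2) (Fin 2) ℂ) 0 0 = a at *
    generalize hB : (g.2 : Matrix (Fin 2) (Fin 2) ℂ) 0 1 = b at *
    generalize hC : (g.2 : Matrix (Fin 2) (Fin 2) ℂ) 1 0 = c at *
    generalize hD : (g.2 : Matrix (Fin 2) (Fin 2) ℂ) 1 1 = d at *
    have hδ : d - b * c / a ≠ 0 := by
      intro h
      apply hdet
      field_simp at h
      linear_combination h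
    have e : g = d0 (Complex.log ((g.1 : Matrix (Fin 1) (Fin 1) ℂ) 0 0)) * (ll (c / a) *
        (d1 (Complex.log a) * (d2 (Complex.log (d - b * c / a)) * uu (b / a)))) := by
      refine gen_ext ?_ fun i j => ?_
      · simp [d0, ll, d1, d2, uu, Complex.exp_log hdet1]
      · fin_cases i <;> fin_cases j <;>
          simp [d0, ll, d1, d2, uu, Complex.exp_log ha, Complex.exp_log hδ, hA, hB, hC, hD] <;>
          field_simp
        ring
    rw [e]
    exact K.mul_mem (h3 _) (K.mul_mem (h2 _) (K.mul_mem (h4 _) (K.mul_mem (h5 _) (h1 _))))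
  rw [eq_top_iff]
  intro g _
  by_cases ha : (g.2 : Matrix (Fin 2) (Fin 2) ℂ) 0 0 = 0
  · have hdet : (g.2 : Matrix (Fin 2) (Fin 2) ℂ) 0 0 * (g.2 : Matrix (Fin 2) (Fin 2) ℂ) 1 1 -
        (g.2 : Matrix (Fin 2) (Fin 2) ℂ) 0 1 * (g.2 : Matrix (Fin 2) (Fin 2) ℂ) 1 0 ≠ 0 := by
      rw [← Matrix.det_fin_two]
      exact ((Matrix.isUnit_iff_isUnit_det _).1 g.2.isUnit).ne_zero
    have hc : (g.2 : Matrix (Fin 2) (Fin 2) ℂ) 1 0 ≠ 0 := by
      intro h
      apply hdet
      rw [ha, h]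
      ring
    have h6 : uu 1 * g ∈ K := by
      refine key _ ?_
      have : ((uu 1 * g).2 : Matrix (Fin 2) (Fin 2) ℂ) 0 0 =
          (g.2 : Matrix (Fin 2) (Fin 2) ℂ) 0 0 + (g.2 : Matrix (Fin 2) (Fin 2) ℂ) 1 0 := by
        simp [uu, Matrix.mul_apply, Fin.sum_univ_two]
      rw [this, ha, zero_add]
      exact hc
    have := K.mul_mem (K.inv_mem (h1 1)) h6
    rwa [inv_mul_cancel_left] at this
  · exact key g ha

theorem glin_of_a (A B : SMod 1 2) (r : A.V →ₗ[ℂ] B.V) (hpar : ∀ v, r (A.L.par v) = B.L.par (r v))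
    (ha : ∀ X v, r (A.L.a X v) = B.L.a X (r v)) : IsGLin A B r := by
  let K : Subgroup (G0 1 2) :=
    { carrier := {g | ∀ v, r (A.ρ g v) = B.ρ g (r v)}
      one_mem' := fun v => by rw [A.ρ_one, B.ρ_one]
      mul_mem' := fun {g h} hg hh v => by
        rw [A.ρ_mul, B.ρ_mul, hg, hh]
      inv_mem' := fun {g} hg v => by
        have h1 : r (A.ρ g (A.ρ g⁻¹ v)) = r v := by
          rw [← A.ρ_mul, mul_inv_cancel, A.ρ_one]
        have h2 : B.ρ g (r (A.ρ g⁻¹ v)) = r v := by rw [← hg, h1]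
        rw [← h2, ← B.ρ_mul, inv_mul_cancel, B.ρ_one] }
  have hK : K = ⊤ := gen K
    (fun t v => ρ_lin_of_curve A B isCurve_uu uu_add r (ha ee) t v)
    (fun t v => ρ_lin_of_curve A B isCurve_ll ll_add r (ha ff) t v)
    (fun t v => ρ_lin_of_curve A B isCurve_d0 d0_add r (ha h0) t v)
    (fun t v => ρ_lin_of_curve A B isCurve_d1 d1_add r (ha h1) t v)
    (fun t v => ρ_lin_of_curve A B isCurve_d2 d2_add r (ha h2) t v)
  refine ⟨hpar, fun g v => ?_, ha⟩
  have hg : g ∈ K := by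
    rw [hK]
    exact Subgroup.mem_top g
  exact hg v

end Pool.Agent.SGp
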