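import Pool.Agent.SGp.Basic

/-!
# Module HomRep: the supermodule of linear maps; submodules; equivariant maps

`LRep.hom R S` is the supermodule `Hom(V, W)`: parity `φ ↦ par φ par`, even `X` acts by
`φ ↦ X φ - φ X`, odd `X` by `φ ↦ X φ - (par φ par) X`.

Hints. Write the even and the odd part of `X : gl m n` as `Matrix.fromBlocks X₁₁ 0 0 X₂₂` and
`Matrix.fromBlocks 0 X₁₂ X₂₁ 0` (linear maps `evp`, `odp`), and define the action of `X` by
`φ ↦ S.a X φ - φ R.a (evp X) - (par φ par) R.a (odp X)`. In `lie_even` the second element is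
arbitrary: treat even and odd parts separately (everything is linear).
-/

namespace Pool.Agent.SGp

open Matrix

variable {m n : ℕ}

section

variable {V W U : Type} [AddCommGroup V] [Module ℂ V] [AddCommGroup W] [Module ℂ W]
  [AddCommGroup U] [Module ℂ U]

/-- the even part of a matrix -/
noncomputable def evp : gl m n →ₗ[ℂ] gl m n where
  toFun X := Matrix.fromBlocks X.toBlocks₁₁ 0 0 X.toBlocks₂₂
  map_add' X Y := by
    ext i j; rcases i with i | i <;> rcases j with j | j <;> simp [Matrix.toBlocks₁₁, Matrix.toBlocks₂₂]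
  map_smul' c X := by
    ext i j; rcases i with i | i <;> rcases j with j | j <;> simp [Matrix.toBlocks₁₁, Matrix.toBlocks₂₂]

/-- the odd part of a matrix -/
noncomputable def odp : gl m n →ₗ[ℂ] gl m n where
  toFun X := Matrix.fromBlocks 0 X.toBlocks₁₂ X.toBlocks₂₁ 0
  map_add' X Y := by
    ext i j; rcases i with i | i <;> rcases j with j | j <;> simp [Matrix.toBlocks₁₂, Matrix.toBlocks₂₁]
  map_smul' c X := by
    ext i j; rcases i with i | i <;> rcases j with j | j <;> simp [Matrix.toBlocks₁₂, Matrix.toBlocks₂₁]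

/-- the action of a matrix on linear maps -/
noncomputable def homA (R : LRep m n V) (S : LRep m n W) :
    gl m n →ₗ[ℂ] ((V →ₗ[ℂ] W) →ₗ[ℂ] (V →ₗ[ℂ] W)) where
  toFun X :=
    { toFun := fun φ => S.a X ∘ₗ φ - φ ∘ₗ R.a (evp X) - (S.par ∘ₗ φ ∘ₗ R.par) ∘ₗ R.a (odp X)
      map_add' := fun φ ψ => by ext v; simp; abel
      map_smul' := fun c φ => by ext v; simp [smul_sub] }
  map_add' X Y := by ext φ v; simp; abel
  map_smul' c X := by ext φ v; simp [smul_sub]

/-! auxiliary facts -/

lemma HomRep_evp_mem (X : gl m n) : evp X ∈ evenM m n := by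
  constructor <;> intro i j <;> simp [evp]

lemma HomRep_odp_mem (X : gl m n) : odp X ∈ oddM m n := by
  constructor <;> intro i j <;> simp [odp]

lemma HomRep_add (X : gl m n) : evp X + odp X = X := by
  ext i j
  rcases i with i | i <;> rcases j with j | j <;>
    simp [evp, odp, Matrix.toBlocks₁₁, Matrix.toBlocks₂₂, Matrix.toBlocks₁₂, Matrix.toBlocks₂₁]

lemma HomRep_evp_even {X : gl m n} (hX : X ∈ evenM m n) : evp X = X := by
  ext i j
  rcases i with i | i <;> rcases j with j | j <;>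
    simp [evp, Matrix.toBlocks₁₁, Matrix.toBlocks₂₂, hX.1, hX.2]

lemma HomRep_odp_even {X : gl m n} (hX : X ∈ evenM m n) : odp X = 0 := by
  ext i j
  rcases i with i | i <;> rcases j with j | j <;>
    simp [odp, Matrix.toBlocks₁₂, Matrix.toBlocks₂₁, hX.1, hX.2]

lemma HomRep_evp_odd {X : gl m n} (hX : X ∈ oddM m n) : evp X = 0 := by
  ext i j
  rcases i with i | i <;> rcases j with j | j <;>
    simp [evp, Matrix.toBlocks₁₁, Matrix.toBlocks₂₂, hX.1, hX.2]

lemma HomRep_odp_odd {X : gl m n} (hX : X ∈ oddM m n) : odp X = X := by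
  ext i j
  rcases i with i | i <;> rcases j with j | j <;>
    simp [odp, Matrix.toBlocks₁₂, Matrix.toBlocks₂₁, hX.1, hX.2]

lemma HomRep_mul_ee {X Y : gl m n} (hX : X ∈ evenM m n) (hY : Y ∈ evenM m n) :
    X * Y ∈ evenM m n := by
  constructor <;> intro i j <;>
    simp [Matrix.mul_apply, Fintype.sum_sum_type, hX.1, hX.2, hY.1, hY.2]

lemma HomRep_mul_eo {X Y : gl m n} (hX : X ∈ evenM m n) (hY : Y ∈ oddM m n) :
    X * Y ∈ oddM m n := by
  constructor <;> intro i j <;>
    simp [Matrix.mul_apply, Fintype.sum_sum_type, hX.1, hX.2, hY.1, hY.2]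

lemma HomRep_mul_oe {X Y : gl m n} (hX : X ∈ oddM m n) (hY : Y ∈ evenM m n) :
    X * Y ∈ oddM m n := by
  constructor <;> intro i j <;>
    simp [Matrix.mul_apply, Fintype.sum_sum_type, hX.1, hX.2, hY.1, hY.2]

lemma HomRep_mul_oo {X Y : gl m n} (hX : X ∈ oddM m n) (hY : Y ∈ oddM m n) :
    X * Y ∈ evenM m n := by
  constructor <;> intro i j <;>
    simp [Matrix.mul_apply, Fintype.sum_sum_type, hX.1, hX.2, hY.1, hY.2]

lemma HomRep_apply (R : LRep m n V) (S : LRep m n W) (X : gl m n) (φ : V →ₗ[ℂ] W) (v : V) :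
    homA R S X φ v = S.a X (φ v) - φ (R.a (evp X) v) - S.par (φ (R.par (R.a (odp X) v))) := rfl

lemma HomRep_apply_even (R : LRep m n V) (S : LRep m n W) {X : gl m n} (hX : X ∈ evenM m n)
    (φ : V →ₗ[ℂ] W) (v : V) : homA R S X φ v = S.a X (φ v) - φ (R.a X v) := by
  rw [HomRep_apply, HomRep_evp_even hX, HomRep_odp_even hX]
  simp

lemma HomRep_apply_odd (R : LRep m n V) (S : LRep m n W) {X : gl m n} (hX : X ∈ oddM m n)
    (φ : V →ₗ[ℂ] W) (v : V) :
    homA R S X φ v = S.a X (φ v) - S.par (φ (R.par (R.a X v))) := by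
  rw [HomRep_apply, HomRep_evp_odd hX, HomRep_odp_odd hX]
  simp

lemma HomRep_lie_ee (R : LRep m n V) (S : LRep m n W) {X Y : gl m n} (hX : X ∈ evenM m n)
    (hY : Y ∈ evenM m n) (φ : V →ₗ[ℂ] W) :
    homA R S X (homA R S Y φ) - homA R S Y (homA R S X φ) = homA R S (X * Y - Y * X) φ := by
  ext v
  have hXY : X * Y - Y * X ∈ evenM m n :=
    Submodule.sub_mem _ (HomRep_mul_ee hX hY) (HomRep_mul_ee hY hX)
  rw [HomRep_apply_even R S hXY, ← S.lie_even X hX Y, ← R.lie_even X hX Y]
  simp only [LinearMap.sub_apply, HomRep_apply_even R S hX, HomRep_apply_even R S hY, map_sub]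
  abel

lemma HomRep_lie_eo (R : LRep m n V) (S : LRep m n W) {X Y : gl m n} (hX : X ∈ evenM m n)
    (hY : Y ∈ oddM m n) (φ : V →ₗ[ℂ] W) :
    homA R S X (homA R S Y φ) - homA R S Y (homA R S X φ) = homA R S (X * Y - Y * X) φ := by
  ext v
  have hXY : X * Y - Y * X ∈ oddM m n :=
    Submodule.sub_mem _ (HomRep_mul_eo hX hY) (HomRep_mul_oe hY hX)
  rw [LinearMap.sub_apply, HomRep_apply_even R S hX, HomRep_apply_odd R S hY,
    HomRep_apply_odd R S hY, HomRep_apply_odd R S hY, HomRep_apply_even R S hX,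
    HomRep_apply_even R S hX, HomRep_apply_odd R S hXY, ← S.lie_even X hX Y, ← R.lie_even X hX Y]
  simp only [map_sub]
  rw [S.par_even X hX, R.par_even X hX (R.a Y v)]
  abel

lemma HomRep_lie_oo (R : LRep m n V) (S : LRep m n W) {X Y : gl m n} (hX : X ∈ oddM m n)
    (hY : Y ∈ oddM m n) (φ : V →ₗ[ℂ] W) :
    homA R S X (homA R S Y φ) + homA R S Y (homA R S X φ) = homA R S (X * Y + Y * X) φ := by
  ext v
  have hXY : X * Y + Y * X ∈ evenM m n :=
    Submodule.add_mem _ (HomRep_mul_oo hX hY) (HomRep_mul_oo hY hX)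
  rw [LinearMap.add_apply, HomRep_apply_odd R S hX, HomRep_apply_odd R S hY,
    HomRep_apply_odd R S hY, HomRep_apply_odd R S hY, HomRep_apply_odd R S hX,
    HomRep_apply_odd R S hX, HomRep_apply_even R S hXY, ← S.lie_odd X hX Y hY,
    ← R.lie_odd X hX Y hY]
  simp only [map_sub, map_add]
  rw [S.par_odd X hX, S.par_odd Y hY, S.par_par, S.par_par, R.par_odd X hX, R.par_odd Y hY]
  simp only [map_neg, R.par_par, S.par_odd X hX, S.par_odd Y hY, R.par_odd X hX, R.par_odd Y hY]
  abel

/-- the supermodule of linear maps -/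
noncomputable def LRep.hom (R : LRep m n V) (S : LRep m n W) : LRep m n (V →ₗ[ℂ] W) where
  par := { toFun := fun φ => S.par ∘ₗ φ ∘ₗ R.par
           map_add' := fun φ ψ => by ext v; simp
           map_smul' := fun c φ => by ext v; simp }
  a := homA R S
  par_par := fun φ => by
    ext v
    show S.par (S.par (φ (R.par (R.par v)))) = φ v
    rw [S.par_par, R.par_par]
  par_even := fun X hX φ => by
    ext v
    show S.par (homA R S X φ (R.par v)) = homA R S X (S.par ∘ₗ φ ∘ₗ R.par) v
    rw [HomRep_apply_even R S hX, HomRep_apply_even R S hX, map_sub, S.par_even X hX,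
      ← R.par_even X hX]
    rfl
  par_odd := fun X hX φ => by
    ext v
    show S.par (homA R S X φ (R.par v)) = -(homA R S X (S.par ∘ₗ φ ∘ₗ R.par) v)
    rw [HomRep_apply_odd R S hX, HomRep_apply_odd R S hX, map_sub, S.par_odd X hX, S.par_par,
      R.par_odd X hX, R.par_par]
    simp [R.par_par, S.par_par]
    abel
  lie_even := fun X hX Y φ => by
    have h1 := HomRep_lie_ee R S hX (HomRep_evp_mem Y) φ
    have h2 := HomRep_lie_eo R S hX (HomRep_odp_mem Y) φ
    have e : X * Y - Y * X = (X * evp Y - evp Y * X) + (X * odp Y - odp Y * X) := by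
      conv_lhs => rw [← HomRep_add Y]
      rw [mul_add, add_mul]
      abel
    have e2 : ∀ ψ, homA R S Y ψ = homA R S (evp Y) ψ + homA R S (odp Y) ψ := by
      intro ψ
      conv_lhs => rw [← HomRep_add Y]
      rw [map_add, LinearMap.add_apply]
    rw [e, map_add (homA R S), LinearMap.add_apply, ← h1, ← h2, e2, e2, map_add]
    abel
  lie_odd := fun X hX Y hY φ => HomRep_lie_oo R S hX hY φ

theorem hom_par (R : LRep m n V) (S : LRep m n W) (φ : V →ₗ[ℂ] W) :
    (R.hom S).par φ = S.par ∘ₗ φ ∘ₗ R.par := rfl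

theorem hom_a_even (R : LRep m n V) (S : LRep m n W) (X : gl m n) (hX : X ∈ evenM m n)
    (φ : V →ₗ[ℂ] W) : (R.hom S).a X φ = S.a X ∘ₗ φ - φ ∘ₗ R.a X := by
  ext v
  exact HomRep_apply_even R S hX φ v

theorem hom_a_odd (R : LRep m n V) (S : LRep m n W) (X : gl m n) (hX : X ∈ oddM m n)
    (φ : V →ₗ[ℂ] W) :
    (R.hom S).a X φ = S.a X ∘ₗ φ - (S.par ∘ₗ φ ∘ₗ R.par) ∘ₗ R.a X := by
  ext v
  exact HomRep_apply_odd R S hX φ v

/-- `j` commutes with parity and action -/
structure Eqv (R : LRep m n V) (S : LRep m n W) (j : V →ₗ[ℂ] W) : Prop where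
  par : ∀ v, j (R.par v) = S.par (j v)
  a : ∀ X v, j (R.a X v) = S.a X (j v)

/-- composition with an equivariant map is equivariant -/
theorem precomp_eqv (R : LRep m n V) (S : LRep m n W) (T : LRep m n U) (j : V →ₗ[ℂ] W)
    (hj : Eqv R S j) : Eqv (S.hom T) (R.hom T) (LinearMap.lcomp ℂ U j) := by
  constructor
  · intro φ
    ext v
    show T.par (φ (S.par (j v))) = T.par (φ (j (R.par v)))
    rw [hj.par]
  · intro X φ
    ext v
    show homA S T X φ (j v) = homA R T X (φ ∘ₗ j) v
    rw [HomRep_apply, HomRep_apply, LinearMap.comp_apply, LinearMap.comp_apply,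
      LinearMap.comp_apply, hj.a, hj.par, hj.a]

lemma HomRep_inv (R : LRep m n V) (S : LRep m n W) (φ : V →ₗ[ℂ] W)
    (hp : (R.hom S).par φ = φ) (X : gl m n) (v : V) :
    (R.hom S).a X φ v = S.a X (φ v) - φ (R.a X v) := by
  have h1 : ∀ u, S.par (φ (R.par u)) = φ u := fun u => LinearMap.congr_fun hp u
  show homA R S X φ v = _
  rw [HomRep_apply, h1]
  conv_rhs => rw [← HomRep_add X]
  rw [map_add R.a, LinearMap.add_apply, map_add φ, HomRep_add]
  abel

/-- an even map killed by all matrices is equivariant -/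
theorem eqv_of_killed (R : LRep m n V) (S : LRep m n W) (φ : V →ₗ[ℂ] W)
    (hp : (R.hom S).par φ = φ) (ha : ∀ X, (R.hom S).a X φ = 0) : Eqv R S φ := by
  constructor
  · intro v
    have h1 : S.par (φ (R.par (R.par v))) = φ (R.par v) := LinearMap.congr_fun hp (R.par v)
    rw [R.par_par] at h1
    exact h1.symm
  · intro X v
    have h1 := HomRep_inv R S φ hp X v
    rw [ha X, LinearMap.zero_apply] at h1
    exact (sub_eq_zero.1 h1.symm).symm

/-- an equivariant map is even and killed by all matrices -/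
theorem killed_of_eqv (R : LRep m n V) (S : LRep m n W) (φ : V →ₗ[ℂ] W) (h : Eqv R S φ) :
    (R.hom S).par φ = φ ∧ ∀ X, (R.hom S).a X φ = 0 := by
  have hp : (R.hom S).par φ = φ := by
    ext v
    show S.par (φ (R.par v)) = φ v
    rw [h.par, S.par_par]
  refine ⟨hp, fun X => ?_⟩
  ext v
  rw [HomRep_inv R S φ hp X v, h.a, sub_self]
  rfl

/-- for an even map `φ`, being killed by a single matrix `X`, even or odd -/
theorem hom_a_zero_iff (R : LRep m n V) (S : LRep m n W) (φ : V →ₗ[ℂ] W)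
    (hp : (R.hom S).par φ = φ) (X : gl m n) (hX : X ∈ evenM m n ∨ X ∈ oddM m n) :
    (R.hom S).a X φ = 0 ↔ ∀ v, φ (R.a X v) = S.a X (φ v) := by
  constructor
  · intro h v
    have h1 := HomRep_inv R S φ hp X v
    rw [h, LinearMap.zero_apply] at h1
    exact (sub_eq_zero.1 h1.symm).symm
  · intro h
    ext v
    rw [HomRep_inv R S φ hp X v, h, sub_self]
    rfl

/-- nilpotent even elements act nilpotently on linear maps -/
theorem hom_nilp (R : LRep m n V) (S : LRep m n W) (X : gl m n) (hX : X ∈ evenM m n) (k l : ℕ)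
    (hR : (R.a X : Module.End ℂ V) ^ k = 0) (hS : (S.a X : Module.End ℂ W) ^ l = 0) :
    ((R.hom S).a X : Module.End ℂ (V →ₗ[ℂ] W)) ^ (k + l) = 0 := by
  set A : Module.End ℂ (V →ₗ[ℂ] W) :=
    { toFun := fun φ => S.a X ∘ₗ φ
      map_add' := fun φ ψ => by ext v; simp
      map_smul' := fun c φ => by ext v; simp } with hA
  set B : Module.End ℂ (V →ₗ[ℂ] W) :=
    { toFun := fun φ => -(φ ∘ₗ R.a X)
      map_add' := fun φ ψ => by ext v; simp; abel
      map_smul' := fun c φ => by ext v; simp } with hB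
  have hAB : ((R.hom S).a X : Module.End ℂ (V →ₗ[ℂ] W)) = A + B := by
    apply LinearMap.ext
    intro φ
    rw [hom_a_even R S X hX]
    show _ = S.a X ∘ₗ φ + -(φ ∘ₗ R.a X)
    rw [sub_eq_add_neg]
  have hcomm : Commute A B := by
    show A * B = B * A
    apply LinearMap.ext
    intro φ
    apply LinearMap.ext
    intro v
    show S.a X (-(φ (R.a X v))) = -(S.a X (φ (R.a X v)))
    rw [map_neg]
  have hApow : ∀ j : ℕ, ∀ (φ : V →ₗ[ℂ] W) (v : V),
      (A ^ j) φ v = ((S.a X : Module.End ℂ W) ^ j) (φ v) := by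
    intro j
    induction j with
    | zero => intro φ v; rfl
    | succ j ih =>
      intro φ v
      rw [pow_succ, pow_succ, Module.End.mul_apply, Module.End.mul_apply, ih]
      rfl
  have hBpow : ∀ j : ℕ, ∀ (φ : V →ₗ[ℂ] W) (v : V),
      (B ^ j) φ v = (-1 : ℂ) ^ j • φ (((R.a X : Module.End ℂ V) ^ j) v) := by
    intro j
    induction j with
    | zero => intro φ v; simp
    | succ j ih =>
      intro φ v
      rw [pow_succ, Module.End.mul_apply, ih, pow_succ, pow_succ' (R.a X : Module.End ℂ V),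
        Module.End.mul_apply]
      show (-1 : ℂ) ^ j • -(φ (R.a X (((R.a X : Module.End ℂ V) ^ j) v))) = _
      rw [mul_neg_one, neg_smul, smul_neg]
  have hA0 : A ^ l = 0 := by
    apply LinearMap.ext
    intro φ
    apply LinearMap.ext
    intro v
    rw [hApow, hS]
    rfl
  have hB0 : B ^ k = 0 := by
    apply LinearMap.ext
    intro φ
    apply LinearMap.ext
    intro v
    rw [hBpow, hR]
    simp
  rw [hAB]
  exact hcomm.add_pow_eq_zero_of_add_le_succ_of_pow_eq_zero hA0 hB0 (by omega)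

/-- the supermodule structure on a stable subspace -/
noncomputable def LRep.sub (R : LRep m n V) (Z : Submodule ℂ V) (hp : ∀ v ∈ Z, R.par v ∈ Z)
    (ha : ∀ X, ∀ v ∈ Z, R.a X v ∈ Z) : LRep m n Z where
  par := R.par.restrict hp
  a := { toFun := fun X => (R.a X).restrict (ha X)
         map_add' := fun X Y => by ext v; simp
         map_smul' := fun c X => by ext v; simp }
  par_par := fun v => Subtype.ext (R.par_par v)
  par_even := fun X hX v => Subtype.ext (R.par_even X hX v)
  par_odd := fun X hX v => Subtype.ext (R.par_odd X hX v)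
  lie_even := fun X hX Y v => Subtype.ext (R.lie_even X hX Y v)
  lie_odd := fun X hX Y hY v => Subtype.ext (R.lie_odd X hX Y hY v)

theorem sub_eqv (R : LRep m n V) (Z : Submodule ℂ V) (hp : ∀ v ∈ Z, R.par v ∈ Z)
    (ha : ∀ X, ∀ v ∈ Z, R.a X v ∈ Z) : Eqv (R.sub Z hp ha) R Z.subtype :=
  ⟨fun _ => rfl, fun _ _ => rfl⟩

end

end Pool.Agent.SGp
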