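import Pool.Agent.SGp.Basic

/-!
# Module Ind: the induced module exists

Letters: `G0 m n ⊕ gl m n ⊕ Unit` (group element, matrix, parity). For a module `X` a letter
`c` acts on `X.V` by `ρ g`, `L.a Y`, `L.par`; a word (list) `w` acts by the composition. For an
`H`-linear map `r : X.V → M.V` and `ξ : X.V` let `Φ X r ξ : List Letter → M.V` be
`w ↦ r (w ξ)`. The space of `I` is `{φ | ∃ X r ξ, IsLin H X M r ∧ φ = Φ X r ξ}`.
-/

namespace Pool.Agent.SGp

variable {m n : ℕ}

/-- the letters -/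
abbrev IndLet (m n : ℕ) : Type := G0 m n ⊕ (gl m n ⊕ Unit)

/-- the action of a letter -/
def indAct (X : SMod m n) : IndLet m n → X.V →ₗ[ℂ] X.V
  | Sum.inl g => X.ρ g
  | Sum.inr (Sum.inl Y) => X.L.a Y
  | Sum.inr (Sum.inr _) => X.L.par

/-- the action of a word -/
def indW (X : SMod m n) : List (IndLet m n) → X.V →ₗ[ℂ] X.V
  | [] => LinearMap.id
  | c :: w => (indAct X c).comp (indW X w)

theorem indW_append (X : SMod m n) (w : List (IndLet m n)) (c : IndLet m n) (ξ : X.V) :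
    indW X (w ++ [c]) ξ = indW X w (indAct X c ξ) := by
  induction w with
  | nil => rfl
  | cons d w ih =>
    show indAct X d (indW X (w ++ [c]) ξ) = indAct X d (indW X w (indAct X c ξ))
    rw [ih]

/-- the function attached to a vector -/
def indΦ (X M : SMod m n) (r : X.V →ₗ[ℂ] M.V) : X.V →ₗ[ℂ] (List (IndLet m n) → M.V) where
  toFun ξ := fun w => r (indW X w ξ)
  map_add' ξ ξ' := by
    funext w
    show r (indW X w (ξ + ξ')) = r (indW X w ξ) + r (indW X w ξ')
    rw [map_add, map_add]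
  map_smul' c ξ := by
    funext w
    show r (indW X w (c • ξ)) = c • r (indW X w ξ)
    rw [map_smul, map_smul]

theorem indΦ_apply (X M : SMod m n) (r : X.V →ₗ[ℂ] M.V) (ξ : X.V) (w : List (IndLet m n)) :
    indΦ X M r ξ w = r (indW X w ξ) := rfl

/-- the action of a letter on functions -/
def indT (M : SMod m n) (c : IndLet m n) :
    (List (IndLet m n) → M.V) →ₗ[ℂ] (List (IndLet m n) → M.V) where
  toFun φ := fun w => φ (w ++ [c])
  map_add' _ _ := rfl
  map_smul' _ _ := rfl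

theorem indT_Φ (X M : SMod m n) (r : X.V →ₗ[ℂ] M.V) (c : IndLet m n) (ξ : X.V) :
    indT M c (indΦ X M r ξ) = indΦ X M r (indAct X c ξ) := by
  funext w
  show r (indW X (w ++ [c]) ξ) = r (indW X w (indAct X c ξ))
  rw [indW_append]

theorem indW_dsum (X Y : SMod m n) (w : List (IndLet m n)) (ξ : X.V) (η : Y.V) :
    indW (dsum X Y) w (ξ, η) = (indW X w ξ, indW Y w η) := by
  induction w with
  | nil => rfl
  | cons c w ih =>
    show indAct (dsum X Y) c (indW (dsum X Y) w (ξ, η)) =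
      (indAct X c (indW X w ξ), indAct Y c (indW Y w η))
    rw [ih]
    rcases c with g | Z | u
    · rfl
    · rfl
    · rfl

/-- the space of the induced module -/
def indS (H : ClosedSub m n) (M : SMod m n) : Submodule ℂ (List (IndLet m n) → M.V) where
  carrier := {φ | ∃ (X : SMod m n) (r : X.V →ₗ[ℂ] M.V) (ξ : X.V),
    IsLin H X M r ∧ φ = indΦ X M r ξ}
  add_mem' := by
    rintro φ ψ ⟨X, r, ξ, hr, rfl⟩ ⟨Y, s, η, hs, rfl⟩
    refine ⟨dsum X Y, LinearMap.coprod r s, (ξ, η), ?_, ?_⟩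
    · refine ⟨?_, ?_, ?_⟩
      · rintro ⟨v, v'⟩
        show r (X.L.par v) + s (Y.L.par v') = M.L.par (r v + s v')
        rw [hr.par, hs.par, map_add]
      · rintro g hg ⟨v, v'⟩
        show r (X.ρ g v) + s (Y.ρ g v') = M.ρ g (r v + s v')
        rw [hr.ρ g hg, hs.ρ g hg, map_add]
      · rintro Z hZ ⟨v, v'⟩
        show r (X.L.a Z v) + s (Y.L.a Z v') = M.L.a Z (r v + s v')
        rw [hr.a Z hZ, hs.a Z hZ, map_add]
    · funext w
      rw [indΦ_apply, indW_dsum]
      rfl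
  zero_mem' := by
    refine ⟨M, LinearMap.id, 0, ⟨fun _ => rfl, fun _ _ _ => rfl, fun _ _ _ => rfl⟩, ?_⟩
    rw [map_zero]
  smul_mem' := by
    rintro c φ ⟨X, r, ξ, hr, rfl⟩
    refine ⟨X, r, c • ξ, hr, ?_⟩
    rw [map_smul]

theorem indT_mem (H : ClosedSub m n) (M : SMod m n) (c : IndLet m n)
    (φ : List (IndLet m n) → M.V) (hφ : φ ∈ indS H M) : indT M c φ ∈ indS H M := by
  obtain ⟨X, r, ξ, hr, rfl⟩ := hφ
  exact ⟨X, r, indAct X c ξ, hr, indT_Φ X M r c ξ⟩

/-- the action of a letter on the space of the induced module -/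
def indR (H : ClosedSub m n) (M : SMod m n) (c : IndLet m n) : indS H M →ₗ[ℂ] indS H M :=
  (indT M c).restrict (indT_mem H M c)

/-- a vector of the induced module coming from `X` -/
def indV (H : ClosedSub m n) (M X : SMod m n) (r : X.V →ₗ[ℂ] M.V) (hr : IsLin H X M r) :
    X.V →ₗ[ℂ] indS H M :=
  (indΦ X M r).codRestrict (indS H M) (fun ξ => ⟨X, r, ξ, hr, rfl⟩)

theorem indR_V (H : ClosedSub m n) (M X : SMod m n) (r : X.V →ₗ[ℂ] M.V) (hr : IsLin H X M r)
    (c : IndLet m n) (ξ : X.V) : indR H M c (indV H M X r hr ξ) =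
      indV H M X r hr (indAct X c ξ) :=
  Subtype.ext (indT_Φ X M r c ξ)

theorem indV_surj (H : ClosedSub m n) (M : SMod m n) (φ : indS H M) :
    ∃ (X : SMod m n) (r : X.V →ₗ[ℂ] M.V) (hr : IsLin H X M r) (ξ : X.V),
      φ = indV H M X r hr ξ := by
  obtain ⟨φ, X, r, ξ, hr, h⟩ := φ
  exact ⟨X, r, hr, ξ, Subtype.ext h⟩

/-- the action of the Lie superalgebra on the induced module -/
def indA (H : ClosedSub m n) (M : SMod m n) : gl m n →ₗ[ℂ] (indS H M →ₗ[ℂ] indS H M) where
  toFun Y := indR H M (Sum.inr (Sum.inl Y))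
  map_add' Y Z := by
    ext1 φ
    obtain ⟨X, r, hr, ξ, rfl⟩ := indV_surj H M φ
    rw [LinearMap.add_apply, indR_V, indR_V, indR_V, ← map_add]
    show indV H M X r hr (X.L.a (Y + Z) ξ) = indV H M X r hr (X.L.a Y ξ + X.L.a Z ξ)
    rw [map_add, LinearMap.add_apply]
  map_smul' c Y := by
    ext1 φ
    obtain ⟨X, r, hr, ξ, rfl⟩ := indV_surj H M φ
    rw [RingHom.id_apply, LinearMap.smul_apply, indR_V, indR_V, ← map_smul]
    show indV H M X r hr (X.L.a (c • Y) ξ) = indV H M X r hr (c • X.L.a Y ξ)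
    rw [map_smul, LinearMap.smul_apply]

theorem indA_V (H : ClosedSub m n) (M X : SMod m n) (r : X.V →ₗ[ℂ] M.V) (hr : IsLin H X M r)
    (Y : gl m n) (ξ : X.V) : indA H M Y (indV H M X r hr ξ) =
      indV H M X r hr (X.L.a Y ξ) := indR_V H M X r hr (Sum.inr (Sum.inl Y)) ξ

theorem indP_V (H : ClosedSub m n) (M X : SMod m n) (r : X.V →ₗ[ℂ] M.V) (hr : IsLin H X M r)
    (ξ : X.V) : indR H M (Sum.inr (Sum.inr ())) (indV H M X r hr ξ) =
      indV H M X r hr (X.L.par ξ) := indR_V H M X r hr (Sum.inr (Sum.inr ())) ξ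

theorem indG_V (H : ClosedSub m n) (M X : SMod m n) (r : X.V →ₗ[ℂ] M.V) (hr : IsLin H X M r)
    (g : G0 m n) (ξ : X.V) : indR H M (Sum.inl g) (indV H M X r hr ξ) =
      indV H M X r hr (X.ρ g ξ) := indR_V H M X r hr (Sum.inl g) ξ

/-- the Lie superalgebra part of the induced module -/
def indL (H : ClosedSub m n) (M : SMod m n) : LRep m n (indS H M) where
  par := indR H M (Sum.inr (Sum.inr ()))
  a := indA H M
  par_par φ := by
    obtain ⟨X, r, hr, ξ, rfl⟩ := indV_surj H M φ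
    rw [indP_V, indP_V, X.L.par_par]
  par_even Y hY φ := by
    obtain ⟨X, r, hr, ξ, rfl⟩ := indV_surj H M φ
    rw [indP_V, indA_V, indP_V, indA_V, X.L.par_even Y hY]
  par_odd Y hY φ := by
    obtain ⟨X, r, hr, ξ, rfl⟩ := indV_surj H M φ
    rw [indP_V, indA_V, indP_V, indA_V, X.L.par_odd Y hY, map_neg]
  lie_even Y hY Z φ := by
    obtain ⟨X, r, hr, ξ, rfl⟩ := indV_surj H M φ
    rw [indA_V, indA_V, indA_V, indA_V, indA_V, ← map_sub, X.L.lie_even Y hY Z]
  lie_odd Y hY Z hZ φ := by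
    obtain ⟨X, r, hr, ξ, rfl⟩ := indV_surj H M φ
    rw [indA_V, indA_V, indA_V, indA_V, indA_V, ← map_add, X.L.lie_odd Y hY Z hZ]

/-- the induced module -/
def indI (H : ClosedSub m n) (M : SMod m n) : SMod m n where
  V := indS H M
  L := indL H M
  ρ g := indR H M (Sum.inl g)
  ρ_one φ := by
    obtain ⟨X, r, hr, ξ, rfl⟩ := indV_surj H M φ
    rw [indG_V, X.ρ_one]
  ρ_mul g h φ := by
    obtain ⟨X, r, hr, ξ, rfl⟩ := indV_surj H M φ
    rw [indG_V, indG_V, indG_V, X.ρ_mul]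
  par_ρ g φ := by
    obtain ⟨X, r, hr, ξ, rfl⟩ := indV_surj H M φ
    show indR H M (Sum.inr (Sum.inr ())) (indR H M (Sum.inl g) (indV H M X r hr ξ)) =
      indR H M (Sum.inl g) (indR H M (Sum.inr (Sum.inr ())) (indV H M X r hr ξ))
    rw [indG_V, indP_V, indP_V, indG_V, X.par_ρ]
  ad g Y φ := by
    obtain ⟨X, r, hr, ξ, rfl⟩ := indV_surj H M φ
    show indR H M (Sum.inl g) (indA H M Y (indV H M X r hr ξ)) =
      indA H M (emb g * Y * emb g⁻¹) (indR H M (Sum.inl g) (indV H M X r hr ξ))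
    rw [indA_V, indG_V, indG_V, indA_V, X.ad]
  rat φ := by
    obtain ⟨X, r, hr, ξ, rfl⟩ := indV_surj H M φ
    obtain ⟨ι, hι, P, w, h1, h2⟩ := X.rat ξ
    refine ⟨ι, hι, P, fun i => indV H M X r hr (w i), ?_, ?_⟩
    · intro g
      rw [indG_V, h1 g, map_sum]
      exact Finset.sum_congr rfl fun i _ => map_smul _ _ _
    · intro Y hY
      show indA H M Y (indV H M X r hr ξ) = _
      rw [indA_V, h2 Y hY, map_sum]
      exact Finset.sum_congr rfl fun i _ => map_smul _ _ _

/-- the evaluation -/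
def indEv (H : ClosedSub m n) (M : SMod m n) : (indI H M).V →ₗ[ℂ] M.V :=
  (LinearMap.proj (R := ℂ) (φ := fun _ : List (IndLet m n) => M.V) []).comp
    (indS H M).subtype

theorem indEv_V (H : ClosedSub m n) (M X : SMod m n) (r : X.V →ₗ[ℂ] M.V) (hr : IsLin H X M r)
    (ξ : X.V) : indEv H M (indV H M X r hr ξ) = r ξ := rfl

theorem indI_act (H : ClosedSub m n) (M : SMod m n) (c : IndLet m n) (φ : (indI H M).V)
    (w : List (IndLet m n)) : (indAct (indI H M) c φ).1 w = φ.1 (w ++ [c]) := by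
  rcases c with g | Y | u
  · rfl
  · rfl
  · rfl

theorem indI_word (H : ClosedSub m n) (M : SMod m n) (w : List (IndLet m n))
    (φ : (indI H M).V) (w' : List (IndLet m n)) :
    (indW (indI H M) w φ).1 w' = φ.1 (w' ++ w) := by
  induction w generalizing w' with
  | nil =>
    rw [List.append_nil]
    rfl
  | cons c w ih =>
    show (indAct (indI H M) c (indW (indI H M) w φ)).1 w' = _
    rw [indI_act, ih, List.append_assoc]
    rfl

theorem ind_equiv_word (X Y : SMod m n) (f : X.V →ₗ[ℂ] Y.V) (hf : IsGLin X Y f)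
    (w : List (IndLet m n)) (v : X.V) : f (indW X w v) = indW Y w (f v) := by
  induction w with
  | nil => rfl
  | cons c w ih =>
    show f (indAct X c (indW X w v)) = indAct Y c (indW Y w (f v))
    rw [← ih]
    rcases c with g | Z | u
    · exact hf.ρ g _
    · exact hf.a Z _
    · exact hf.par _

theorem exists_ind (H : ClosedSub m n) (M : SMod m n) :
    ∃ (I : SMod m n) (ev : I.V →ₗ[ℂ] M.V), IsInd H M I ev := by
  refine ⟨indI H M, indEv H M, ⟨?_, ?_, ?_⟩, ?_⟩
  · intro φ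
    obtain ⟨X, r, hr, ξ, rfl⟩ := indV_surj H M φ
    show indEv H M (indR H M (Sum.inr (Sum.inr ())) (indV H M X r hr ξ)) = _
    rw [indP_V, indEv_V, indEv_V, hr.par]
  · intro g hg φ
    obtain ⟨X, r, hr, ξ, rfl⟩ := indV_surj H M φ
    show indEv H M (indR H M (Sum.inl g) (indV H M X r hr ξ)) = _
    rw [indG_V, indEv_V, indEv_V, hr.ρ g hg]
  · intro Y hY φ
    obtain ⟨X, r, hr, ξ, rfl⟩ := indV_surj H M φ
    show indEv H M (indA H M Y (indV H M X r hr ξ)) = _
    rw [indA_V, indEv_V, indEv_V, hr.a Y hY]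
  · intro X r hr
    refine ⟨indV H M X r hr, ⟨⟨?_, ?_, ?_⟩, fun v => indEv_V H M X r hr v⟩, ?_⟩
    · intro v
      exact (indP_V H M X r hr v).symm
    · intro g v
      exact (indG_V H M X r hr g v).symm
    · intro Y v
      exact (indA_V H M X r hr Y v).symm
    · rintro ψ ⟨hψ, hev⟩
      ext1 v
      apply Subtype.ext
      funext w
      have h1 := ind_equiv_word X (indI H M) ψ hψ w v
      have h2 := indI_word H M w (ψ v) []
      rw [← h1, List.nil_append] at h2
      have h3 : (ψ (indW X w v)).1 [] = r (indW X w v) := hev (indW X w v)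
      rw [h3] at h2
      exact h2.symm

end Pool.Agent.SGp
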