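import Pool.Agent.SGp.Rels
import Pool.Agent.SGp.HomRep

/-!
# Module KeyAlg: the averaging formula for GL(1|2) / (GL(1|1) × GL(1))

`sl_zero`: by induction `f (e^(k+1) θ) = - a_k e^k θ` with `a_0 = μ`, `a_(k+1) = a_k + μ + 2k + 2`
(from `e f w = f e w + h w` and `h (e^k θ) = (μ + 2k) e^k θ`); all `a_k ≠ 0`, so `e^(k+1) θ = 0`
implies `e^k θ = 0`; descend from `e^N θ = 0`.

`keyK`. Write `e f h = h1 - h2`, `x_i y_i`. Let `z = y2 x2 u + u`, `c_k = (-1)^k/(k! (k+1)!)`,
`W = ∑_{k<K} c_k f^k e^k z`, `K ≥ N`.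
(a) `h0 z = h1 z = h2 z = 0`.
(b) `h (e^k z) = 2k e^k z`, `e f^k e^k z = f^k e^(k+1) z + k (k+1) f^(k-1) e^k z`; so `e W = 0`
(telescoping, the last term has `e^K = 0`).
(c) `h0 W = h1 W = h2 W = 0` (each term has weight zero).
(d) `f W = 0`: put `φ = f W`; `e φ = f e W + h W = 0`, `h φ = -2 φ`; apply `sl_zero` to the swapped
triple `(f, e, -h)`, `θ = φ`, `μ = 2`.
(e) `x2 W = 0`: `x2 f^k = f^k x2 + k f^(k-1) x1`, `x1 f = f x1`. So
`x2 W = x2 z - (1/2) x1 e z + f (rest)`, where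
`rest = ∑_{1≤k<K} c_k f^(k-1) x2 e^k z + ∑_{2≤k<K} k c_k f^(k-2) x1 e^k z`, and
`x2 z = x2 u`, `x1 e z = 2 x2 u + f x2 e u`. Hence `x2 W = f θ` with
`θ = rest - (1/2) x2 e u`, `h θ = 3 θ`, and `e (f θ) = e x2 W = x2 e W = 0`; `sl_zero` with `μ = 3`
gives `θ = 0`, so `x2 W = 0`.
(The computation: `e z = y1 x2 u + y2 x2 e u + e u`; `x1 y1 x2 u = x2 u`; `x1 e u = x2 u`;
`x1 y2 x2 e u = f x2 e u`; `x2 y2 x2 u = 0`.)
(f) `y1 W = 0`: `y1 f^k = f^k y1 - k f^(k-1) y2`, `y2 f = f y2`;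
`y1 W = y1 z + (1/2) y2 e z + f (rest')`, and `y1 z = - y2 e u`, `y2 e z = 2 y2 e u`, so
`y1 W = f (rest')` with `h rest' = 3 rest'`, `e (f rest') = y1 e W = 0`: `sl_zero`.
(g) `x1 W = x2 f W - f x2 W = 0`, `y2 W = f y1 W - y1 f W = 0`; then `gl_expand`.
(All relations are in `Rels.lean`.)
`K = 0` is possible only if `N = 0`, then `E` is zero (`he : 1 = 0`).
-/

namespace Pool.Agent.SGp

open Matrix

section

variable {E E' : Type} [AddCommGroup E] [Module ℂ E] [AddCommGroup E'] [Module ℂ E']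

theorem sl_zero (e f h : Module.End ℂ E) (hef : ∀ v, e (f v) = f (e v) + h v)
    (hhe : ∀ v, h (e v) = e (h v) + (2 : ℂ) • e v) (N : ℕ) (hN : e ^ N = 0) (θ : E) (μ : ℕ)
    (hμ : 0 < μ) (hw : h θ = (μ : ℂ) • θ) (h0 : e (f θ) = 0) : θ = 0 := by
  have hs : ∀ k v, (e ^ (k + 1)) v = e ((e ^ k) v) := fun k v => by
    rw [pow_succ', Module.End.mul_apply]
  have hwt : ∀ k : ℕ, h ((e ^ k) θ) = ((μ : ℂ) + 2 * k) • (e ^ k) θ := by
    intro k
    induction k with
    | zero => simpa using hw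
    | succ k ih =>
      rw [hs, hhe, ih, map_smul, ← add_smul]
      congr 1
      push_cast
      ring
  have hfe : ∀ k : ℕ, f ((e ^ (k + 1)) θ) = -(((k + 1 : ℂ) * (μ + k)) • (e ^ k) θ) := by
    intro k
    induction k with
    | zero =>
      have h1 := hef θ
      rw [h0, hw] at h1
      have h2 : f (e θ) = -((μ : ℂ) • θ) := eq_neg_of_add_eq_zero_left h1.symm
      simpa using h2
    | succ k ih =>
      have h1 := hef ((e ^ (k + 1)) θ)
      rw [ih, map_neg, map_smul, ← hs, ← hs, hwt] at h1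
      have h2 : f ((e ^ (k + 1 + 1)) θ) = -(((k + 1 : ℂ) * (μ + k)) • (e ^ (k + 1)) θ)
          - ((μ : ℂ) + 2 * ((k + 1 : ℕ) : ℂ)) • (e ^ (k + 1)) θ := by
        rw [h1]; abel
      rw [h2, ← neg_smul, ← sub_smul, ← neg_smul]
      congr 1
      push_cast
      ring
  have hdesc : ∀ k : ℕ, (e ^ (k + 1)) θ = 0 → (e ^ k) θ = 0 := by
    intro k hk
    have h1 := hfe k
    rw [hk, map_zero] at h1
    have h2 := neg_eq_zero.1 h1.symm
    rcases smul_eq_zero.1 h2 with h3 | h3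
    · exfalso
      rcases mul_eq_zero.1 h3 with h4 | h4
      · have : ((k + 1 : ℕ) : ℂ) = 0 := by push_cast; exact h4
        exact absurd (Nat.cast_eq_zero.1 this) (by omega)
      · have : ((μ + k : ℕ) : ℂ) = 0 := by push_cast; exact h4
        exact absurd (Nat.cast_eq_zero.1 this) (by omega)
    · exact h3
  have hall : ∀ k : ℕ, (e ^ k) θ = 0 → θ = 0 := by
    intro k
    induction k with
    | zero => intro hk; simpa using hk
    | succ k ih => intro hk; exact ih (hdesc k hk)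
  exact hall N (by rw [hN]; rfl)

/-- the truncated average -/
noncomputable def W (R : LRep 1 2 E) (K : ℕ) (u : E) : E :=
  ∑ k ∈ Finset.range K, ((-1 : ℂ) ^ k / (k.factorial * (k + 1).factorial)) •
    ((R.a ff : Module.End ℂ E) ^ k) (((R.a ee : Module.End ℂ E) ^ k) (R.a y2 (R.a x2 u) + u))

section key

variable (R : LRep 1 2 E)

/-- powers of `ff` -/
noncomputable def kaF (k : ℕ) (v : E) : E := ((R.a ff : Module.End ℂ E) ^ k) v

/-- powers of `ee` -/
noncomputable def kaE (k : ℕ) (v : E) : E := ((R.a ee : Module.End ℂ E) ^ k) v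

/-- the coefficients -/
noncomputable def kaC (k : ℕ) : ℂ := (-1 : ℂ) ^ k / (k.factorial * (k + 1).factorial)

/-- the vector `z` -/
noncomputable def kaZ (u : E) : E := R.a y2 (R.a x2 u) + u

theorem ka_W (K : ℕ) (u : E) :
    W R K u = ∑ k ∈ Finset.range K, kaC k • kaF R k (kaE R k (kaZ R u)) := rfl

theorem ka_W_succ (K : ℕ) (u : E) :
    W R (K + 1) u = W R K u + kaC K • kaF R K (kaE R K (kaZ R u)) := by
  rw [ka_W, ka_W, Finset.sum_range_succ]

theorem kaF_zero (v : E) : kaF R 0 v = v := by simp [kaF]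

theorem kaE_zero (v : E) : kaE R 0 v = v := by simp [kaE]

theorem kaF_succ (k : ℕ) (v : E) : kaF R (k + 1) v = R.a ff (kaF R k v) := by
  unfold kaF
  rw [pow_succ', Module.End.mul_apply]

theorem kaE_succ (k : ℕ) (v : E) : kaE R (k + 1) v = R.a ee (kaE R k v) := by
  unfold kaE
  rw [pow_succ', Module.End.mul_apply]

theorem kaF_add (k : ℕ) (v w : E) : kaF R k (v + w) = kaF R k v + kaF R k w := map_add _ _ _

theorem kaF_map_zero (k : ℕ) : kaF R k 0 = 0 := map_zero _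

theorem kaC_zero : kaC 0 = 1 := by simp [kaC]

theorem kaC_one : kaC 1 = -(1 / 2) := by
  simp [kaC, Nat.factorial]
  norm_num

theorem kaC_succ (k : ℕ) : kaC (k + 1) * ((k + 1) * (k + 2)) = - kaC k := by
  unfold kaC
  have h1 : ((k.factorial : ℕ) : ℂ) ≠ 0 := Nat.cast_ne_zero.2 (Nat.factorial_ne_zero k)
  have h2 : (((k + 1).factorial : ℕ) : ℂ) ≠ 0 := Nat.cast_ne_zero.2 (Nat.factorial_ne_zero _)
  have h3 : (((k + 1 + 1).factorial : ℕ) : ℂ) = (k + 2) * ((k + 1).factorial : ℕ) := by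
    rw [Nat.factorial_succ (k + 1)]
    push_cast
    ring
  have h4 : (((k + 1).factorial : ℕ) : ℂ) = (k + 1) * (k.factorial : ℕ) := by
    rw [Nat.factorial_succ k]
    push_cast
    ring
  have h5 : ((k : ℂ) + 1) ≠ 0 := by
    have : ((k + 1 : ℕ) : ℂ) ≠ 0 := Nat.cast_ne_zero.2 (by omega)
    push_cast at this
    exact this
  have h6 : ((k : ℂ) + 2) ≠ 0 := by
    have : ((k + 2 : ℕ) : ℂ) ≠ 0 := Nat.cast_ne_zero.2 (by omega)
    push_cast at this
    exact this
  rw [h3, h4, pow_succ]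
  field_simp

/-- weight vectors -/
structure KaWt (v : E) (a b c : ℂ) : Prop where
  w0 : R.a h0 v = a • v
  w1 : R.a h1 v = b • v
  w2 : R.a h2 v = c • v

variable {R}

namespace KaWt

variable {v w : E} {a b c a' b' c' : ℂ}

theorem cast (h : KaWt R v a b c) (ha : a = a') (hb : b = b') (hc : c = c') :
    KaWt R v a' b' c' := by
  subst ha hb hc
  exact h

theorem add (h : KaWt R v a b c) (h' : KaWt R w a b c) : KaWt R (v + w) a b c :=
  ⟨by rw [map_add, h.w0, h'.w0, smul_add], by rw [map_add, h.w1, h'.w1, smul_add],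
    by rw [map_add, h.w2, h'.w2, smul_add]⟩

theorem smul (h : KaWt R v a b c) (t : ℂ) : KaWt R (t • v) a b c :=
  ⟨by rw [map_smul, h.w0, smul_comm], by rw [map_smul, h.w1, smul_comm],
    by rw [map_smul, h.w2, smul_comm]⟩

theorem zero : KaWt R (0 : E) a b c := ⟨by simp, by simp, by simp⟩

theorem ee (h : KaWt R v a b c) : KaWt R (R.a ee v) a (b + 1) (c - 1) :=
  ⟨by rw [r_h0_ee, h.w0, map_smul], by rw [r_h1_ee, h.w1, map_smul, add_smul, one_smul],
    by rw [r_h2_ee, h.w2, map_smul, sub_smul, one_smul]⟩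

theorem ff (h : KaWt R v a b c) : KaWt R (R.a ff v) a (b - 1) (c + 1) :=
  ⟨by rw [r_h0_ff, h.w0, map_smul], by rw [r_h1_ff, h.w1, map_smul, sub_smul, one_smul],
    by rw [r_h2_ff, h.w2, map_smul, add_smul, one_smul]⟩

theorem x1 (h : KaWt R v a b c) : KaWt R (R.a x1 v) (a + 1) (b - 1) c :=
  ⟨by rw [r_h0_x1, h.w0, map_smul, add_smul, one_smul],
    by rw [r_h1_x1, h.w1, map_smul, sub_smul, one_smul],
    by rw [r_h2_x1, h.w2, map_smul]⟩

theorem x2 (h : KaWt R v a b c) : KaWt R (R.a x2 v) (a + 1) b (c - 1) :=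
  ⟨by rw [r_h0_x2, h.w0, map_smul, add_smul, one_smul],
    by rw [r_h1_x2, h.w1, map_smul],
    by rw [r_h2_x2, h.w2, map_smul, sub_smul, one_smul]⟩

theorem y1 (h : KaWt R v a b c) : KaWt R (R.a y1 v) (a - 1) (b + 1) c :=
  ⟨by rw [r_h0_y1, h.w0, map_smul, sub_smul, one_smul],
    by rw [r_h1_y1, h.w1, map_smul, add_smul, one_smul],
    by rw [r_h2_y1, h.w2, map_smul]⟩

theorem y2 (h : KaWt R v a b c) : KaWt R (R.a y2 v) (a - 1) b (c + 1) :=
  ⟨by rw [r_h0_y2, h.w0, map_smul, sub_smul, one_smul],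
    by rw [r_h1_y2, h.w1, map_smul],
    by rw [r_h2_y2, h.w2, map_smul, add_smul, one_smul]⟩

theorem fK (h : KaWt R v a b c) (k : ℕ) : KaWt R (kaF R k v) a (b - k) (c + k) := by
  induction k with
  | zero => rw [kaF_zero]; exact h.cast rfl (by simp) (by simp)
  | succ k ih =>
    rw [kaF_succ]
    exact ih.ff.cast rfl (by push_cast; ring) (by push_cast; ring)

theorem eK (h : KaWt R v a b c) (k : ℕ) : KaWt R (kaE R k v) a (b + k) (c - k) := by
  induction k with
  | zero => rw [kaE_zero]; exact h.cast rfl (by simp) (by simp)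
  | succ k ih =>
    rw [kaE_succ]
    exact ih.ee.cast rfl (by push_cast; ring) (by push_cast; ring)

/-- the weight for `h = h1 - h2` -/
theorem hh (h : KaWt R v a b c) : R.a h1 v - R.a h2 v = (b - c) • v := by
  rw [h.w1, h.w2, sub_smul]

end KaWt

theorem ka_e_F {v : E} {a b c : ℂ} (h : KaWt R v a b c) (k : ℕ) :
    R.a ee (kaF R (k + 1) v) = kaF R (k + 1) (R.a ee v)
      + (((k : ℂ) + 1) * (b - c - k)) • kaF R k v := by
  induction k with
  | zero =>
    rw [kaF_succ, kaF_succ, kaF_zero, kaF_zero, r_ee_ff, add_sub_assoc, h.hh]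
    simp
  | succ k ih =>
    have h1 := (h.fK (k + 1)).hh
    rw [kaF_succ, r_ee_ff, ih, add_sub_assoc, h1, map_add, map_smul, ← kaF_succ, ← kaF_succ,
      add_assoc, ← add_smul]
    congr 2
    push_cast
    ring

theorem ka_x1_F (v : E) (k : ℕ) : R.a x1 (kaF R k v) = kaF R k (R.a x1 v) := by
  induction k with
  | zero => rw [kaF_zero, kaF_zero]
  | succ k ih => rw [kaF_succ, kaF_succ, r_x1_ff, ih]

theorem ka_y2_F (v : E) (k : ℕ) : R.a y2 (kaF R k v) = kaF R k (R.a y2 v) := by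
  induction k with
  | zero => rw [kaF_zero, kaF_zero]
  | succ k ih => rw [kaF_succ, kaF_succ, r_y2_ff, ih]

theorem ka_x2_F (v : E) (k : ℕ) :
    R.a x2 (kaF R (k + 1) v) = kaF R (k + 1) (R.a x2 v) + ((k : ℂ) + 1) • kaF R k (R.a x1 v) := by
  induction k with
  | zero =>
    rw [kaF_succ, kaF_succ, kaF_zero, kaF_zero, kaF_zero, r_x2_ff]
    simp
  | succ k ih =>
    rw [kaF_succ R (k + 1), r_x2_ff, ih, ka_x1_F, map_add, map_smul, ← kaF_succ, ← kaF_succ,
      add_assoc]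
    congr 1
    push_cast
    rw [add_smul, add_smul, add_smul, one_smul]

theorem ka_y1_F (v : E) (k : ℕ) :
    R.a y1 (kaF R (k + 1) v) = kaF R (k + 1) (R.a y1 v) - ((k : ℂ) + 1) • kaF R k (R.a y2 v) := by
  induction k with
  | zero =>
    rw [kaF_succ, kaF_succ, kaF_zero, kaF_zero, kaF_zero, r_y1_ff]
    simp
  | succ k ih =>
    rw [kaF_succ R (k + 1), r_y1_ff, ih, ka_y2_F, map_sub, map_smul, ← kaF_succ, ← kaF_succ,
      sub_sub]
    congr 1
    push_cast
    rw [add_smul, add_smul, add_smul, one_smul]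

theorem ka_Z_wt {u : E} (hu : KaWt R u 0 0 0) : KaWt R (kaZ R u) 0 0 0 :=
  (hu.x2.y2.cast (by ring) (by ring) (by ring)).add hu

theorem ka_E_wt {u : E} (hu : KaWt R u 0 0 0) (k : ℕ) :
    KaWt R (kaE R k (kaZ R u)) 0 k (-k) :=
  ((ka_Z_wt hu).eK k).cast rfl (by ring) (by ring)

theorem ka_W_wt {u : E} (hu : KaWt R u 0 0 0) (K : ℕ) : KaWt R (W R K u) 0 0 0 := by
  induction K with
  | zero =>
    rw [ka_W, Finset.range_zero, Finset.sum_empty]
    exact KaWt.zero
  | succ K ih =>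
    rw [ka_W_succ]
    exact ih.add ((((ka_E_wt hu K).fK K).cast rfl (by ring) (by ring)).smul _)

theorem ka_e_W {u : E} (hu : KaWt R u 0 0 0) (K : ℕ) :
    R.a ee (W R (K + 1) u) = kaC K • kaF R K (kaE R (K + 1) (kaZ R u)) := by
  induction K with
  | zero =>
    rw [ka_W_succ, ka_W, Finset.range_zero, Finset.sum_empty, zero_add, map_smul, kaF_zero,
      kaF_zero, kaE_succ]
  | succ K ih =>
    rw [ka_W_succ, map_add, ih, map_smul, ka_e_F (ka_E_wt hu (K + 1)), ← kaE_succ, smul_add,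
      smul_smul]
    have h1 : kaC (K + 1) * (((K : ℂ) + 1) * (((K + 1 : ℕ) : ℂ) - -((K + 1 : ℕ) : ℂ) - K))
        = - kaC K := by
      rw [← kaC_succ K]
      push_cast
      ring
    rw [h1, neg_smul]
    abel

theorem ka_E_eq_zero {N : ℕ} (he : (R.a ee : Module.End ℂ E) ^ N = 0) {k : ℕ} (hk : N ≤ k)
    (v : E) : kaE R k v = 0 := by
  unfold kaE
  rw [pow_eq_zero_of_le hk he]
  rfl

/-- the computation of `x1 e z` -/
theorem ka_x1_e_z {u : E} (hu : KaWt R u 0 0 0) (ux : R.a x1 u = 0) :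
    R.a x1 (R.a ee (kaZ R u)) = (2 : ℂ) • R.a x2 u + R.a ff (R.a x2 (R.a ee u)) := by
  have h0u : R.a h0 u = 0 := by rw [hu.w0, zero_smul]
  have h1u : R.a h1 u = 0 := by rw [hu.w1, zero_smul]
  have hz : R.a ee (kaZ R u) = R.a y2 (R.a x2 (R.a ee u)) + R.a y1 (R.a x2 u) + R.a ee u := by
    unfold kaZ
    rw [map_add, r_ee_y2, r_ee_x2]
  have ha : R.a x1 (R.a y2 (R.a x2 (R.a ee u))) = R.a ff (R.a x2 (R.a ee u)) := by
    rw [r_x1_y2, r_x1_x2, r_x1_ee, ux, map_zero, zero_add, r_x2_x2, neg_zero, map_zero, neg_zero,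
      zero_add]
  have hb : R.a x1 (R.a y1 (R.a x2 u)) = R.a x2 u := by
    rw [r_x1_y1, r_x1_x2, ux, map_zero, neg_zero, map_zero, neg_zero, zero_add, r_h0_x2, r_h1_x2,
      h0u, h1u, map_zero, zero_add, add_zero]
  have hc : R.a x1 (R.a ee u) = R.a x2 u := by
    rw [r_x1_ee, ux, map_zero, zero_add]
  rw [hz, map_add, map_add, ha, hb, hc, two_smul]
  abel

theorem ka_x2_z {u : E} (hu : KaWt R u 0 0 0) : R.a x2 (kaZ R u) = R.a x2 u := by
  have h0u : R.a h0 u = 0 := by rw [hu.w0, zero_smul]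
  have h2u : R.a h2 u = 0 := by rw [hu.w2, zero_smul]
  unfold kaZ
  rw [map_add, r_x2_y2, r_x2_x2, map_zero, neg_zero, zero_add, r_h0_x2, r_h2_x2, h0u, h2u,
    map_zero]
  abel

theorem ka_y1_x2 {u : E} (uy : R.a y1 u = 0) : R.a y1 (R.a x2 u) = R.a ee u := by
  rw [r_y1_x2, uy, map_zero, neg_zero, zero_add]

theorem ka_y1_z {u : E} (uy : R.a y1 u = 0) : R.a y1 (kaZ R u) = - R.a y2 (R.a ee u) := by
  unfold kaZ
  rw [map_add, uy, add_zero, r_y1_y2, ka_y1_x2 uy]

theorem ka_y2_e_z {u : E} (uy : R.a y1 u = 0) :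
    R.a y2 (R.a ee (kaZ R u)) = (2 : ℂ) • R.a y2 (R.a ee u) := by
  unfold kaZ
  rw [map_add, r_ee_y2, map_add, map_add, r_y2_y2, ka_y1_x2 uy, zero_add, two_smul]

theorem ka_x2_W {u : E} (hu : KaWt R u 0 0 0) (ux : R.a x1 u = 0) (K : ℕ) :
    ∃ θ, R.a x2 (W R (K + 2) u) = R.a ff θ ∧ KaWt R θ 1 1 (-2) := by
  induction K with
  | zero =>
    refine ⟨-(1 / 2 : ℂ) • (R.a x2 (R.a ee (kaZ R u)) + R.a x2 (R.a ee u)), ?_, ?_⟩
    · rw [ka_W_succ, ka_W_succ, ka_W, Finset.range_zero, Finset.sum_empty, zero_add, kaC_zero,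
        kaC_one, one_smul, kaF_zero, kaE_zero, map_add, ka_x2_z hu, map_smul, kaF_succ, kaF_zero,
        kaE_succ, kaE_zero, r_x2_ff, ka_x1_e_z hu ux, map_smul, map_add]
      module
    · refine (KaWt.add ?_ ?_).smul _
      · exact (ka_Z_wt hu).ee.x2.cast (by ring) (by ring) (by ring)
      · exact hu.ee.x2.cast (by ring) (by ring) (by ring)
  | succ K ih =>
    obtain ⟨θ, h1, h2⟩ := ih
    refine ⟨θ + kaC (K + 2) • (kaF R (K + 1) (R.a x2 (kaE R (K + 2) (kaZ R u)))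
      + (((K + 1 : ℕ) : ℂ) + 1) • kaF R K (R.a x1 (kaE R (K + 2) (kaZ R u)))), ?_, ?_⟩
    · rw [ka_W_succ, map_add, h1, map_smul, ka_x2_F]
      simp only [kaF_succ, map_add, map_smul]
    · refine h2.add ((KaWt.add ?_ (KaWt.smul ?_ _)).smul _)
      · exact ((ka_E_wt hu (K + 2)).x2.fK (K + 1)).cast (by push_cast; ring) (by push_cast; ring)
          (by push_cast; ring)
      · exact ((ka_E_wt hu (K + 2)).x1.fK K).cast (by push_cast; ring) (by push_cast; ring)
          (by push_cast; ring)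

theorem ka_y1_W {u : E} (hu : KaWt R u 0 0 0) (uy : R.a y1 u = 0) (K : ℕ) :
    ∃ θ, R.a y1 (W R (K + 2) u) = R.a ff θ ∧ KaWt R θ (-1) 2 (-1) := by
  induction K with
  | zero =>
    refine ⟨-(1 / 2 : ℂ) • R.a y1 (R.a ee (kaZ R u)), ?_, ?_⟩
    · rw [ka_W_succ, ka_W_succ, ka_W, Finset.range_zero, Finset.sum_empty, zero_add, kaC_zero,
        kaC_one, one_smul, kaF_zero, kaE_zero, map_add, ka_y1_z uy, map_smul, kaF_succ, kaF_zero,
        kaE_succ, kaE_zero, r_y1_ff, ka_y2_e_z uy, map_smul]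
      module
    · exact ((ka_Z_wt hu).ee.y1.cast (by ring) (by ring) (by ring)).smul _
  | succ K ih =>
    obtain ⟨θ, h1, h2⟩ := ih
    refine ⟨θ + kaC (K + 2) • (kaF R (K + 1) (R.a y1 (kaE R (K + 2) (kaZ R u)))
      - (((K + 1 : ℕ) : ℂ) + 1) • kaF R K (R.a y2 (kaE R (K + 2) (kaZ R u)))), ?_, ?_⟩
    · rw [ka_W_succ, map_add, h1, map_smul, ka_y1_F]
      simp only [kaF_succ, map_add, map_sub, map_smul]
    · rw [sub_eq_add_neg, ← neg_smul]
      refine h2.add ((KaWt.add ?_ (KaWt.smul ?_ _)).smul _)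
      · exact ((ka_E_wt hu (K + 2)).y1.fK (K + 1)).cast (by push_cast; ring) (by push_cast; ring)
          (by push_cast; ring)
      · exact ((ka_E_wt hu (K + 2)).y2.fK K).cast (by push_cast; ring) (by push_cast; ring)
          (by push_cast; ring)

end key

theorem W_const (R : LRep 1 2 E) (N : ℕ) (he : (R.a ee : Module.End ℂ E) ^ N = 0) (u : E) (K : ℕ)
    (hK : N ≤ K) : W R K u = W R N u := by
  induction K, hK using Nat.le_induction with
  | base => rfl
  | succ K hK ih =>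
    rw [ka_W_succ, ih, ka_E_eq_zero he hK, kaF_map_zero, smul_zero, add_zero]

theorem keyK (R : LRep 1 2 E) (N : ℕ) (he : (R.a ee : Module.End ℂ E) ^ N = 0)
    (hf : (R.a ff : Module.End ℂ E) ^ N = 0) (u : E) (u0 : R.a h0 u = 0) (u1 : R.a h1 u = 0)
    (u2 : R.a h2 u = 0) (ux : R.a x1 u = 0) (uy : R.a y1 u = 0) (K : ℕ) (hK : N ≤ K) (Y : gl 1 2) :
    R.a Y (W R K u) = 0 := by
  have hu : KaWt R u 0 0 0 := ⟨by rw [u0, zero_smul], by rw [u1, zero_smul], by rw [u2, zero_smul]⟩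
  rw [W_const R N he u K hK, ← W_const R N he u (N + 2) (by omega)]
  set w := W R (N + 2) u with hw
  have hW : KaWt R w 0 0 0 := ka_W_wt hu _
  have h0w : R.a h0 w = 0 := by rw [hW.w0, zero_smul]
  have h1w : R.a h1 w = 0 := by rw [hW.w1, zero_smul]
  have h2w : R.a h2 w = 0 := by rw [hW.w2, zero_smul]
  have hew : R.a ee w = 0 := by
    rw [hw, ka_e_W hu, ka_E_eq_zero he (by omega), kaF_map_zero, smul_zero]
  -- the relations in the form of `sl_zero`
  have hef : ∀ v, (R.a ee : Module.End ℂ E) ((R.a ff : Module.End ℂ E) v)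
      = (R.a ff : Module.End ℂ E) ((R.a ee : Module.End ℂ E) v)
        + ((R.a h1 - R.a h2 : Module.End ℂ E)) v := by
    intro v
    rw [r_ee_ff, LinearMap.sub_apply]
    abel
  have hhe : ∀ v, ((R.a h1 - R.a h2 : Module.End ℂ E)) ((R.a ee : Module.End ℂ E) v)
      = (R.a ee : Module.End ℂ E) (((R.a h1 - R.a h2 : Module.End ℂ E)) v)
        + (2 : ℂ) • (R.a ee : Module.End ℂ E) v := by
    intro v
    rw [LinearMap.sub_apply, LinearMap.sub_apply, r_h1_ee, r_h2_ee, map_sub, two_smul]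
    abel
  have hfe : ∀ v, (R.a ff : Module.End ℂ E) ((R.a ee : Module.End ℂ E) v)
      = (R.a ee : Module.End ℂ E) ((R.a ff : Module.End ℂ E) v)
        + ((R.a h2 - R.a h1 : Module.End ℂ E)) v := by
    intro v
    rw [r_ff_ee, LinearMap.sub_apply]
    abel
  have hhf : ∀ v, ((R.a h2 - R.a h1 : Module.End ℂ E)) ((R.a ff : Module.End ℂ E) v)
      = (R.a ff : Module.End ℂ E) (((R.a h2 - R.a h1 : Module.End ℂ E)) v)
        + (2 : ℂ) • (R.a ff : Module.End ℂ E) v := by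
    intro v
    rw [LinearMap.sub_apply, LinearMap.sub_apply, r_h1_ff, r_h2_ff, map_sub, two_smul]
    abel
  have hfw : R.a ff w = 0 := by
    refine sl_zero (R.a ff) (R.a ee) (R.a h2 - R.a h1) hfe hhf N hf (R.a ff w) 2 (by norm_num) ?_ ?_
    · have h3 := hW.ff
      rw [LinearMap.sub_apply, h3.w1, h3.w2, ← sub_smul]
      congr 1
      norm_num
    · have h3 : R.a ee (R.a ff w) = 0 := by
        rw [r_ee_ff, hew, h1w, h2w]
        simp
      rw [h3, map_zero]
  have hx2 : R.a x2 w = 0 := by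
    obtain ⟨θ, h3, h4⟩ := ka_x2_W hu ux N
    have h5 : θ = 0 := by
      refine sl_zero (R.a ee) (R.a ff) (R.a h1 - R.a h2) hef hhe N he θ 3 (by norm_num) ?_ ?_
      · rw [LinearMap.sub_apply, h4.w1, h4.w2, ← sub_smul]
        congr 1
        norm_num
      · rw [← h3, r_ee_x2, ← hw, hew, map_zero]
    rw [hw, h3, h5, map_zero]
  have hy1 : R.a y1 w = 0 := by
    obtain ⟨θ, h3, h4⟩ := ka_y1_W hu uy N
    have h5 : θ = 0 := by
      refine sl_zero (R.a ee) (R.a ff) (R.a h1 - R.a h2) hef hhe N he θ 3 (by norm_num) ?_ ?_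
      · rw [LinearMap.sub_apply, h4.w1, h4.w2, ← sub_smul]
        congr 1
        norm_num
      · rw [← h3, r_ee_y1, ← hw, hew, map_zero]
    rw [hw, h3, h5, map_zero]
  have hx1 : R.a x1 w = 0 := by
    have h3 := r_x2_ff R w
    rw [hfw, hx2, map_zero, map_zero, zero_add] at h3
    exact h3.symm
  have hy2 : R.a y2 w = 0 := by
    have h3 := r_ff_y1 R w
    rw [hfw, hy1, map_zero, map_zero, zero_add] at h3
    exact h3.symm
  rw [gl_expand Y]
  simp only [map_add, map_smul, LinearMap.add_apply, LinearMap.smul_apply, h0w, h1w, h2w, hew, hfw,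
    hx1, hx2, hy1, hy2, smul_zero, add_zero]

theorem W_par (R : LRep 1 2 E) (K : ℕ) (u : E) (hu : R.par u = u) : R.par (W R K u) = W R K u := by
  have hE : ∀ k v, R.par (kaE R k v) = kaE R k (R.par v) := by
    intro k v
    induction k with
    | zero => rw [kaE_zero, kaE_zero]
    | succ k ih => rw [kaE_succ, kaE_succ, R.par_even _ ee_even, ih]
  have hF : ∀ k v, R.par (kaF R k v) = kaF R k (R.par v) := by
    intro k v
    induction k with
    | zero => rw [kaF_zero, kaF_zero]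
    | succ k ih => rw [kaF_succ, kaF_succ, R.par_even _ ff_even, ih]
  have hz : R.par (kaZ R u) = kaZ R u := by
    unfold kaZ
    rw [map_add, hu, R.par_odd _ y2_odd, R.par_odd _ x2_odd, hu, map_neg, neg_neg]
  induction K with
  | zero => rw [ka_W, Finset.range_zero, Finset.sum_empty, map_zero]
  | succ K ih => rw [ka_W_succ, map_add, ih, map_smul, hF, hE, hz]

theorem W_map (R : LRep 1 2 E) (S : LRep 1 2 E') (j : E →ₗ[ℂ] E') (hj : Eqv R S j) (K : ℕ) (u : E) :
    j (W R K u) = W S K (j u) := by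
  have hE : ∀ k v, j (kaE R k v) = kaE S k (j v) := by
    intro k v
    induction k with
    | zero => rw [kaE_zero, kaE_zero]
    | succ k ih => rw [kaE_succ, kaE_succ, hj.a, ih]
  have hF : ∀ k v, j (kaF R k v) = kaF S k (j v) := by
    intro k v
    induction k with
    | zero => rw [kaF_zero, kaF_zero]
    | succ k ih => rw [kaF_succ, kaF_succ, hj.a, ih]
  have hz : j (kaZ R u) = kaZ S (j u) := by
    unfold kaZ
    rw [map_add, hj.a, hj.a]
  induction K with
  | zero => rw [ka_W, ka_W, Finset.range_zero, Finset.sum_empty, Finset.sum_empty, map_zero]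
  | succ K ih => rw [ka_W_succ, ka_W_succ, map_add, ih, map_smul, hF, hE, hz]

theorem W_fix (R : LRep 1 2 E) (K : ℕ) (hK : 0 < K) (u : E) (hu : ∀ X, R.a X u = 0) :
    W R K u = u := by
  have hz : kaZ R u = u := by
    unfold kaZ
    rw [hu, map_zero, zero_add]
  have hE : ∀ k, kaE R (k + 1) u = 0 := by
    intro k
    induction k with
    | zero => rw [kaE_succ, kaE_zero, hu]
    | succ k ih => rw [kaE_succ, ih, map_zero]
  obtain ⟨K, rfl⟩ : ∃ K', K = K' + 1 := ⟨K - 1, by omega⟩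
  clear hK
  induction K with
  | zero =>
    rw [ka_W_succ, ka_W, Finset.range_zero, Finset.sum_empty, zero_add, kaC_zero, one_smul,
      kaF_zero, kaE_zero, hz]
  | succ K ih =>
    rw [ka_W_succ, ih, hz, hE, kaF_map_zero, smul_zero, add_zero]

end

end Pool.Agent.SGp
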