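import Pool.Agent.SGp.One2

/-!
# All relations between the matrix units of `gl(1|2)` in a supermodule
-/

namespace Pool.Agent.SGp

open Matrix

variable {V : Type} [AddCommGroup V] [Module ℂ V] (R : LRep 1 2 V) (v : V)

lemma r_h0_h1 : R.a h0 (R.a h1 v) = R.a h1 (R.a h0 v) := by
  have h := relE R v h0 h1 (0) h0_even (by ext i j; rcases i with i | i <;> rcases j with j | j <;> fin_cases i <;> fin_cases j <;> simp [h0, h1, Matrix.mul_apply, Fintype.sum_sum_type, Matrix.single])
  exact h.trans (by simp [sub_eq_add_neg, add_assoc])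

lemma r_h0_h2 : R.a h0 (R.a h2 v) = R.a h2 (R.a h0 v) := by
  have h := relE R v h0 h2 (0) h0_even (by ext i j; rcases i with i | i <;> rcases j with j | j <;> fin_cases i <;> fin_cases j <;> simp [h0, h2, Matrix.mul_apply, Fintype.sum_sum_type, Matrix.single])
  exact h.trans (by simp [sub_eq_add_neg, add_assoc])

lemma r_h0_ee : R.a h0 (R.a ee v) = R.a ee (R.a h0 v) := by
  have h := relE R v h0 ee (0) h0_even (by ext i j; rcases i with i | i <;> rcases j with j | j <;> fin_cases i <;> fin_cases j <;> simp [ee, h0, Matrix.mul_apply, Fintype.sum_sum_type, Matrix.single])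
  exact h.trans (by simp [sub_eq_add_neg, add_assoc])

lemma r_h0_ff : R.a h0 (R.a ff v) = R.a ff (R.a h0 v) := by
  have h := relE R v h0 ff (0) h0_even (by ext i j; rcases i with i | i <;> rcases j with j | j <;> fin_cases i <;> fin_cases j <;> simp [ff, h0, Matrix.mul_apply, Fintype.sum_sum_type, Matrix.single])
  exact h.trans (by simp [sub_eq_add_neg, add_assoc])

lemma r_h0_x1 : R.a h0 (R.a x1 v) = R.a x1 (R.a h0 v) + R.a x1 v := by
  have h := relE R v h0 x1 (x1) h0_even (by ext i j; rcases i with i | i <;> rcases j with j | j <;> fin_cases i <;> fin_cases j <;> simp [h0, x1, Matrix.mul_apply, Fintype.sum_sum_type, Matrix.single])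
  exact h.trans (by simp [sub_eq_add_neg, add_assoc])

lemma r_h0_x2 : R.a h0 (R.a x2 v) = R.a x2 (R.a h0 v) + R.a x2 v := by
  have h := relE R v h0 x2 (x2) h0_even (by ext i j; rcases i with i | i <;> rcases j with j | j <;> fin_cases i <;> fin_cases j <;> simp [h0, x2, Matrix.mul_apply, Fintype.sum_sum_type, Matrix.single])
  exact h.trans (by simp [sub_eq_add_neg, add_assoc])

lemma r_h0_y1 : R.a h0 (R.a y1 v) = R.a y1 (R.a h0 v) - R.a y1 v := by
  have h := relE R v h0 y1 (-y1) h0_even (by ext i j; rcases i with i | i <;> rcases j with j | j <;> fin_cases i <;> fin_cases j <;> simp [h0, y1, Matrix.mul_apply, Fintype.sum_sum_type, Matrix.single])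
  exact h.trans (by simp [sub_eq_add_neg, add_assoc])

lemma r_h0_y2 : R.a h0 (R.a y2 v) = R.a y2 (R.a h0 v) - R.a y2 v := by
  have h := relE R v h0 y2 (-y2) h0_even (by ext i j; rcases i with i | i <;> rcases j with j | j <;> fin_cases i <;> fin_cases j <;> simp [h0, y2, Matrix.mul_apply, Fintype.sum_sum_type, Matrix.single])
  exact h.trans (by simp [sub_eq_add_neg, add_assoc])

lemma r_h1_h0 : R.a h1 (R.a h0 v) = R.a h0 (R.a h1 v) := by
  have h := relE R v h1 h0 (0) h1_even (by ext i j; rcases i with i | i <;> rcases j with j | j <;> fin_cases i <;> fin_cases j <;> simp [h0, h1, Matrix.mul_apply, Fintype.sum_sum_type, Matrix.single])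
  exact h.trans (by simp [sub_eq_add_neg, add_assoc])

lemma r_h1_h2 : R.a h1 (R.a h2 v) = R.a h2 (R.a h1 v) := by
  have h := relE R v h1 h2 (0) h1_even (by ext i j; rcases i with i | i <;> rcases j with j | j <;> fin_cases i <;> fin_cases j <;> simp [h1, h2, Matrix.mul_apply, Fintype.sum_sum_type, Matrix.single])
  exact h.trans (by simp [sub_eq_add_neg, add_assoc])

lemma r_h1_ee : R.a h1 (R.a ee v) = R.a ee (R.a h1 v) + R.a ee v := by
  have h := relE R v h1 ee (ee) h1_even (by ext i j; rcases i with i | i <;> rcases j with j | j <;> fin_cases i <;> fin_cases j <;> simp [ee, h1, Matrix.mul_apply, Fintype.sum_sum_type, Matrix.single])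
  exact h.trans (by simp [sub_eq_add_neg, add_assoc])

lemma r_h1_ff : R.a h1 (R.a ff v) = R.a ff (R.a h1 v) - R.a ff v := by
  have h := relE R v h1 ff (-ff) h1_even (by ext i j; rcases i with i | i <;> rcases j with j | j <;> fin_cases i <;> fin_cases j <;> simp [ff, h1, Matrix.mul_apply, Fintype.sum_sum_type, Matrix.single])
  exact h.trans (by simp [sub_eq_add_neg, add_assoc])

lemma r_h1_x1 : R.a h1 (R.a x1 v) = R.a x1 (R.a h1 v) - R.a x1 v := by
  have h := relE R v h1 x1 (-x1) h1_even (by ext i j; rcases i with i | i <;> rcases j with j | j <;> fin_cases i <;> fin_cases j <;> simp [h1, x1, Matrix.mul_apply, Fintype.sum_sum_type, Matrix.single])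
  exact h.trans (by simp [sub_eq_add_neg, add_assoc])

lemma r_h1_x2 : R.a h1 (R.a x2 v) = R.a x2 (R.a h1 v) := by
  have h := relE R v h1 x2 (0) h1_even (by ext i j; rcases i with i | i <;> rcases j with j | j <;> fin_cases i <;> fin_cases j <;> simp [h1, x2, Matrix.mul_apply, Fintype.sum_sum_type, Matrix.single])
  exact h.trans (by simp [sub_eq_add_neg, add_assoc])

lemma r_h1_y1 : R.a h1 (R.a y1 v) = R.a y1 (R.a h1 v) + R.a y1 v := by
  have h := relE R v h1 y1 (y1) h1_even (by ext i j; rcases i with i | i <;> rcases j with j | j <;> fin_cases i <;> fin_cases j <;> simp [h1, y1, Matrix.mul_apply, Fintype.sum_sum_type, Matrix.single])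
  exact h.trans (by simp [sub_eq_add_neg, add_assoc])

lemma r_h1_y2 : R.a h1 (R.a y2 v) = R.a y2 (R.a h1 v) := by
  have h := relE R v h1 y2 (0) h1_even (by ext i j; rcases i with i | i <;> rcases j with j | j <;> fin_cases i <;> fin_cases j <;> simp [h1, y2, Matrix.mul_apply, Fintype.sum_sum_type, Matrix.single])
  exact h.trans (by simp [sub_eq_add_neg, add_assoc])

lemma r_h2_h0 : R.a h2 (R.a h0 v) = R.a h0 (R.a h2 v) := by
  have h := relE R v h2 h0 (0) h2_even (by ext i j; rcases i with i | i <;> rcases j with j | j <;> fin_cases i <;> fin_cases j <;> simp [h0, h2, Matrix.mul_apply, Fintype.sum_sum_type, Matrix.single])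
  exact h.trans (by simp [sub_eq_add_neg, add_assoc])

lemma r_h2_h1 : R.a h2 (R.a h1 v) = R.a h1 (R.a h2 v) := by
  have h := relE R v h2 h1 (0) h2_even (by ext i j; rcases i with i | i <;> rcases j with j | j <;> fin_cases i <;> fin_cases j <;> simp [h1, h2, Matrix.mul_apply, Fintype.sum_sum_type, Matrix.single])
  exact h.trans (by simp [sub_eq_add_neg, add_assoc])

lemma r_h2_ee : R.a h2 (R.a ee v) = R.a ee (R.a h2 v) - R.a ee v := by
  have h := relE R v h2 ee (-ee) h2_even (by ext i j; rcases i with i | i <;> rcases j with j | j <;> fin_cases i <;> fin_cases j <;> simp [ee, h2, Matrix.mul_apply, Fintype.sum_sum_type, Matrix.single])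
  exact h.trans (by simp [sub_eq_add_neg, add_assoc])

lemma r_h2_ff : R.a h2 (R.a ff v) = R.a ff (R.a h2 v) + R.a ff v := by
  have h := relE R v h2 ff (ff) h2_even (by ext i j; rcases i with i | i <;> rcases j with j | j <;> fin_cases i <;> fin_cases j <;> simp [ff, h2, Matrix.mul_apply, Fintype.sum_sum_type, Matrix.single])
  exact h.trans (by simp [sub_eq_add_neg, add_assoc])

lemma r_h2_x1 : R.a h2 (R.a x1 v) = R.a x1 (R.a h2 v) := by
  have h := relE R v h2 x1 (0) h2_even (by ext i j; rcases i with i | i <;> rcases j with j | j <;> fin_cases i <;> fin_cases j <;> simp [h2, x1, Matrix.mul_apply, Fintype.sum_sum_type, Matrix.single])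
  exact h.trans (by simp [sub_eq_add_neg, add_assoc])

lemma r_h2_x2 : R.a h2 (R.a x2 v) = R.a x2 (R.a h2 v) - R.a x2 v := by
  have h := relE R v h2 x2 (-x2) h2_even (by ext i j; rcases i with i | i <;> rcases j with j | j <;> fin_cases i <;> fin_cases j <;> simp [h2, x2, Matrix.mul_apply, Fintype.sum_sum_type, Matrix.single])
  exact h.trans (by simp [sub_eq_add_neg, add_assoc])

lemma r_h2_y1 : R.a h2 (R.a y1 v) = R.a y1 (R.a h2 v) := by
  have h := relE R v h2 y1 (0) h2_even (by ext i j; rcases i with i | i <;> rcases j with j | j <;> fin_cases i <;> fin_cases j <;> simp [h2, y1, Matrix.mul_apply, Fintype.sum_sum_type, Matrix.single])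
  exact h.trans (by simp [sub_eq_add_neg, add_assoc])

lemma r_h2_y2 : R.a h2 (R.a y2 v) = R.a y2 (R.a h2 v) + R.a y2 v := by
  have h := relE R v h2 y2 (y2) h2_even (by ext i j; rcases i with i | i <;> rcases j with j | j <;> fin_cases i <;> fin_cases j <;> simp [h2, y2, Matrix.mul_apply, Fintype.sum_sum_type, Matrix.single])
  exact h.trans (by simp [sub_eq_add_neg, add_assoc])

lemma r_ee_h0 : R.a ee (R.a h0 v) = R.a h0 (R.a ee v) := by
  have h := relE R v ee h0 (0) ee_even (by ext i j; rcases i with i | i <;> rcases j with j | j <;> fin_cases i <;> fin_cases j <;> simp [ee, h0, Matrix.mul_apply, Fintype.sum_sum_type, Matrix.single])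
  exact h.trans (by simp [sub_eq_add_neg, add_assoc])

lemma r_ee_h1 : R.a ee (R.a h1 v) = R.a h1 (R.a ee v) - R.a ee v := by
  have h := relE R v ee h1 (-ee) ee_even (by ext i j; rcases i with i | i <;> rcases j with j | j <;> fin_cases i <;> fin_cases j <;> simp [ee, h1, Matrix.mul_apply, Fintype.sum_sum_type, Matrix.single])
  exact h.trans (by simp [sub_eq_add_neg, add_assoc])

lemma r_ee_h2 : R.a ee (R.a h2 v) = R.a h2 (R.a ee v) + R.a ee v := by
  have h := relE R v ee h2 (ee) ee_even (by ext i j; rcases i with i | i <;> rcases j with j | j <;> fin_cases i <;> fin_cases j <;> simp [ee, h2, Matrix.mul_apply, Fintype.sum_sum_type, Matrix.single])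
  exact h.trans (by simp [sub_eq_add_neg, add_assoc])

lemma r_ee_ff : R.a ee (R.a ff v) = R.a ff (R.a ee v) + R.a h1 v - R.a h2 v := by
  have h := relE R v ee ff (h1 - h2) ee_even (by ext i j; rcases i with i | i <;> rcases j with j | j <;> fin_cases i <;> fin_cases j <;> simp [ee, ff, h1, h2, Matrix.mul_apply, Fintype.sum_sum_type, Matrix.single])
  exact h.trans (by simp [sub_eq_add_neg, add_assoc])

lemma r_ee_x1 : R.a ee (R.a x1 v) = R.a x1 (R.a ee v) - R.a x2 v := by
  have h := relE R v ee x1 (-x2) ee_even (by ext i j; rcases i with i | i <;> rcases j with j | j <;> fin_cases i <;> fin_cases j <;> simp [ee, x1, x2, Matrix.mul_apply, Fintype.sum_sum_type, Matrix.single])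
  exact h.trans (by simp [sub_eq_add_neg, add_assoc])

lemma r_ee_x2 : R.a ee (R.a x2 v) = R.a x2 (R.a ee v) := by
  have h := relE R v ee x2 (0) ee_even (by ext i j; rcases i with i | i <;> rcases j with j | j <;> fin_cases i <;> fin_cases j <;> simp [ee, x2, Matrix.mul_apply, Fintype.sum_sum_type, Matrix.single])
  exact h.trans (by simp [sub_eq_add_neg, add_assoc])

lemma r_ee_y1 : R.a ee (R.a y1 v) = R.a y1 (R.a ee v) := by
  have h := relE R v ee y1 (0) ee_even (by ext i j; rcases i with i | i <;> rcases j with j | j <;> fin_cases i <;> fin_cases j <;> simp [ee, y1, Matrix.mul_apply, Fintype.sum_sum_type, Matrix.single])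
  exact h.trans (by simp [sub_eq_add_neg, add_assoc])

lemma r_ee_y2 : R.a ee (R.a y2 v) = R.a y2 (R.a ee v) + R.a y1 v := by
  have h := relE R v ee y2 (y1) ee_even (by ext i j; rcases i with i | i <;> rcases j with j | j <;> fin_cases i <;> fin_cases j <;> simp [ee, y1, y2, Matrix.mul_apply, Fintype.sum_sum_type, Matrix.single])
  exact h.trans (by simp [sub_eq_add_neg, add_assoc])

lemma r_ff_h0 : R.a ff (R.a h0 v) = R.a h0 (R.a ff v) := by
  have h := relE R v ff h0 (0) ff_even (by ext i j; rcases i with i | i <;> rcases j with j | j <;> fin_cases i <;> fin_cases j <;> simp [ff, h0, Matrix.mul_apply, Fintype.sum_sum_type, Matrix.single])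
  exact h.trans (by simp [sub_eq_add_neg, add_assoc])

lemma r_ff_h1 : R.a ff (R.a h1 v) = R.a h1 (R.a ff v) + R.a ff v := by
  have h := relE R v ff h1 (ff) ff_even (by ext i j; rcases i with i | i <;> rcases j with j | j <;> fin_cases i <;> fin_cases j <;> simp [ff, h1, Matrix.mul_apply, Fintype.sum_sum_type, Matrix.single])
  exact h.trans (by simp [sub_eq_add_neg, add_assoc])

lemma r_ff_h2 : R.a ff (R.a h2 v) = R.a h2 (R.a ff v) - R.a ff v := by
  have h := relE R v ff h2 (-ff) ff_even (by ext i j; rcases i with i | i <;> rcases j with j | j <;> fin_cases i <;> fin_cases j <;> simp [ff, h2, Matrix.mul_apply, Fintype.sum_sum_type, Matrix.single])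
  exact h.trans (by simp [sub_eq_add_neg, add_assoc])

lemma r_ff_ee : R.a ff (R.a ee v) = R.a ee (R.a ff v) + R.a h2 v - R.a h1 v := by
  have h := relE R v ff ee (h2 - h1) ff_even (by ext i j; rcases i with i | i <;> rcases j with j | j <;> fin_cases i <;> fin_cases j <;> simp [ee, ff, h1, h2, Matrix.mul_apply, Fintype.sum_sum_type, Matrix.single])
  exact h.trans (by simp [sub_eq_add_neg, add_assoc])

lemma r_ff_x1 : R.a ff (R.a x1 v) = R.a x1 (R.a ff v) := by
  have h := relE R v ff x1 (0) ff_even (by ext i j; rcases i with i | i <;> rcases j with j | j <;> fin_cases i <;> fin_cases j <;> simp [ff, x1, Matrix.mul_apply, Fintype.sum_sum_type, Matrix.single])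
  exact h.trans (by simp [sub_eq_add_neg, add_assoc])

lemma r_ff_x2 : R.a ff (R.a x2 v) = R.a x2 (R.a ff v) - R.a x1 v := by
  have h := relE R v ff x2 (-x1) ff_even (by ext i j; rcases i with i | i <;> rcases j with j | j <;> fin_cases i <;> fin_cases j <;> simp [ff, x1, x2, Matrix.mul_apply, Fintype.sum_sum_type, Matrix.single])
  exact h.trans (by simp [sub_eq_add_neg, add_assoc])

lemma r_ff_y1 : R.a ff (R.a y1 v) = R.a y1 (R.a ff v) + R.a y2 v := by
  have h := relE R v ff y1 (y2) ff_even (by ext i j; rcases i with i | i <;> rcases j with j | j <;> fin_cases i <;> fin_cases j <;> simp [ff, y1, y2, Matrix.mul_apply, Fintype.sum_sum_type, Matrix.single])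
  exact h.trans (by simp [sub_eq_add_neg, add_assoc])

lemma r_ff_y2 : R.a ff (R.a y2 v) = R.a y2 (R.a ff v) := by
  have h := relE R v ff y2 (0) ff_even (by ext i j; rcases i with i | i <;> rcases j with j | j <;> fin_cases i <;> fin_cases j <;> simp [ff, y2, Matrix.mul_apply, Fintype.sum_sum_type, Matrix.single])
  exact h.trans (by simp [sub_eq_add_neg, add_assoc])

lemma r_x1_h0 : R.a x1 (R.a h0 v) = R.a h0 (R.a x1 v) - R.a x1 v := by
  have h := relE' R v x1 h0 (-x1) h0_even (by ext i j; rcases i with i | i <;> rcases j with j | j <;> fin_cases i <;> fin_cases j <;> simp [h0, x1, Matrix.mul_apply, Fintype.sum_sum_type, Matrix.single])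
  exact h.trans (by simp [sub_eq_add_neg, add_assoc])

lemma r_x1_h1 : R.a x1 (R.a h1 v) = R.a h1 (R.a x1 v) + R.a x1 v := by
  have h := relE' R v x1 h1 (x1) h1_even (by ext i j; rcases i with i | i <;> rcases j with j | j <;> fin_cases i <;> fin_cases j <;> simp [h1, x1, Matrix.mul_apply, Fintype.sum_sum_type, Matrix.single])
  exact h.trans (by simp [sub_eq_add_neg, add_assoc])

lemma r_x1_h2 : R.a x1 (R.a h2 v) = R.a h2 (R.a x1 v) := by
  have h := relE' R v x1 h2 (0) h2_even (by ext i j; rcases i with i | i <;> rcases j with j | j <;> fin_cases i <;> fin_cases j <;> simp [h2, x1, Matrix.mul_apply, Fintype.sum_sum_type, Matrix.single])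
  exact h.trans (by simp [sub_eq_add_neg, add_assoc])

lemma r_x1_ee : R.a x1 (R.a ee v) = R.a ee (R.a x1 v) + R.a x2 v := by
  have h := relE' R v x1 ee (x2) ee_even (by ext i j; rcases i with i | i <;> rcases j with j | j <;> fin_cases i <;> fin_cases j <;> simp [ee, x1, x2, Matrix.mul_apply, Fintype.sum_sum_type, Matrix.single])
  exact h.trans (by simp [sub_eq_add_neg, add_assoc])

lemma r_x1_ff : R.a x1 (R.a ff v) = R.a ff (R.a x1 v) := by
  have h := relE' R v x1 ff (0) ff_even (by ext i j; rcases i with i | i <;> rcases j with j | j <;> fin_cases i <;> fin_cases j <;> simp [ff, x1, Matrix.mul_apply, Fintype.sum_sum_type, Matrix.single])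
  exact h.trans (by simp [sub_eq_add_neg, add_assoc])

lemma r_x1_x1 : R.a x1 (R.a x1 v) = 0 := by
  have h := relO R v x1 x1 0 x1_odd x1_odd (by ext i j; rcases i with i | i <;> rcases j with j | j <;> fin_cases i <;> fin_cases j <;> simp [x1, Matrix.mul_apply, Fintype.sum_sum_type, Matrix.single])
  rw [map_zero, LinearMap.zero_apply, add_zero] at h
  have h2 : (2 : ℂ) • R.a x1 (R.a x1 v) = 0 := by
    rw [two_smul]; nth_rewrite 2 [h]; exact add_neg_cancel _
  simpa using h2

lemma r_x1_x2 : R.a x1 (R.a x2 v) = -R.a x2 (R.a x1 v) := by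
  have h := relO R v x1 x2 (0) x1_odd x2_odd (by ext i j; rcases i with i | i <;> rcases j with j | j <;> fin_cases i <;> fin_cases j <;> simp [x1, x2, Matrix.mul_apply, Fintype.sum_sum_type, Matrix.single])
  exact h.trans (by simp [sub_eq_add_neg, add_assoc])

lemma r_x1_y1 : R.a x1 (R.a y1 v) = -R.a y1 (R.a x1 v) + R.a h0 v + R.a h1 v := by
  have h := relO R v x1 y1 (h0 + h1) x1_odd y1_odd (by ext i j; rcases i with i | i <;> rcases j with j | j <;> fin_cases i <;> fin_cases j <;> simp [h0, h1, x1, y1, Matrix.mul_apply, Fintype.sum_sum_type, Matrix.single])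
  exact h.trans (by simp [sub_eq_add_neg, add_assoc])

lemma r_x1_y2 : R.a x1 (R.a y2 v) = -R.a y2 (R.a x1 v) + R.a ff v := by
  have h := relO R v x1 y2 (ff) x1_odd y2_odd (by ext i j; rcases i with i | i <;> rcases j with j | j <;> fin_cases i <;> fin_cases j <;> simp [ff, x1, y2, Matrix.mul_apply, Fintype.sum_sum_type, Matrix.single])
  exact h.trans (by simp [sub_eq_add_neg, add_assoc])

lemma r_x2_h0 : R.a x2 (R.a h0 v) = R.a h0 (R.a x2 v) - R.a x2 v := by
  have h := relE' R v x2 h0 (-x2) h0_even (by ext i j; rcases i with i | i <;> rcases j with j | j <;> fin_cases i <;> fin_cases j <;> simp [h0, x2, Matrix.mul_apply, Fintype.sum_sum_type, Matrix.single])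
  exact h.trans (by simp [sub_eq_add_neg, add_assoc])

lemma r_x2_h1 : R.a x2 (R.a h1 v) = R.a h1 (R.a x2 v) := by
  have h := relE' R v x2 h1 (0) h1_even (by ext i j; rcases i with i | i <;> rcases j with j | j <;> fin_cases i <;> fin_cases j <;> simp [h1, x2, Matrix.mul_apply, Fintype.sum_sum_type, Matrix.single])
  exact h.trans (by simp [sub_eq_add_neg, add_assoc])

lemma r_x2_h2 : R.a x2 (R.a h2 v) = R.a h2 (R.a x2 v) + R.a x2 v := by
  have h := relE' R v x2 h2 (x2) h2_even (by ext i j; rcases i with i | i <;> rcases j with j | j <;> fin_cases i <;> fin_cases j <;> simp [h2, x2, Matrix.mul_apply, Fintype.sum_sum_type, Matrix.single])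
  exact h.trans (by simp [sub_eq_add_neg, add_assoc])

lemma r_x2_ee : R.a x2 (R.a ee v) = R.a ee (R.a x2 v) := by
  have h := relE' R v x2 ee (0) ee_even (by ext i j; rcases i with i | i <;> rcases j with j | j <;> fin_cases i <;> fin_cases j <;> simp [ee, x2, Matrix.mul_apply, Fintype.sum_sum_type, Matrix.single])
  exact h.trans (by simp [sub_eq_add_neg, add_assoc])

lemma r_x2_ff : R.a x2 (R.a ff v) = R.a ff (R.a x2 v) + R.a x1 v := by
  have h := relE' R v x2 ff (x1) ff_even (by ext i j; rcases i with i | i <;> rcases j with j | j <;> fin_cases i <;> fin_cases j <;> simp [ff, x1, x2, Matrix.mul_apply, Fintype.sum_sum_type, Matrix.single])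
  exact h.trans (by simp [sub_eq_add_neg, add_assoc])

lemma r_x2_x1 : R.a x2 (R.a x1 v) = -R.a x1 (R.a x2 v) := by
  have h := relO R v x2 x1 (0) x2_odd x1_odd (by ext i j; rcases i with i | i <;> rcases j with j | j <;> fin_cases i <;> fin_cases j <;> simp [x1, x2, Matrix.mul_apply, Fintype.sum_sum_type, Matrix.single])
  exact h.trans (by simp [sub_eq_add_neg, add_assoc])

lemma r_x2_x2 : R.a x2 (R.a x2 v) = 0 := by
  have h := relO R v x2 x2 0 x2_odd x2_odd (by ext i j; rcases i with i | i <;> rcases j with j | j <;> fin_cases i <;> fin_cases j <;> simp [x2, Matrix.mul_apply, Fintype.sum_sum_type, Matrix.single])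
  rw [map_zero, LinearMap.zero_apply, add_zero] at h
  have h2 : (2 : ℂ) • R.a x2 (R.a x2 v) = 0 := by
    rw [two_smul]; nth_rewrite 2 [h]; exact add_neg_cancel _
  simpa using h2

lemma r_x2_y1 : R.a x2 (R.a y1 v) = -R.a y1 (R.a x2 v) + R.a ee v := by
  have h := relO R v x2 y1 (ee) x2_odd y1_odd (by ext i j; rcases i with i | i <;> rcases j with j | j <;> fin_cases i <;> fin_cases j <;> simp [ee, x2, y1, Matrix.mul_apply, Fintype.sum_sum_type, Matrix.single])
  exact h.trans (by simp [sub_eq_add_neg, add_assoc])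

lemma r_x2_y2 : R.a x2 (R.a y2 v) = -R.a y2 (R.a x2 v) + R.a h0 v + R.a h2 v := by
  have h := relO R v x2 y2 (h0 + h2) x2_odd y2_odd (by ext i j; rcases i with i | i <;> rcases j with j | j <;> fin_cases i <;> fin_cases j <;> simp [h0, h2, x2, y2, Matrix.mul_apply, Fintype.sum_sum_type, Matrix.single])
  exact h.trans (by simp [sub_eq_add_neg, add_assoc])

lemma r_y1_h0 : R.a y1 (R.a h0 v) = R.a h0 (R.a y1 v) + R.a y1 v := by
  have h := relE' R v y1 h0 (y1) h0_even (by ext i j; rcases i with i | i <;> rcases j with j | j <;> fin_cases i <;> fin_cases j <;> simp [h0, y1, Matrix.mul_apply, Fintype.sum_sum_type, Matrix.single])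
  exact h.trans (by simp [sub_eq_add_neg, add_assoc])

lemma r_y1_h1 : R.a y1 (R.a h1 v) = R.a h1 (R.a y1 v) - R.a y1 v := by
  have h := relE' R v y1 h1 (-y1) h1_even (by ext i j; rcases i with i | i <;> rcases j with j | j <;> fin_cases i <;> fin_cases j <;> simp [h1, y1, Matrix.mul_apply, Fintype.sum_sum_type, Matrix.single])
  exact h.trans (by simp [sub_eq_add_neg, add_assoc])

lemma r_y1_h2 : R.a y1 (R.a h2 v) = R.a h2 (R.a y1 v) := by
  have h := relE' R v y1 h2 (0) h2_even (by ext i j; rcases i with i | i <;> rcases j with j | j <;> fin_cases i <;> fin_cases j <;> simp [h2, y1, Matrix.mul_apply, Fintype.sum_sum_type, Matrix.single])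
  exact h.trans (by simp [sub_eq_add_neg, add_assoc])

lemma r_y1_ee : R.a y1 (R.a ee v) = R.a ee (R.a y1 v) := by
  have h := relE' R v y1 ee (0) ee_even (by ext i j; rcases i with i | i <;> rcases j with j | j <;> fin_cases i <;> fin_cases j <;> simp [ee, y1, Matrix.mul_apply, Fintype.sum_sum_type, Matrix.single])
  exact h.trans (by simp [sub_eq_add_neg, add_assoc])

lemma r_y1_ff : R.a y1 (R.a ff v) = R.a ff (R.a y1 v) - R.a y2 v := by
  have h := relE' R v y1 ff (-y2) ff_even (by ext i j; rcases i with i | i <;> rcases j with j | j <;> fin_cases i <;> fin_cases j <;> simp [ff, y1, y2, Matrix.mul_apply, Fintype.sum_sum_type, Matrix.single])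
  exact h.trans (by simp [sub_eq_add_neg, add_assoc])

lemma r_y1_x1 : R.a y1 (R.a x1 v) = -R.a x1 (R.a y1 v) + R.a h1 v + R.a h0 v := by
  have h := relO R v y1 x1 (h1 + h0) y1_odd x1_odd (by ext i j; rcases i with i | i <;> rcases j with j | j <;> fin_cases i <;> fin_cases j <;> simp [h0, h1, x1, y1, Matrix.mul_apply, Fintype.sum_sum_type, Matrix.single])
  exact h.trans (by simp [sub_eq_add_neg, add_assoc])

lemma r_y1_x2 : R.a y1 (R.a x2 v) = -R.a x2 (R.a y1 v) + R.a ee v := by
  have h := relO R v y1 x2 (ee) y1_odd x2_odd (by ext i j; rcases i with i | i <;> rcases j with j | j <;> fin_cases i <;> fin_cases j <;> simp [ee, x2, y1, Matrix.mul_apply, Fintype.sum_sum_type, Matrix.single])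
  exact h.trans (by simp [sub_eq_add_neg, add_assoc])

lemma r_y1_y1 : R.a y1 (R.a y1 v) = 0 := by
  have h := relO R v y1 y1 0 y1_odd y1_odd (by ext i j; rcases i with i | i <;> rcases j with j | j <;> fin_cases i <;> fin_cases j <;> simp [y1, Matrix.mul_apply, Fintype.sum_sum_type, Matrix.single])
  rw [map_zero, LinearMap.zero_apply, add_zero] at h
  have h2 : (2 : ℂ) • R.a y1 (R.a y1 v) = 0 := by
    rw [two_smul]; nth_rewrite 2 [h]; exact add_neg_cancel _
  simpa using h2

lemma r_y1_y2 : R.a y1 (R.a y2 v) = -R.a y2 (R.a y1 v) := by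
  have h := relO R v y1 y2 (0) y1_odd y2_odd (by ext i j; rcases i with i | i <;> rcases j with j | j <;> fin_cases i <;> fin_cases j <;> simp [y1, y2, Matrix.mul_apply, Fintype.sum_sum_type, Matrix.single])
  exact h.trans (by simp [sub_eq_add_neg, add_assoc])

lemma r_y2_h0 : R.a y2 (R.a h0 v) = R.a h0 (R.a y2 v) + R.a y2 v := by
  have h := relE' R v y2 h0 (y2) h0_even (by ext i j; rcases i with i | i <;> rcases j with j | j <;> fin_cases i <;> fin_cases j <;> simp [h0, y2, Matrix.mul_apply, Fintype.sum_sum_type, Matrix.single])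
  exact h.trans (by simp [sub_eq_add_neg, add_assoc])

lemma r_y2_h1 : R.a y2 (R.a h1 v) = R.a h1 (R.a y2 v) := by
  have h := relE' R v y2 h1 (0) h1_even (by ext i j; rcases i with i | i <;> rcases j with j | j <;> fin_cases i <;> fin_cases j <;> simp [h1, y2, Matrix.mul_apply, Fintype.sum_sum_type, Matrix.single])
  exact h.trans (by simp [sub_eq_add_neg, add_assoc])

lemma r_y2_h2 : R.a y2 (R.a h2 v) = R.a h2 (R.a y2 v) - R.a y2 v := by
  have h := relE' R v y2 h2 (-y2) h2_even (by ext i j; rcases i with i | i <;> rcases j with j | j <;> fin_cases i <;> fin_cases j <;> simp [h2, y2, Matrix.mul_apply, Fintype.sum_sum_type, Matrix.single])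
  exact h.trans (by simp [sub_eq_add_neg, add_assoc])

lemma r_y2_ee : R.a y2 (R.a ee v) = R.a ee (R.a y2 v) - R.a y1 v := by
  have h := relE' R v y2 ee (-y1) ee_even (by ext i j; rcases i with i | i <;> rcases j with j | j <;> fin_cases i <;> fin_cases j <;> simp [ee, y1, y2, Matrix.mul_apply, Fintype.sum_sum_type, Matrix.single])
  exact h.trans (by simp [sub_eq_add_neg, add_assoc])

lemma r_y2_ff : R.a y2 (R.a ff v) = R.a ff (R.a y2 v) := by
  have h := relE' R v y2 ff (0) ff_even (by ext i j; rcases i with i | i <;> rcases j with j | j <;> fin_cases i <;> fin_cases j <;> simp [ff, y2, Matrix.mul_apply, Fintype.sum_sum_type, Matrix.single])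
  exact h.trans (by simp [sub_eq_add_neg, add_assoc])

lemma r_y2_x1 : R.a y2 (R.a x1 v) = -R.a x1 (R.a y2 v) + R.a ff v := by
  have h := relO R v y2 x1 (ff) y2_odd x1_odd (by ext i j; rcases i with i | i <;> rcases j with j | j <;> fin_cases i <;> fin_cases j <;> simp [ff, x1, y2, Matrix.mul_apply, Fintype.sum_sum_type, Matrix.single])
  exact h.trans (by simp [sub_eq_add_neg, add_assoc])

lemma r_y2_x2 : R.a y2 (R.a x2 v) = -R.a x2 (R.a y2 v) + R.a h2 v + R.a h0 v := by
  have h := relO R v y2 x2 (h2 + h0) y2_odd x2_odd (by ext i j; rcases i with i | i <;> rcases j with j | j <;> fin_cases i <;> fin_cases j <;> simp [h0, h2, x2, y2, Matrix.mul_apply, Fintype.sum_sum_type, Matrix.single])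
  exact h.trans (by simp [sub_eq_add_neg, add_assoc])

lemma r_y2_y1 : R.a y2 (R.a y1 v) = -R.a y1 (R.a y2 v) := by
  have h := relO R v y2 y1 (0) y2_odd y1_odd (by ext i j; rcases i with i | i <;> rcases j with j | j <;> fin_cases i <;> fin_cases j <;> simp [y1, y2, Matrix.mul_apply, Fintype.sum_sum_type, Matrix.single])
  exact h.trans (by simp [sub_eq_add_neg, add_assoc])

lemma r_y2_y2 : R.a y2 (R.a y2 v) = 0 := by
  have h := relO R v y2 y2 0 y2_odd y2_odd (by ext i j; rcases i with i | i <;> rcases j with j | j <;> fin_cases i <;> fin_cases j <;> simp [y2, Matrix.mul_apply, Fintype.sum_sum_type, Matrix.single])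
  rw [map_zero, LinearMap.zero_apply, add_zero] at h
  have h2 : (2 : ℂ) • R.a y2 (R.a y2 v) = 0 := by
    rw [two_smul]; nth_rewrite 2 [h]; exact add_neg_cancel _
  simpa using h2

end Pool.Agent.SGp
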