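import Pool.Agent.SGp.Gen
import Pool.Agent.SGp.Rels
import Pool.Agent.SGp.HomRep

/-!
# Module LocFin: modules of GL(1|2) are locally finite

Hints. `V₀` = span of the `ρ g v` and `ρ g (par v)`; finite dimensional by `A.rat v` and
`A.rat (par v)` (contained in the span of the `w i`), stable under `ρ` and `par`, hence under
`a X` for even `X` (`a_mem_of_curve` for the five curves of `Gen`, `even_expand`).
`V₁ = V₀ + x1 V₀ + x2 V₀ + x1 x2 V₀` is stable under `par`, the even matrices and `x1, x2`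
(`Submodule.map`, relations of `Rels`). `V₂ = V₁ + y1 V₁ + y2 V₁ + y1 y2 V₁` is stable under
everything: `x_i y_j = - y_j x_i + (even)`.
`nilp_sub`: on a finite dimensional stable subspace the locally nilpotent maps `a ee`, `a ff`
(`nilp`) are nilpotent (take a finite spanning set).
-/

namespace Pool.Agent.SGp

open Matrix

section locfin

variable {V : Type} [AddCommGroup V] [Module ℂ V]

/-- stable under parity and the five even matrix units -/
structure LocFinEven (R : LRep 1 2 V) (U : Submodule ℂ V) : Prop where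
  par : ∀ w ∈ U, R.par w ∈ U
  h0 : ∀ w ∈ U, R.a h0 w ∈ U
  h1 : ∀ w ∈ U, R.a h1 w ∈ U
  h2 : ∀ w ∈ U, R.a h2 w ∈ U
  ee : ∀ w ∈ U, R.a ee w ∈ U
  ff : ∀ w ∈ U, R.a ff w ∈ U

/-- `U + z1 U + z2 U + z1 z2 U` -/
noncomputable def locFinExt (R : LRep 1 2 V) (z1 z2 : gl 1 2) (U : Submodule ℂ V) :
    Submodule ℂ V :=
  U ⊔ U.map (R.a z1) ⊔ U.map (R.a z2) ⊔ U.map (R.a z1 ∘ₗ R.a z2)

lemma locFinExt_m0 (R : LRep 1 2 V) (z1 z2 : gl 1 2) (U : Submodule ℂ V) {u : V} (h : u ∈ U) :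
    u ∈ locFinExt R z1 z2 U :=
  (le_sup_left.trans (le_sup_left.trans le_sup_left) : U ≤ locFinExt R z1 z2 U) h

lemma locFinExt_m1 (R : LRep 1 2 V) (z1 z2 : gl 1 2) (U : Submodule ℂ V) {u : V} (h : u ∈ U) :
    R.a z1 u ∈ locFinExt R z1 z2 U :=
  (le_sup_right.trans (le_sup_left.trans le_sup_left) :
    U.map (R.a z1) ≤ locFinExt R z1 z2 U) (Submodule.mem_map_of_mem h)

lemma locFinExt_m2 (R : LRep 1 2 V) (z1 z2 : gl 1 2) (U : Submodule ℂ V) {u : V} (h : u ∈ U) :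
    R.a z2 u ∈ locFinExt R z1 z2 U :=
  (le_sup_right.trans le_sup_left :
    U.map (R.a z2) ≤ locFinExt R z1 z2 U) (Submodule.mem_map_of_mem h)

lemma locFinExt_m12 (R : LRep 1 2 V) (z1 z2 : gl 1 2) (U : Submodule ℂ V) {u : V} (h : u ∈ U) :
    R.a z1 (R.a z2 u) ∈ locFinExt R z1 z2 U :=
  (le_sup_right : U.map (R.a z1 ∘ₗ R.a z2) ≤ locFinExt R z1 z2 U)
    (Submodule.mem_map_of_mem (f := R.a z1 ∘ₗ R.a z2) h)

lemma locFinExt_stable (R : LRep 1 2 V) (z1 z2 : gl 1 2) (U : Submodule ℂ V)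
    (T : V →ₗ[ℂ] V) (h0 : ∀ u ∈ U, T u ∈ locFinExt R z1 z2 U)
    (h1 : ∀ u ∈ U, T (R.a z1 u) ∈ locFinExt R z1 z2 U)
    (h2 : ∀ u ∈ U, T (R.a z2 u) ∈ locFinExt R z1 z2 U)
    (h12 : ∀ u ∈ U, T (R.a z1 (R.a z2 u)) ∈ locFinExt R z1 z2 U) :
    ∀ w ∈ locFinExt R z1 z2 U, T w ∈ locFinExt R z1 z2 U := by
  have key : locFinExt R z1 z2 U ≤ (locFinExt R z1 z2 U).comap T := by
    apply sup_le (sup_le (sup_le _ _) _) _
    · exact fun u hu => h0 u hu
    · rintro _ ⟨u, hu, rfl⟩; exact h1 u hu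
    · rintro _ ⟨u, hu, rfl⟩; exact h2 u hu
    · rintro _ ⟨u, hu, rfl⟩; exact h12 u hu
  exact fun w hw => key hw

lemma locFinExt_fin (R : LRep 1 2 V) (z1 z2 : gl 1 2) (U : Submodule ℂ V)
    (hU : FiniteDimensional ℂ U) : FiniteDimensional ℂ (locFinExt R z1 z2 U) := by
  unfold locFinExt
  infer_instance

lemma locFinExt_par (R : LRep 1 2 V) (z1 z2 : gl 1 2) (hz1 : z1 ∈ oddM 1 2) (hz2 : z2 ∈ oddM 1 2)
    (U : Submodule ℂ V) (hU : ∀ w ∈ U, R.par w ∈ U) :
    ∀ w ∈ locFinExt R z1 z2 U, R.par w ∈ locFinExt R z1 z2 U := by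
  apply locFinExt_stable
  · intro u hu; exact locFinExt_m0 R z1 z2 U (hU u hu)
  · intro u hu
    rw [R.par_odd z1 hz1]
    exact Submodule.neg_mem _ (locFinExt_m1 R z1 z2 U (hU u hu))
  · intro u hu
    rw [R.par_odd z2 hz2]
    exact Submodule.neg_mem _ (locFinExt_m2 R z1 z2 U (hU u hu))
  · intro u hu
    rw [R.par_odd z1 hz1, R.par_odd z2 hz2, map_neg, neg_neg]
    exact locFinExt_m12 R z1 z2 U (hU u hu)


lemma locFin_x (R : LRep 1 2 V) (U : Submodule ℂ V) (h : LocFinEven R U) :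
    LocFinEven R (locFinExt R x1 x2 U) ∧
    (∀ w ∈ locFinExt R x1 x2 U, R.a x1 w ∈ locFinExt R x1 x2 U) ∧
    (∀ w ∈ locFinExt R x1 x2 U, R.a x2 w ∈ locFinExt R x1 x2 U) := by
  have m0 := fun {u : V} (hu : u ∈ U) => locFinExt_m0 R x1 x2 U hu
  have m1 := fun {u : V} (hu : u ∈ U) => locFinExt_m1 R x1 x2 U hu
  have m2 := fun {u : V} (hu : u ∈ U) => locFinExt_m2 R x1 x2 U hu
  have m12 := fun {u : V} (hu : u ∈ U) => locFinExt_m12 R x1 x2 U hu
  refine ⟨⟨locFinExt_par R x1 x2 x1_odd x2_odd U h.par, ?_, ?_, ?_, ?_, ?_⟩, ?_, ?_⟩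
  · apply locFinExt_stable
    · intro u hu; exact m0 (h.h0 u hu)
    · intro u hu
      rw [r_h0_x1]
      exact Submodule.add_mem _ (m1 (h.h0 u hu)) (m1 hu)
    · intro u hu
      rw [r_h0_x2]
      exact Submodule.add_mem _ (m2 (h.h0 u hu)) (m2 hu)
    · intro u hu
      rw [r_h0_x1, r_h0_x2, map_add]
      exact Submodule.add_mem _ (Submodule.add_mem _ (m12 (h.h0 u hu)) (m12 hu)) (m12 hu)
  · apply locFinExt_stable
    · intro u hu; exact m0 (h.h1 u hu)
    · intro u hu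
      rw [r_h1_x1]
      exact Submodule.sub_mem _ (m1 (h.h1 u hu)) (m1 hu)
    · intro u hu
      rw [r_h1_x2]
      exact m2 (h.h1 u hu)
    · intro u hu
      rw [r_h1_x1, r_h1_x2]
      exact Submodule.sub_mem _ (m12 (h.h1 u hu)) (m12 hu)
  · apply locFinExt_stable
    · intro u hu; exact m0 (h.h2 u hu)
    · intro u hu
      rw [r_h2_x1]
      exact m1 (h.h2 u hu)
    · intro u hu
      rw [r_h2_x2]
      exact Submodule.sub_mem _ (m2 (h.h2 u hu)) (m2 hu)
    · intro u hu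
      rw [r_h2_x1, r_h2_x2, map_sub]
      exact Submodule.sub_mem _ (m12 (h.h2 u hu)) (m12 hu)
  · apply locFinExt_stable
    · intro u hu; exact m0 (h.ee u hu)
    · intro u hu
      rw [r_ee_x1]
      exact Submodule.sub_mem _ (m1 (h.ee u hu)) (m2 hu)
    · intro u hu
      rw [r_ee_x2]
      exact m2 (h.ee u hu)
    · intro u hu
      rw [r_ee_x1, r_ee_x2, r_x2_x2, sub_zero]
      exact m12 (h.ee u hu)
  · apply locFinExt_stable
    · intro u hu; exact m0 (h.ff u hu)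
    · intro u hu
      rw [r_ff_x1]
      exact m1 (h.ff u hu)
    · intro u hu
      rw [r_ff_x2]
      exact Submodule.sub_mem _ (m2 (h.ff u hu)) (m1 hu)
    · intro u hu
      rw [r_ff_x1, r_ff_x2, map_sub, r_x1_x1, sub_zero]
      exact m12 (h.ff u hu)
  · apply locFinExt_stable
    · intro u hu; exact m1 hu
    · intro u hu
      rw [r_x1_x1]; exact Submodule.zero_mem _
    · intro u hu; exact m12 hu
    · intro u hu
      rw [r_x1_x1]; exact Submodule.zero_mem _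
  · apply locFinExt_stable
    · intro u hu; exact m2 hu
    · intro u hu
      rw [r_x2_x1]; exact Submodule.neg_mem _ (m12 hu)
    · intro u hu
      rw [r_x2_x2]; exact Submodule.zero_mem _
    · intro u hu
      rw [r_x2_x1, r_x2_x2, map_zero, neg_zero]; exact Submodule.zero_mem _

lemma locFin_y (R : LRep 1 2 V) (U : Submodule ℂ V) (h : LocFinEven R U)
    (hx1 : ∀ w ∈ U, R.a x1 w ∈ U) (hx2 : ∀ w ∈ U, R.a x2 w ∈ U) :
    LocFinEven R (locFinExt R y1 y2 U) ∧
    (∀ w ∈ locFinExt R y1 y2 U, R.a x1 w ∈ locFinExt R y1 y2 U) ∧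
    (∀ w ∈ locFinExt R y1 y2 U, R.a x2 w ∈ locFinExt R y1 y2 U) ∧
    (∀ w ∈ locFinExt R y1 y2 U, R.a y1 w ∈ locFinExt R y1 y2 U) ∧
    (∀ w ∈ locFinExt R y1 y2 U, R.a y2 w ∈ locFinExt R y1 y2 U) := by
  have m0 := fun {u : V} (hu : u ∈ U) => locFinExt_m0 R y1 y2 U hu
  have m1 := fun {u : V} (hu : u ∈ U) => locFinExt_m1 R y1 y2 U hu
  have m2 := fun {u : V} (hu : u ∈ U) => locFinExt_m2 R y1 y2 U hu
  have m12 := fun {u : V} (hu : u ∈ U) => locFinExt_m12 R y1 y2 U hu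
  refine ⟨⟨locFinExt_par R y1 y2 y1_odd y2_odd U h.par, ?_, ?_, ?_, ?_, ?_⟩, ?_, ?_, ?_, ?_⟩
  · apply locFinExt_stable
    · intro u hu; exact m0 (h.h0 u hu)
    · intro u hu
      rw [r_h0_y1]
      exact Submodule.sub_mem _ (m1 (h.h0 u hu)) (m1 hu)
    · intro u hu
      rw [r_h0_y2]
      exact Submodule.sub_mem _ (m2 (h.h0 u hu)) (m2 hu)
    · intro u hu
      rw [r_h0_y1, r_h0_y2, map_sub]
      exact Submodule.sub_mem _ (Submodule.sub_mem _ (m12 (h.h0 u hu)) (m12 hu)) (m12 hu)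
  · apply locFinExt_stable
    · intro u hu; exact m0 (h.h1 u hu)
    · intro u hu
      rw [r_h1_y1]
      exact Submodule.add_mem _ (m1 (h.h1 u hu)) (m1 hu)
    · intro u hu
      rw [r_h1_y2]
      exact m2 (h.h1 u hu)
    · intro u hu
      rw [r_h1_y1, r_h1_y2]
      exact Submodule.add_mem _ (m12 (h.h1 u hu)) (m12 hu)
  · apply locFinExt_stable
    · intro u hu; exact m0 (h.h2 u hu)
    · intro u hu
      rw [r_h2_y1]
      exact m1 (h.h2 u hu)
    · intro u hu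
      rw [r_h2_y2]
      exact Submodule.add_mem _ (m2 (h.h2 u hu)) (m2 hu)
    · intro u hu
      rw [r_h2_y1, r_h2_y2, map_add]
      exact Submodule.add_mem _ (m12 (h.h2 u hu)) (m12 hu)
  · apply locFinExt_stable
    · intro u hu; exact m0 (h.ee u hu)
    · intro u hu
      rw [r_ee_y1]
      exact m1 (h.ee u hu)
    · intro u hu
      rw [r_ee_y2]
      exact Submodule.add_mem _ (m2 (h.ee u hu)) (m1 hu)
    · intro u hu
      rw [r_ee_y1, r_ee_y2, map_add, r_y1_y1, add_zero]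
      exact m12 (h.ee u hu)
  · apply locFinExt_stable
    · intro u hu; exact m0 (h.ff u hu)
    · intro u hu
      rw [r_ff_y1]
      exact Submodule.add_mem _ (m1 (h.ff u hu)) (m2 hu)
    · intro u hu
      rw [r_ff_y2]
      exact m2 (h.ff u hu)
    · intro u hu
      rw [r_ff_y1, r_ff_y2, r_y2_y2, add_zero]
      exact m12 (h.ff u hu)
  · apply locFinExt_stable
    · intro u hu; exact m0 (hx1 u hu)
    · intro u hu
      rw [r_x1_y1]
      exact Submodule.add_mem _ (Submodule.add_mem _ (Submodule.neg_mem _ (m1 (hx1 u hu)))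
        (m0 (h.h0 u hu))) (m0 (h.h1 u hu))
    · intro u hu
      rw [r_x1_y2]
      exact Submodule.add_mem _ (Submodule.neg_mem _ (m2 (hx1 u hu))) (m0 (h.ff u hu))
    · intro u hu
      rw [r_x1_y1, r_x1_y2, r_h0_y2, r_h1_y2, map_add, map_neg]
      refine Submodule.add_mem _ (Submodule.add_mem _ (Submodule.neg_mem _
        (Submodule.add_mem _ (Submodule.neg_mem _ (m12 (hx1 u hu))) (m1 (h.ff u hu))))
        (Submodule.sub_mem _ (m2 (h.h0 u hu)) (m2 hu))) (m2 (h.h1 u hu))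
  · apply locFinExt_stable
    · intro u hu; exact m0 (hx2 u hu)
    · intro u hu
      rw [r_x2_y1]
      exact Submodule.add_mem _ (Submodule.neg_mem _ (m1 (hx2 u hu))) (m0 (h.ee u hu))
    · intro u hu
      rw [r_x2_y2]
      exact Submodule.add_mem _ (Submodule.add_mem _ (Submodule.neg_mem _ (m2 (hx2 u hu)))
        (m0 (h.h0 u hu))) (m0 (h.h2 u hu))
    · intro u hu
      rw [r_x2_y1, r_x2_y2, r_ee_y2, map_add, map_add, map_neg]
      refine Submodule.add_mem _ (Submodule.neg_mem _ (Submodule.add_mem _ (Submodule.add_mem _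
        (Submodule.neg_mem _ (m12 (hx2 u hu))) (m1 (h.h0 u hu))) (m1 (h.h2 u hu))))
        (Submodule.add_mem _ (m2 (h.ee u hu)) (m1 hu))
  · apply locFinExt_stable
    · intro u hu; exact m1 hu
    · intro u hu
      rw [r_y1_y1]; exact Submodule.zero_mem _
    · intro u hu; exact m12 hu
    · intro u hu
      rw [r_y1_y1]; exact Submodule.zero_mem _
  · apply locFinExt_stable
    · intro u hu; exact m2 hu
    · intro u hu
      rw [r_y2_y1]; exact Submodule.neg_mem _ (m12 hu)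
    · intro u hu
      rw [r_y2_y2]; exact Submodule.zero_mem _
    · intro u hu
      rw [r_y2_y1, r_y2_y2, map_zero, neg_zero]; exact Submodule.zero_mem _

/-- the even stable finite dimensional subspace generated by `v` -/
lemma locFin_base (A : SMod 1 2) (v : A.V) : ∃ U : Submodule ℂ A.V, v ∈ U ∧
    FiniteDimensional ℂ U ∧ LocFinEven A.L U := by
  let S : Set A.V := Set.range (fun g => A.ρ g v) ∪ Set.range (fun g => A.ρ g (A.L.par v))
  let U : Submodule ℂ A.V := Submodule.span ℂ S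
  have hρ : ∀ g, ∀ w ∈ U, A.ρ g w ∈ U := by
    intro g
    have key : U ≤ U.comap (A.ρ g) := by
      apply Submodule.span_le.2
      rintro w (⟨k, rfl⟩ | ⟨k, rfl⟩)
      · apply Submodule.subset_span
        left
        exact ⟨g * k, A.ρ_mul g k v⟩
      · apply Submodule.subset_span
        right
        exact ⟨g * k, A.ρ_mul g k _⟩
    exact fun w hw => key hw
  have hpar : ∀ w ∈ U, A.L.par w ∈ U := by
    have key : U ≤ U.comap A.L.par := by
      apply Submodule.span_le.2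
      rintro w (⟨k, rfl⟩ | ⟨k, rfl⟩)
      · apply Submodule.subset_span
        right
        exact ⟨k, (A.par_ρ k v).symm⟩
      · apply Submodule.subset_span
        left
        refine ⟨k, ?_⟩
        change A.ρ k v = A.L.par (A.ρ k (A.L.par v))
        rw [A.par_ρ, A.L.par_par]
    exact fun w hw => key hw
  refine ⟨U, ?_, ?_, ⟨hpar, ?_, ?_, ?_, ?_, ?_⟩⟩
  · apply Submodule.subset_span
    left
    exact ⟨1, A.ρ_one v⟩
  · obtain ⟨ι, h1, P, w, hw, _⟩ := A.rat v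
    obtain ⟨κ, h2, Q, u, hu, _⟩ := A.rat (A.L.par v)
    let F : Submodule ℂ A.V := Submodule.span ℂ (Set.range w) ⊔ Submodule.span ℂ (Set.range u)
    have hle : U ≤ F := by
      apply Submodule.span_le.2
      rintro z (⟨k, rfl⟩ | ⟨k, rfl⟩)
      · apply (le_sup_left : Submodule.span ℂ (Set.range w) ≤ F)
        change A.ρ k v ∈ _
        rw [hw k]
        exact Submodule.sum_mem _ (fun i _ => Submodule.smul_mem _ _
          (Submodule.subset_span ⟨i, rfl⟩))
      · apply (le_sup_right : Submodule.span ℂ (Set.range u) ≤ F)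
        change A.ρ k (A.L.par v) ∈ _
        rw [hu k]
        exact Submodule.sum_mem _ (fun i _ => Submodule.smul_mem _ _
          (Submodule.subset_span ⟨i, rfl⟩))
    have hw' : FiniteDimensional ℂ (Submodule.span ℂ (Set.range w)) :=
      FiniteDimensional.span_of_finite ℂ (Set.finite_range w)
    have hu' : FiniteDimensional ℂ (Submodule.span ℂ (Set.range u)) :=
      FiniteDimensional.span_of_finite ℂ (Set.finite_range u)
    have hF : FiniteDimensional ℂ F := Submodule.finiteDimensional_sup _ _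
    exact Submodule.finiteDimensional_of_le hle
  · exact a_mem_of_curve A isCurve_d0 U (fun t w hw => hρ _ w hw)
  · exact a_mem_of_curve A isCurve_d1 U (fun t w hw => hρ _ w hw)
  · exact a_mem_of_curve A isCurve_d2 U (fun t w hw => hρ _ w hw)
  · exact a_mem_of_curve A isCurve_uu U (fun t w hw => hρ _ w hw)
  · exact a_mem_of_curve A isCurve_ll U (fun t w hw => hρ _ w hw)

end locfin

theorem locfin (A : SMod 1 2) (v : A.V) : ∃ U : Submodule ℂ A.V, v ∈ U ∧ FiniteDimensional ℂ U ∧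
    (∀ w ∈ U, A.L.par w ∈ U) ∧ ∀ X, ∀ w ∈ U, A.L.a X w ∈ U := by
  obtain ⟨U, hv, hU, hE⟩ := locFin_base A v
  obtain ⟨h1, h2, h3⟩ := locFin_x A.L U hE
  obtain ⟨k1, k2, k3, k4, k5⟩ := locFin_y A.L (locFinExt A.L x1 x2 U) h1 h2 h3
  refine ⟨locFinExt A.L y1 y2 (locFinExt A.L x1 x2 U), ?_, ?_, k1.par, ?_⟩
  · exact locFinExt_m0 _ _ _ _ (locFinExt_m0 _ _ _ _ hv)
  · exact locFinExt_fin _ _ _ _ (locFinExt_fin _ _ _ _ hU)
  · intro X w hw
    rw [gl_expand X]
    simp only [map_add, map_smul, LinearMap.add_apply, LinearMap.smul_apply]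
    exact Submodule.add_mem _ (Submodule.add_mem _ (Submodule.add_mem _ (Submodule.add_mem _
      (Submodule.add_mem _ (Submodule.add_mem _ (Submodule.add_mem _ (Submodule.add_mem _
      (Submodule.smul_mem _ _ (k1.h0 w hw)) (Submodule.smul_mem _ _ (k1.h1 w hw)))
      (Submodule.smul_mem _ _ (k1.h2 w hw))) (Submodule.smul_mem _ _ (k1.ee w hw)))
      (Submodule.smul_mem _ _ (k1.ff w hw))) (Submodule.smul_mem _ _ (k2 w hw)))
      (Submodule.smul_mem _ _ (k3 w hw))) (Submodule.smul_mem _ _ (k4 w hw)))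
      (Submodule.smul_mem _ _ (k5 w hw))

theorem nilp_ee (A : SMod 1 2) (v : A.V) : ∃ k, ((A.L.a ee : Module.End ℂ A.V) ^ k) v = 0 :=
  nilp A isCurve_uu uu_add emb_uu emb_uu_inv v

theorem nilp_ff (A : SMod 1 2) (v : A.V) : ∃ k, ((A.L.a ff : Module.End ℂ A.V) ^ k) v = 0 :=
  nilp A isCurve_ll ll_add emb_ll emb_ll_inv v

theorem nilp_fin {E : Type} [AddCommGroup E] [Module ℂ E] [FiniteDimensional ℂ E]
    (T : Module.End ℂ E) (h : ∀ v, ∃ k, (T ^ k) v = 0) : ∃ k, T ^ k = 0 :=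
  Module.End.isNilpotent_iff_of_finite.2 h

lemma locFin_sub_pow {V : Type} [AddCommGroup V] [Module ℂ V] (R : LRep 1 2 V)
    (U : Submodule ℂ V) (hp : ∀ w ∈ U, R.par w ∈ U) (ha : ∀ X, ∀ w ∈ U, R.a X w ∈ U)
    (X : gl 1 2) (k : ℕ) (u : U) :
    ((((R.sub U hp ha).a X : Module.End ℂ U) ^ k) u : V) =
      ((R.a X : Module.End ℂ V) ^ k) (u : V) := by
  induction k generalizing u with
  | zero => rfl
  | succ k ih =>
    rw [pow_succ, pow_succ]
    exact ih ((R.sub U hp ha).a X u)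

/-- on a finite dimensional stable subspace `ee` and `ff` are nilpotent -/
theorem nilp_sub (A : SMod 1 2) (U : Submodule ℂ A.V) (hU : FiniteDimensional ℂ U)
    (hp : ∀ w ∈ U, A.L.par w ∈ U) (ha : ∀ X, ∀ w ∈ U, A.L.a X w ∈ U) :
    ∃ N, (((A.L.sub U hp ha).a ee : Module.End ℂ U) ^ N = 0) ∧
      (((A.L.sub U hp ha).a ff : Module.End ℂ U) ^ N = 0) := by
  obtain ⟨N, hN⟩ := nilp_fin ((A.L.sub U hp ha).a ee : Module.End ℂ U) (fun u => by
    obtain ⟨k, hk⟩ := nilp_ee A (u : A.V)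
    refine ⟨k, Subtype.ext ?_⟩
    rw [locFin_sub_pow, hk]
    rfl)
  obtain ⟨M, hM⟩ := nilp_fin ((A.L.sub U hp ha).a ff : Module.End ℂ U) (fun u => by
    obtain ⟨k, hk⟩ := nilp_ff A (u : A.V)
    refine ⟨k, Subtype.ext ?_⟩
    rw [locFin_sub_pow, hk]
    rfl)
  exact ⟨N + M, by rw [pow_add, hN, zero_mul], by rw [pow_add, hM, mul_zero]⟩

theorem nilp_fd (A : SMod 1 2) (hA : FinDim A) :
    ∃ N, ((A.L.a ee : Module.End ℂ A.V) ^ N = 0) ∧ ((A.L.a ff : Module.End ℂ A.V) ^ N = 0) := by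
  have hA' : FiniteDimensional ℂ A.V := hA
  obtain ⟨N, hN⟩ := nilp_fin (A.L.a ee : Module.End ℂ A.V) (nilp_ee A)
  obtain ⟨M, hM⟩ := nilp_fin (A.L.a ff : Module.End ℂ A.V) (nilp_ff A)
  exact ⟨N + M, by rw [pow_add, hN, zero_mul], by rw [pow_add, hM, mul_zero]⟩

end Pool.Agent.SGp
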