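import Pool.Agent.SGp.Rels

/-!
# Module XMinus: a four dimensional module with a nonsplit trivial submodule (opposite type)

The module has basis `1, η1, η2, η12` (use `V = Fin 4 → ℂ`), `1, η12` even, `η1, η2` odd:
`x1 η1 = 1`, `x2 η2 = 1`, `x1 η12 = η2`, `x2 η12 = - η1`, `y1 η2 = - η12`, `y2 η1 = η12`, and zero
otherwise; `E_{ij} η_k = δ_{jk} η_i` (`i, j, k ∈ {1, 2}`), `h0 η_k = - η_k`, `h0 η12 = - 2 η12`,
`h1 η12 = h2 η12 = η12`, `ee η12 = ff η12 = 0`, and the even elements kill `1`.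
Group: `g = (e, A)`: `1 ↦ 1`, `η_k ↦ e⁻¹ ∑_i A_{ik} η_i`, `η12 ↦ e⁻² det(A) η12`.
-/

namespace Pool.Agent.SGp

open Matrix

noncomputable section

/-- the action of the Lie superalgebra -/
def XMinus_M (X : gl 1 2) : Matrix (Fin 4) (Fin 4) ℂ :=
  !![0, X p0 p1, X p0 p2, 0;
     0, X p1 p1 - X p0 p0, X p1 p2, -X p0 p2;
     0, X p2 p1, X p2 p2 - X p0 p0, X p0 p1;
     0, X p2 p0, -X p1 p0, X p1 p1 + X p2 p2 - 2 * X p0 p0]

/-- the parity -/
def XMinus_D : Matrix (Fin 4) (Fin 4) ℂ :=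
  !![1, 0, 0, 0; 0, -1, 0, 0; 0, 0, -1, 0; 0, 0, 0, 1]

/-- the action of the group, as polynomials -/
def XMinus_P : Matrix (Fin 4) (Fin 4) (Reg 1 2) :=
  !![1, 0, 0, 0;
     0, MvPolynomial.X (Sum.inr (p0, p0)) * MvPolynomial.X (Sum.inl (p1, p1)),
        MvPolynomial.X (Sum.inr (p0, p0)) * MvPolynomial.X (Sum.inl (p1, p2)), 0;
     0, MvPolynomial.X (Sum.inr (p0, p0)) * MvPolynomial.X (Sum.inl (p2, p1)),
        MvPolynomial.X (Sum.inr (p0, p0)) * MvPolynomial.X (Sum.inl (p2, p2)), 0;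
     0, 0, 0, MvPolynomial.X (Sum.inr (p0, p0)) * MvPolynomial.X (Sum.inr (p0, p0)) *
        (MvPolynomial.X (Sum.inl (p1, p1)) * MvPolynomial.X (Sum.inl (p2, p2)) -
          MvPolynomial.X (Sum.inl (p1, p2)) * MvPolynomial.X (Sum.inl (p2, p1)))]

/-- the action of the group -/
def XMinus_N (g : G0 1 2) : Matrix (Fin 4) (Fin 4) ℂ :=
  !![1, 0, 0, 0;
     0, emb g⁻¹ p0 p0 * emb g p1 p1, emb g⁻¹ p0 p0 * emb g p1 p2, 0;
     0, emb g⁻¹ p0 p0 * emb g p2 p1, emb g⁻¹ p0 p0 * emb g p2 p2, 0;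
     0, 0, 0, emb g⁻¹ p0 p0 * emb g⁻¹ p0 p0 * (emb g p1 p1 * emb g p2 p2 - emb g p1 p2 * emb g p2 p1)]

lemma XMinus_rv (g : G0 1 2) (i j : Fin 4) : rv (XMinus_P i j) g = XMinus_N g i j := by
  fin_cases i <;> fin_cases j <;> simp [XMinus_P, XMinus_N]

lemma XMinus_dv (X : gl 1 2) (hX : X ∈ evenM 1 2) (i j : Fin 4) :
    dv (XMinus_P i j) X = XMinus_M X i j := by
  have e1 : X p0 p1 = 0 := hX.1 0 0
  have e2 : X p0 p2 = 0 := hX.1 0 1
  have e3 : X p1 p0 = 0 := hX.2 0 0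
  have e4 : X p2 p0 = 0 := hX.2 0 1
  fin_cases i <;> fin_cases j <;> simp [XMinus_P, XMinus_M, e1, e2, e3, e4] <;> ring

lemma XMinus_expand (A : Matrix (Fin 4) (Fin 4) ℂ) (v : Fin 4 → ℂ) :
    A.mulVecLin v = ∑ p : Fin 4 × Fin 4, A p.1 p.2 • (v p.2 • (Pi.single p.1 (1 : ℂ) : Fin 4 → ℂ)) := by
  ext i
  rw [Fintype.sum_prod_type]
  simp only [Matrix.mulVecLin_apply, Matrix.mulVec, dotProduct, Fin.sum_univ_four, Pi.add_apply,
    Pi.smul_apply, smul_eq_mul]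
  fin_cases i <;> simp

lemma XMinus_even (X : gl 1 2) (hX : X ∈ evenM 1 2) :
    XMinus_D * XMinus_M X = XMinus_M X * XMinus_D := by
  have e1 : X p0 p1 = 0 := hX.1 0 0
  have e2 : X p0 p2 = 0 := hX.1 0 1
  have e3 : X p1 p0 = 0 := hX.2 0 0
  have e4 : X p2 p0 = 0 := hX.2 0 1
  ext i j
  fin_cases i <;> fin_cases j <;>
    simp [XMinus_D, XMinus_M, Matrix.mul_apply, Fin.sum_univ_four, e1, e2, e3, e4]

lemma XMinus_odd (X : gl 1 2) (hX : X ∈ oddM 1 2) :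
    XMinus_D * XMinus_M X = -(XMinus_M X * XMinus_D) := by
  have e0 : X p0 p0 = 0 := hX.1 0 0
  have e1 : X p1 p1 = 0 := hX.2 0 0
  have e2 : X p1 p2 = 0 := hX.2 0 1
  have e3 : X p2 p1 = 0 := hX.2 1 0
  have e4 : X p2 p2 = 0 := hX.2 1 1
  ext i j
  fin_cases i <;> fin_cases j <;>
    simp [XMinus_D, XMinus_M, Matrix.mul_apply, Fin.sum_univ_four, e0, e1, e2, e3, e4]

lemma XMinus_lie_even (X : gl 1 2) (hX : X ∈ evenM 1 2) (Y : gl 1 2) :
    XMinus_M X * XMinus_M Y - XMinus_M Y * XMinus_M X = XMinus_M (X * Y - Y * X) := by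
  have e1 : X p0 p1 = 0 := hX.1 0 0
  have e2 : X p0 p2 = 0 := hX.1 0 1
  have e3 : X p1 p0 = 0 := hX.2 0 0
  have e4 : X p2 p0 = 0 := hX.2 0 1
  ext i j
  fin_cases i <;> fin_cases j <;>
    simp [XMinus_M, Matrix.mul_apply, Fin.sum_univ_four, Fintype.sum_sum_type, e1, e2, e3, e4] <;>
    ring

lemma XMinus_lie_odd (X : gl 1 2) (hX : X ∈ oddM 1 2) (Y : gl 1 2) (hY : Y ∈ oddM 1 2) :
    XMinus_M X * XMinus_M Y + XMinus_M Y * XMinus_M X = XMinus_M (X * Y + Y * X) := by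
  have e0 : X p0 p0 = 0 := hX.1 0 0
  have e1 : X p1 p1 = 0 := hX.2 0 0
  have e2 : X p1 p2 = 0 := hX.2 0 1
  have e3 : X p2 p1 = 0 := hX.2 1 0
  have e4 : X p2 p2 = 0 := hX.2 1 1
  have f0 : Y p0 p0 = 0 := hY.1 0 0
  have f1 : Y p1 p1 = 0 := hY.2 0 0
  have f2 : Y p1 p2 = 0 := hY.2 0 1
  have f3 : Y p2 p1 = 0 := hY.2 1 0
  have f4 : Y p2 p2 = 0 := hY.2 1 1
  ext i j
  fin_cases i <;> fin_cases j <;>
    simp [XMinus_M, Matrix.mul_apply, Fin.sum_univ_four, Fintype.sum_sum_type, e0, e1, e2, e3, e4,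
      f0, f1, f2, f3, f4] <;>
    ring

lemma XMinus_N_one : XMinus_N 1 = 1 := by
  ext i j
  fin_cases i <;> fin_cases j <;> simp [XMinus_N, emb_one]

lemma XMinus_inv_mul (g h : G0 1 2) :
    emb (g * h)⁻¹ p0 p0 = emb g⁻¹ p0 p0 * emb h⁻¹ p0 p0 := by
  have e3 : ∀ k : Fin 2, emb h⁻¹ (Sum.inl 0) (Sum.inr k) = 0 := fun k => (emb_even h⁻¹).1 0 k
  rw [_root_.mul_inv_rev, emb_mul, Matrix.mul_apply, Fintype.sum_sum_type]
  simp only [Fin.sum_univ_two, e3, Finset.univ_unique, Fin.default_eq_zero, Fin.isValue,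
    Finset.sum_singleton]
  ring

lemma XMinus_mul (g h : G0 1 2) (i j : Fin 2) :
    emb (g * h) (Sum.inr i) (Sum.inr j) = emb g (Sum.inr i) p1 * emb h p1 (Sum.inr j) +
      emb g (Sum.inr i) p2 * emb h p2 (Sum.inr j) := by
  have e1 : ∀ k : Fin 2, emb g (Sum.inr k) (Sum.inl 0) = 0 := fun k => (emb_even g).2 0 k
  rw [emb_mul, Matrix.mul_apply, Fintype.sum_sum_type]
  simp only [Fin.sum_univ_two, e1, Finset.univ_unique, Fin.default_eq_zero, Fin.isValue,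
    Finset.sum_singleton]
  ring

lemma XMinus_N_mul (g h : G0 1 2) : XMinus_N (g * h) = XMinus_N g * XMinus_N h := by
  ext i j
  fin_cases i <;> fin_cases j <;>
    simp [XMinus_N, XMinus_inv_mul, XMinus_mul, Matrix.mul_apply, Fin.sum_univ_four,
      -_root_.mul_inv_rev, -emb_mul] <;> ring

lemma XMinus_ad (g : G0 1 2) (X : gl 1 2) :
    XMinus_N g * XMinus_M X = XMinus_M (emb g * X * emb g⁻¹) * XMinus_N g := by
  have z1 : ∀ k : Fin 2, emb g (Sum.inr k) (Sum.inl 0) = 0 := fun k => (emb_even g).2 0 k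
  have z2 : ∀ k : Fin 2, emb g (Sum.inl 0) (Sum.inr k) = 0 := fun k => (emb_even g).1 0 k
  have z3 : ∀ k : Fin 2, emb g⁻¹ (Sum.inr k) (Sum.inl 0) = 0 := fun k => (emb_even g⁻¹).2 0 k
  have z4 : ∀ k : Fin 2, emb g⁻¹ (Sum.inl 0) (Sum.inr k) = 0 := fun k => (emb_even g⁻¹).1 0 k
  have q00 : (emb g * X * emb g⁻¹) p0 p0 = emb g p0 p0 * X p0 p0 * emb g⁻¹ p0 p0 := by
    simp [Matrix.mul_apply, Fintype.sum_sum_type, Fin.sum_univ_two, z1, z2, z3, z4]
  have q0 : ∀ j : Fin 2, (emb g * X * emb g⁻¹) p0 (Sum.inr j) =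
      emb g p0 p0 * (X p0 p1 * emb g⁻¹ p1 (Sum.inr j) + X p0 p2 * emb g⁻¹ p2 (Sum.inr j)) := by
    intro j
    simp [Matrix.mul_apply, Fintype.sum_sum_type, Fin.sum_univ_two, z1, z2, z3, z4]
    ring
  have q1 : ∀ i : Fin 2, (emb g * X * emb g⁻¹) (Sum.inr i) p0 =
      (emb g (Sum.inr i) p1 * X p1 p0 + emb g (Sum.inr i) p2 * X p2 p0) * emb g⁻¹ p0 p0 := by
    intro i
    simp [Matrix.mul_apply, Fintype.sum_sum_type, Fin.sum_univ_two, z1, z2, z3, z4]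
  have q2 : ∀ i j : Fin 2, (emb g * X * emb g⁻¹) (Sum.inr i) (Sum.inr j) =
      (emb g (Sum.inr i) p1 * X p1 p1 + emb g (Sum.inr i) p2 * X p2 p1) * emb g⁻¹ p1 (Sum.inr j) +
      (emb g (Sum.inr i) p1 * X p1 p2 + emb g (Sum.inr i) p2 * X p2 p2) *
        emb g⁻¹ p2 (Sum.inr j) := by
    intro i j
    simp [Matrix.mul_apply, Fintype.sum_sum_type, Fin.sum_univ_two, z1, z2, z3, z4]
  have r0 : emb g p0 p0 * emb g⁻¹ p0 p0 = 1 := by
    have := congrFun (congrFun (emb_mul_inv g) p0) p0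
    simpa [Matrix.mul_apply, Fintype.sum_sum_type, Fin.sum_univ_two, z1, z2, z3, z4] using this
  have r1 : ∀ i j : Fin 2, emb g⁻¹ (Sum.inr i) p1 * emb g p1 (Sum.inr j) +
      emb g⁻¹ (Sum.inr i) p2 * emb g p2 (Sum.inr j) = if i = j then 1 else 0 := by
    intro i j
    have := congrFun (congrFun (emb_inv_mul g) (Sum.inr i)) (Sum.inr j)
    simpa [Matrix.mul_apply, Fintype.sum_sum_type, Fin.sum_univ_two, z1, z2, z3, z4,
      Matrix.one_apply] using this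
  have r11 := r1 0 0
  have r12 := r1 0 1
  have r21 := r1 1 0
  have r22 := r1 1 1
  simp only [Fin.isValue, if_true, if_false, zero_ne_one, one_ne_zero, reduceIte] at r11 r12 r21 r22
  have q01 := q0 0
  have q02 := q0 1
  have q10 := q1 0
  have q20 := q1 1
  have q11 := q2 0 0
  have q12 := q2 0 1
  have q21 := q2 1 0
  have q22 := q2 1 1
  clear q0 q1 q2 r1 z1 z2 z3 z4
  generalize emb g * X * emb g⁻¹ = Y at *
  ext i j
  fin_cases i <;> fin_cases j <;>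
    simp [XMinus_N, XMinus_M, Matrix.mul_apply, Fin.sum_univ_four]
  all_goals
    simp only [q00, q01, q02, q10, q20, q11, q12, q21, q22]
    generalize emb g p0 p0 = e at *
    generalize emb g⁻¹ p0 p0 = c at *
    generalize emb g p1 p1 = a11 at *
    generalize emb g p1 p2 = a12 at *
    generalize emb g p2 p1 = a21 at *
    generalize emb g p2 p2 = a22 at *
    generalize emb g⁻¹ p1 p1 = b11 at *
    generalize emb g⁻¹ p1 p2 = b12 at *
    generalize emb g⁻¹ p2 p1 = b21 at *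
    generalize emb g⁻¹ p2 p2 = b22 at *
    generalize X p0 p0 = x00 at *
    generalize X p0 p1 = x01 at *
    generalize X p0 p2 = x02 at *
    generalize X p1 p0 = x10 at *
    generalize X p2 p0 = x20 at *
    generalize X p1 p1 = x11 at *
    generalize X p1 p2 = x12 at *
    generalize X p2 p1 = x21 at *
    generalize X p2 p2 = x22 at *
    clear q00 q01 q02 q10 q20 q11 q12 q21 q22
  · linear_combination (-(e * c * x01)) * r11 - e * c * x02 * r21 - x01 * r0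
  · linear_combination (-(e * c * x01)) * r12 - e * c * x02 * r22 - x02 * r0
  all_goals grind

lemma XMinus_M_add (X Y : gl 1 2) : XMinus_M (X + Y) = XMinus_M X + XMinus_M Y := by
  ext i j
  fin_cases i <;> fin_cases j <;> simp [XMinus_M] <;> ring

lemma XMinus_M_smul (c : ℂ) (X : gl 1 2) : XMinus_M (c • X) = c • XMinus_M X := by
  ext i j
  fin_cases i <;> fin_cases j <;> simp [XMinus_M] <;> ring

lemma XMinus_D_sq : XMinus_D * XMinus_D = 1 := by
  ext i j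
  fin_cases i <;> fin_cases j <;> simp [XMinus_D, Matrix.mul_apply, Fin.sum_univ_four]

lemma XMinus_DN (g : G0 1 2) : XMinus_D * XMinus_N g = XMinus_N g * XMinus_D := by
  ext i j
  fin_cases i <;> fin_cases j <;> simp [XMinus_D, XMinus_N, Matrix.mul_apply, Fin.sum_univ_four]

lemma XMinus_vv (A B : Matrix (Fin 4) (Fin 4) ℂ) (v : Fin 4 → ℂ) :
    A.mulVecLin (B.mulVecLin v) = (A * B).mulVecLin v := by
  simp [Matrix.mulVec_mulVec]

/-- the representation of the Lie superalgebra -/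
def XMinus_L : LRep 1 2 (Fin 4 → ℂ) where
  par := XMinus_D.mulVecLin
  a := { toFun := fun X => (XMinus_M X).mulVecLin
         map_add' := fun X Y => by rw [XMinus_M_add, Matrix.mulVecLin_add]
         map_smul' := fun c X => by
          rw [XMinus_M_smul]
          ext v
          simp [Matrix.smul_mulVec] }
  par_par := fun v => by rw [XMinus_vv, XMinus_D_sq]; simp
  par_even := fun X hX v => by
    show XMinus_D.mulVecLin ((XMinus_M X).mulVecLin v) = (XMinus_M X).mulVecLin (XMinus_D.mulVecLin v)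
    rw [XMinus_vv, XMinus_vv, XMinus_even X hX]
  par_odd := fun X hX v => by
    show XMinus_D.mulVecLin ((XMinus_M X).mulVecLin v) =
      -(XMinus_M X).mulVecLin (XMinus_D.mulVecLin v)
    rw [XMinus_vv, XMinus_vv, XMinus_odd X hX]
    simp [Matrix.neg_mulVec]
  lie_even := fun X hX Y v => by
    show (XMinus_M X).mulVecLin ((XMinus_M Y).mulVecLin v) -
      (XMinus_M Y).mulVecLin ((XMinus_M X).mulVecLin v) = (XMinus_M (X * Y - Y * X)).mulVecLin v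
    rw [XMinus_vv, XMinus_vv, ← XMinus_lie_even X hX Y]
    simp [Matrix.sub_mulVec]
  lie_odd := fun X hX Y hY v => by
    show (XMinus_M X).mulVecLin ((XMinus_M Y).mulVecLin v) +
      (XMinus_M Y).mulVecLin ((XMinus_M X).mulVecLin v) = (XMinus_M (X * Y + Y * X)).mulVecLin v
    rw [XMinus_vv, XMinus_vv, ← XMinus_lie_odd X hX Y hY]
    simp [Matrix.add_mulVec]

/-- the module -/
def XMinus_X : SMod 1 2 where
  V := Fin 4 → ℂ
  L := XMinus_L
  ρ := fun g => (XMinus_N g).mulVecLin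
  ρ_one := fun v => by rw [XMinus_N_one]; simp
  ρ_mul := fun g h v => by rw [XMinus_vv, XMinus_N_mul]
  par_ρ := fun g v => by
    show XMinus_D.mulVecLin ((XMinus_N g).mulVecLin v) = (XMinus_N g).mulVecLin (XMinus_D.mulVecLin v)
    rw [XMinus_vv, XMinus_vv, XMinus_DN]
  ad := fun g X v => by
    show (XMinus_N g).mulVecLin ((XMinus_M X).mulVecLin v) =
      (XMinus_M (emb g * X * emb g⁻¹)).mulVecLin ((XMinus_N g).mulVecLin v)
    rw [XMinus_vv, XMinus_vv, XMinus_ad]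
  rat := fun v => by
    refine ⟨Fin 4 × Fin 4, inferInstance, fun p => XMinus_P p.1 p.2,
      fun p => v p.2 • (Pi.single p.1 (1 : ℂ) : Fin 4 → ℂ), fun g => ?_, fun X hX => ?_⟩
    · rw [XMinus_expand]
      exact Finset.sum_congr rfl fun p _ => by rw [XMinus_rv]
    · show (XMinus_M X).mulVecLin v = _
      rw [XMinus_expand]
      exact Finset.sum_congr rfl fun p _ => by rw [XMinus_dv X hX]

theorem xminus : ∃ (X : SMod 1 2) (j : ℂ →ₗ[ℂ] X.V) (r : X.V →ₗ[ℂ] ℂ),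
    IsGLin (triv 1 2) X j ∧ (∃ θ, X.L.a x1 θ = j 1) ∧ r (j 1) = 1 ∧
    (∀ v, r (X.L.par v) = r v) ∧ (∀ g v, r (X.ρ g v) = r v) ∧
    (∀ v, r (X.L.a y1 v) = 0) ∧ ∀ v, r (X.L.a y2 v) = 0 := by
  refine ⟨XMinus_X, LinearMap.toSpanSingleton ℂ (Fin 4 → ℂ) (Pi.single 0 1),
    (LinearMap.proj 0 : (Fin 4 → ℂ) →ₗ[ℂ] ℂ), ⟨?_, ?_, ?_⟩,
    ⟨(Pi.single 1 1 : Fin 4 → ℂ), ?_⟩, ?_, ?_, ?_, ?_, ?_⟩
  · rintro (c : ℂ)
    show c • (Pi.single 0 1 : Fin 4 → ℂ) = XMinus_D.mulVecLin (c • (Pi.single 0 1 : Fin 4 → ℂ))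
    ext i
    fin_cases i <;> simp [XMinus_D, Matrix.mulVec, dotProduct, Fin.sum_univ_four]
  · rintro g (c : ℂ)
    show c • (Pi.single 0 1 : Fin 4 → ℂ) = (XMinus_N g).mulVecLin (c • (Pi.single 0 1 : Fin 4 → ℂ))
    ext i
    fin_cases i <;> simp [XMinus_N, Matrix.mulVec, dotProduct, Fin.sum_univ_four]
  · rintro X (c : ℂ)
    show (0 : ℂ) • (Pi.single 0 1 : Fin 4 → ℂ) =
      (XMinus_M X).mulVecLin (c • (Pi.single 0 1 : Fin 4 → ℂ))
    ext i
    fin_cases i <;> simp [XMinus_M, Matrix.mulVec, dotProduct, Fin.sum_univ_four]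
  · show (XMinus_M x1).mulVecLin (Pi.single 1 1 : Fin 4 → ℂ) = (1 : ℂ) • (Pi.single 0 1 : Fin 4 → ℂ)
    ext i
    fin_cases i <;> simp [XMinus_M, x1, Matrix.mulVec, dotProduct, Fin.sum_univ_four, Matrix.single]
  · show ((1 : ℂ) • (Pi.single 0 1 : Fin 4 → ℂ)) 0 = 1
    simp
  · rintro (v : Fin 4 → ℂ)
    show (XMinus_D.mulVecLin v) 0 = v 0
    simp [XMinus_D, Matrix.mulVec, dotProduct, Fin.sum_univ_four]
  · rintro g (v : Fin 4 → ℂ)
    show ((XMinus_N g).mulVecLin v) 0 = v 0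
    simp [XMinus_N, Matrix.mulVec, dotProduct, Fin.sum_univ_four]
  · rintro (v : Fin 4 → ℂ)
    show ((XMinus_M y1).mulVecLin v) 0 = 0
    simp [XMinus_M, y1, Matrix.mulVec, dotProduct, Fin.sum_univ_four, Matrix.single]
  · rintro (v : Fin 4 → ℂ)
    show ((XMinus_M y2).mulVecLin v) 0 = 0
    simp [XMinus_M, y2, Matrix.mulVec, dotProduct, Fin.sum_univ_four, Matrix.single]

end

end Pool.Agent.SGp
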