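import Pool.Agent.SGp.XPlus
import Pool.Agent.SGp.XMinus

/-!
# Module NotProj: subgroups with odd part in one half are not large enough

Hints. General lemma: let `H` be closed, `X, j, r, θ`, an odd `Y` with `X.L.a Y θ = j 1`, and
`r : X → triv` be `H`-linear with `r (j 1) = 1`. Then `¬ HProj H (triv 1 2)`: suppose `I, ev, i, s`.
`IsInd.univ` gives `Φ : X → I`, `G`-linear with `ev ∘ Φ = r`. Put `c = ev (i 1)`. The `G`-linear maps
`i` and `c • (Φ ∘ j)` from `triv` to `I` have the same composition with `ev`, so they are equal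
(uniqueness in `IsInd.univ` for `triv`). So `1 = s (i 1) = c * s (Φ (j 1)) = c * s (Φ (Y θ)) =
c * (Y acting on s (Φ θ)) = 0`, as `Y` acts by zero on `triv`.
`H`-linearity of `r`: elements of `H.h1` are combinations of `x1, x2` (resp. `y1, y2`), and act by
zero on `triv`. Note `(triv 1 2).V` is `ℂ` by definition.
-/

namespace Pool.Agent.SGp

open Matrix

/-- the general argument -/
theorem notProj_gen (H : ClosedSub 1 2) (X : SMod 1 2) (j : ℂ →ₗ[ℂ] X.V) (r : X.V →ₗ[ℂ] ℂ)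
    (hj : IsGLin (triv 1 2) X j) (Y : gl 1 2) (θ : X.V) (hθ : X.L.a Y θ = j 1) (hrj : r (j 1) = 1)
    (hr : IsLin H X (triv 1 2) r) : ¬ HProj H (triv 1 2) := by
  rintro ⟨I, ev, hI, i, s, hi, hs, hsi⟩
  obtain ⟨Φ, ⟨hΦ, hevΦ⟩, -⟩ := hI.univ X r hr
  let ev' : I.V →ₗ[ℂ] ℂ := ev
  let i' : ℂ →ₗ[ℂ] I.V := i
  let s' : I.V →ₗ[ℂ] ℂ := s
  have hevΦ' : ∀ v, ev' (Φ v) = r v := hevΦ
  have hone : ∀ (f : ℂ →ₗ[ℂ] I.V) (v : ℂ), f v = v • f 1 := by
    intro f v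
    rw [← f.map_smul, smul_eq_mul, mul_one]
  have hj1 : ∀ v : ℂ, j v = v • j 1 := by
    intro v
    rw [← j.map_smul, smul_eq_mul, mul_one]
  have hlin : IsLin H (triv 1 2) (triv 1 2) (ev ∘ₗ i) := IsLin.comp_left hI.lin hi
  obtain ⟨ψ, -, huniq⟩ := hI.univ (triv 1 2) (ev ∘ₗ i) hlin
  have h1 : i = ψ := huniq i ⟨hi, fun v => rfl⟩
  let g' : ℂ →ₗ[ℂ] I.V := (ev' (i' 1)) • (Φ ∘ₗ j)
  have h2 : (g' : (triv 1 2).V →ₗ[ℂ] I.V) = ψ := by
    apply huniq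
    refine ⟨⟨fun v => ?_, fun g v => ?_, fun Z v => ?_⟩, fun v => ?_⟩
    · have e1 : Φ (j ((triv 1 2).L.par v)) = I.L.par (Φ (j v)) := (hΦ.comp hj).par v
      show (ev' (i' 1)) • Φ (j ((triv 1 2).L.par v)) = I.L.par ((ev' (i' 1)) • Φ (j v))
      rw [map_smul, e1]
    · have e1 : Φ (j ((triv 1 2).ρ g v)) = I.ρ g (Φ (j v)) := (hΦ.comp hj).ρ g v
      show (ev' (i' 1)) • Φ (j ((triv 1 2).ρ g v)) = I.ρ g ((ev' (i' 1)) • Φ (j v))
      rw [map_smul, e1]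
    · have e1 : Φ (j ((triv 1 2).L.a Z v)) = I.L.a Z (Φ (j v)) := (hΦ.comp hj).a Z v
      show (ev' (i' 1)) • Φ (j ((triv 1 2).L.a Z v)) = I.L.a Z ((ev' (i' 1)) • Φ (j v))
      rw [map_smul, e1]
    · have key : ∀ w : ℂ, ev' ((ev' (i' 1)) • Φ (j w)) = ev' (i' w) := by
        intro w
        rw [map_smul, hevΦ', hj1 w, map_smul, hrj, hone i' w, map_smul, smul_eq_mul, smul_eq_mul,
          smul_eq_mul, mul_one, mul_comm]
      exact key v
  have h3 : s' (i' 1) = 1 := hsi (1 : ℂ)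
  have h4 : i' 1 = (ev' (i' 1)) • Φ (j 1) := by
    have h6 := h1.trans h2.symm
    have h7 : i' = g' := h6
    have h8 := LinearMap.congr_fun h7 1
    exact h8
  have h5 : s' (Φ (j 1)) = 0 := by
    rw [← hθ, hΦ.a]
    exact hs.a Y (Φ θ)
  rw [h4, map_smul, h5, smul_zero] at h3
  exact zero_ne_one h3

theorem not_hproj_plus (H : ClosedSub 1 2) (h : H.h1 ≤ Submodule.span ℂ {x1, x2}) :
    ¬ HProj H (triv 1 2) := by
  obtain ⟨X, j, r, hj, ⟨θ, hθ⟩, hrj, hpar, hρ, hx1, hx2⟩ := xplus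
  refine notProj_gen H X j r hj y1 θ hθ hrj ⟨fun v => hpar v, fun g _ v => hρ g v, ?_⟩
  intro Z hZ v
  obtain ⟨a, b, rfl⟩ := Submodule.mem_span_pair.mp (h hZ)
  have e1 : r (X.L.a (a • x1 + b • x2) v) = a • r (X.L.a x1 v) + b • r (X.L.a x2 v) := by
    rw [map_add, map_smul, map_smul, LinearMap.add_apply, LinearMap.smul_apply,
      LinearMap.smul_apply, map_add, map_smul, map_smul]
  rw [hx1, hx2, smul_zero, smul_zero, add_zero] at e1
  exact e1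

theorem not_hproj_minus (H : ClosedSub 1 2) (h : H.h1 ≤ Submodule.span ℂ {y1, y2}) :
    ¬ HProj H (triv 1 2) := by
  obtain ⟨X, j, r, hj, ⟨θ, hθ⟩, hrj, hpar, hρ, hx1, hx2⟩ := xminus
  refine notProj_gen H X j r hj x1 θ hθ hrj ⟨fun v => hpar v, fun g _ v => hρ g v, ?_⟩
  intro Z hZ v
  obtain ⟨a, b, rfl⟩ := Submodule.mem_span_pair.mp (h hZ)
  have e1 : r (X.L.a (a • y1 + b • y2) v) = a • r (X.L.a y1 v) + b • r (X.L.a y2 v) := by
    rw [map_add, map_smul, map_smul, LinearMap.add_apply, LinearMap.smul_apply,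
      LinearMap.smul_apply, map_add, map_smul, map_smul]
  rw [hx1, hx2, smul_zero, smul_zero, add_zero] at e1
  exact e1

end Pool.Agent.SGp
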