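import Pool.Agent.SGp.Subs
import Pool.Agent.SGp.LocFin
import Pool.Agent.SGp.KeyAlg
import Pool.Agent.SGp.Ind

/-!
# Module PLev: every finite dimensional module is `lev`-projective

Hints. `ext_lim`: choose the eventual value; linear because two eventual values can be compared at
a common index. `lev_avg`: let `R = A.L.hom B.L`, `S K = W R K r`. For `v : A.V` take `U` from
`locfin A v`, `j = U.subtype`, `R' = (A.L.sub U _ _).hom B.L`; `S K ∘ j = W R' K (r ∘ j)` (`W_map`,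
`precomp_eqv`, `sub_eqv`); `R'.a ee`, `R'.a ff` are nilpotent of some order `N` (`nilp_sub`,
`nilp_fd`, `hom_nilp`), so for `K ≥ N` `S K ∘ j` is constant in `K` (`W_const`) and killed by all
`R'.a Y` (`keyK`; the hypotheses hold since `r` is `lev`-linear, `a_lin_of_curve` for `d0, d1, d2`,
`hom_a_zero_iff`), and even (`W_par`), so `S K ∘ j` is equivariant (`eqv_of_killed`). So the eventual
value `s` of `S K` commutes with `par` and all `a Y`; `IsGLin` by `glin_of_a`. Moreover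
`S K ∘ i = W (B.L.hom B.L) K (r ∘ i) = W _ K id = id` for `K > 0` (`W_map` with `precomp_eqv`, `W_fix`,
`killed_of_eqv`), so `s ∘ i = id`.
`hproj_lev`: `I, ev` from `exists_ind`; `i : M → I` from `IsInd.univ` applied to the identity; `s` from
`lev_avg` with `r = ev`.
-/

namespace Pool.Agent.SGp

open Matrix

theorem ext_lim {V W : Type} [AddCommGroup V] [Module ℂ V] [AddCommGroup W] [Module ℂ W]
    (S : ℕ → V →ₗ[ℂ] W) (h : ∀ v, ∃ N, ∀ K, N ≤ K → S K v = S N v) :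
    ∃ s : V →ₗ[ℂ] W, ∀ v, ∃ N, ∀ K, N ≤ K → S K v = s v := by
  choose N hN using h
  have key : ∀ v K, N v ≤ K → S K v = S (N v) v := fun v K hK => hN v K hK
  refine ⟨{ toFun := fun v => S (N v) v
            map_add' := fun v w => ?_
            map_smul' := fun c v => ?_ }, fun v => ⟨N v, fun K hK => hN v K hK⟩⟩
  · have h1 := key (v + w) (max (N (v + w)) (max (N v) (N w))) (le_max_left _ _)
    have h2 := key v (max (N (v + w)) (max (N v) (N w)))
      (le_trans (le_max_left _ _) (le_max_right _ _))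
    have h3 := key w (max (N (v + w)) (max (N v) (N w)))
      (le_trans (le_max_right _ _) (le_max_right _ _))
    show S (N (v + w)) (v + w) = S (N v) v + S (N w) w
    rw [← h1, ← h2, ← h3, map_add]
  · have h1 := key (c • v) (max (N (c • v)) (N v)) (le_max_left _ _)
    have h2 := key v (max (N (c • v)) (N v)) (le_max_right _ _)
    show S (N (c • v)) (c • v) = c • S (N v) v
    rw [← h1, ← h2, map_smul]

lemma plev_mem_x1 : x1 ∈ lev.h1 := Submodule.subset_span (by simp)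

lemma plev_mem_y1 : y1 ∈ lev.h1 := Submodule.subset_span (by simp)

/-- on a finite dimensional stable subspace the truncated averages are equivariant and constant -/
theorem plev_local (A B : SMod 1 2) (hB : FinDim B) (r : A.V →ₗ[ℂ] B.V) (hr : IsLin lev A B r)
    (U : Submodule ℂ A.V) (hU : FiniteDimensional ℂ U) (hp : ∀ w ∈ U, A.L.par w ∈ U)
    (ha : ∀ X, ∀ w ∈ U, A.L.a X w ∈ U) :
    ∃ N, ∀ K, N ≤ K → (∀ v ∈ U, W (A.L.hom B.L) K r v = W (A.L.hom B.L) N r v) ∧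
      (∀ v ∈ U, W (A.L.hom B.L) K r (A.L.par v) = B.L.par (W (A.L.hom B.L) K r v)) ∧
      ∀ X, ∀ v ∈ U, W (A.L.hom B.L) K r (A.L.a X v) = B.L.a X (W (A.L.hom B.L) K r v) := by
  set R' := (A.L.sub U hp ha).hom B.L with hR'
  have hj := sub_eqv A.L U hp ha
  have hpre := precomp_eqv (A.L.sub U hp ha) A.L B.L U.subtype hj
  set r' : U →ₗ[ℂ] B.V := LinearMap.lcomp ℂ B.V U.subtype r with hr'
  have hr'v : ∀ v : U, r' v = r v := fun v => rfl
  obtain ⟨N1, hN1e, hN1f⟩ := nilp_sub A U hU hp ha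
  obtain ⟨N2, hN2e, hN2f⟩ := nilp_fd B hB
  have he : (R'.a ee : Module.End ℂ (U →ₗ[ℂ] B.V)) ^ (N1 + N2) = 0 :=
    hom_nilp _ _ ee ee_even N1 N2 hN1e hN2e
  have hf : (R'.a ff : Module.End ℂ (U →ₗ[ℂ] B.V)) ^ (N1 + N2) = 0 :=
    hom_nilp _ _ ff ff_even N1 N2 hN1f hN2f
  have hpar : R'.par r' = r' := by
    rw [hR', hom_par]
    ext v
    show B.L.par (r (A.L.par v)) = r v
    rw [hr.par, B.L.par_par]
  have hcoe : ∀ X (v : U), (((A.L.sub U hp ha).a X v : U) : A.V) = A.L.a X (v : A.V) :=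
    fun X v => hj.a X v
  have kill : ∀ X, (X ∈ evenM 1 2 ∨ X ∈ oddM 1 2) → (∀ v, r (A.L.a X v) = B.L.a X (r v)) →
      R'.a X r' = 0 := by
    intro X hX h
    rw [hR', hom_a_zero_iff _ _ r' (by rw [← hR']; exact hpar) X hX]
    intro v
    rw [hr'v, hr'v, hcoe]
    exact h v
  have u0 : R'.a h0 r' = 0 := kill h0 (Or.inl h0_even)
    (a_lin_of_curve A B isCurve_d0 r (fun t v => hr.ρ (d0 t) (d0_mem_lev t) v))
  have u1 : R'.a h1 r' = 0 := kill h1 (Or.inl h1_even)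
    (a_lin_of_curve A B isCurve_d1 r (fun t v => hr.ρ (d1 t) (d1_mem_lev t) v))
  have u2 : R'.a h2 r' = 0 := kill h2 (Or.inl h2_even)
    (a_lin_of_curve A B isCurve_d2 r (fun t v => hr.ρ (d2 t) (d2_mem_lev t) v))
  have ux : R'.a x1 r' = 0 := kill x1 (Or.inr x1_odd) (fun v => hr.a x1 plev_mem_x1 v)
  have uy : R'.a y1 r' = 0 := kill y1 (Or.inr y1_odd) (fun v => hr.a y1 plev_mem_y1 v)
  have hres : ∀ K (v : U), W (A.L.hom B.L) K r v = W R' K r' v := by
    intro K v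
    have h1 : (LinearMap.lcomp ℂ B.V U.subtype) (W (A.L.hom B.L) K r) = W R' K r' :=
      W_map (A.L.hom B.L) R' (LinearMap.lcomp ℂ B.V U.subtype) hpre K r
    rw [← h1]
    rfl
  refine ⟨N1 + N2, fun K hK => ?_⟩
  have hkill : ∀ X, R'.a X (W R' K r') = 0 :=
    fun X => keyK R' (N1 + N2) he hf r' u0 u1 u2 ux uy K hK X
  have heqv : Eqv (A.L.sub U hp ha) B.L (W R' K r') :=
    eqv_of_killed _ _ _ (W_par R' K r' hpar) hkill
  refine ⟨fun v hv => ?_, fun v hv => ?_, fun X v hv => ?_⟩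
  · rw [hres K ⟨v, hv⟩, hres (N1 + N2) ⟨v, hv⟩, W_const R' (N1 + N2) he r' K hK]
  · have h1 := heqv.par ⟨v, hv⟩
    rw [← hres, ← hres] at h1
    exact h1
  · have h1 := heqv.a X ⟨v, hv⟩
    rw [← hres, ← hres] at h1
    exact h1

theorem lev_avg (A B : SMod 1 2) (hB : FinDim B) (i : B.V →ₗ[ℂ] A.V) (hi : IsGLin B A i)
    (r : A.V →ₗ[ℂ] B.V) (hr : IsLin lev A B r) (hri : ∀ v, r (i v) = v) :
    ∃ s : A.V →ₗ[ℂ] B.V, IsGLin A B s ∧ ∀ v, s (i v) = v := by
  have hloc : ∀ v, ∃ N, ∀ K, N ≤ K → W (A.L.hom B.L) K r v = W (A.L.hom B.L) N r v := by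
    intro v
    obtain ⟨U, hv, hU, hp, ha⟩ := locfin A v
    obtain ⟨N, hN⟩ := plev_local A B hB r hr U hU hp ha
    exact ⟨N, fun K hK => (hN K hK).1 v hv⟩
  obtain ⟨s, hs⟩ := ext_lim (fun K => W (A.L.hom B.L) K r) hloc
  have hpar : ∀ v, s (A.L.par v) = B.L.par (s v) := by
    intro v
    obtain ⟨U, hv, hU, hp, ha⟩ := locfin A v
    obtain ⟨N, hN⟩ := plev_local A B hB r hr U hU hp ha
    obtain ⟨N1, hN1⟩ := hs v
    obtain ⟨N2, hN2⟩ := hs (A.L.par v)
    rw [← hN1 (max N (max N1 N2)) (le_trans (le_max_left _ _) (le_max_right _ _)),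
      ← hN2 (max N (max N1 N2)) (le_trans (le_max_right _ _) (le_max_right _ _))]
    exact (hN _ (le_max_left _ _)).2.1 v hv
  have haX : ∀ X v, s (A.L.a X v) = B.L.a X (s v) := by
    intro X v
    obtain ⟨U, hv, hU, hp, ha⟩ := locfin A v
    obtain ⟨N, hN⟩ := plev_local A B hB r hr U hU hp ha
    obtain ⟨N1, hN1⟩ := hs v
    obtain ⟨N2, hN2⟩ := hs (A.L.a X v)
    rw [← hN1 (max N (max N1 N2)) (le_trans (le_max_left _ _) (le_max_right _ _)),
      ← hN2 (max N (max N1 N2)) (le_trans (le_max_right _ _) (le_max_right _ _))]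
    exact (hN _ (le_max_left _ _)).2.2 X v hv
  refine ⟨s, glin_of_a A B s hpar haX, fun v => ?_⟩
  obtain ⟨N1, hN1⟩ := hs (i v)
  have hie : Eqv B.L A.L i := ⟨hi.par, hi.a⟩
  have hpre := precomp_eqv B.L A.L B.L i hie
  have h1 : (LinearMap.lcomp ℂ B.V i) (W (A.L.hom B.L) (max N1 1) r)
      = W (B.L.hom B.L) (max N1 1) (LinearMap.lcomp ℂ B.V i r) :=
    W_map (A.L.hom B.L) (B.L.hom B.L) (LinearMap.lcomp ℂ B.V i) hpre (max N1 1) r
  have h2 : (LinearMap.lcomp ℂ B.V i) r = LinearMap.id := by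
    ext v
    exact hri v
  have h3 : W (B.L.hom B.L) (max N1 1) (LinearMap.id : B.V →ₗ[ℂ] B.V) = LinearMap.id :=
    W_fix (B.L.hom B.L) (max N1 1) (lt_of_lt_of_le Nat.one_pos (le_max_right _ _)) _
      (killed_of_eqv B.L B.L LinearMap.id ⟨fun _ => rfl, fun _ _ => rfl⟩).2
  rw [← hN1 (max N1 1) (le_max_left _ _)]
  have h4 : (W (A.L.hom B.L) (max N1 1) r) (i v)
      = ((LinearMap.lcomp ℂ B.V i) (W (A.L.hom B.L) (max N1 1) r)) v := rfl
  rw [h4, h1, h2, h3]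
  rfl

theorem hproj_lev (M : SMod 1 2) (hM : FinDim M) : HProj lev M := by
  obtain ⟨I, ev, hI⟩ := exists_ind lev M
  obtain ⟨i, ⟨hi, hevi⟩, -⟩ := hI.univ M LinearMap.id ((IsGLin.id M).isLin lev)
  obtain ⟨s, hs, hsi⟩ := lev_avg I M hM i hi ev hI.lin hevi
  exact ⟨I, ev, hI, i, s, hi, hs, hsi⟩

end Pool.Agent.SGp
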