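import Pool.Agent.SGp.PBor
import Pool.Agent.SGp.PLev
import Pool.Agent.SGp.NotProj
import Pool.Agent.SGp.Dcc
import Pool.Agent.SGp.Block

/-!
# Assembly

Hints. Block `P` from `exists_block` (all its modules are finite dimensional). `exists_min` for
`Φ H = ∀ A, P A → HProj H A` and `H = bor`, `lev` gives `D`, `D'`; they are defect groups. If
`Conj D D'`: `D'.h1 ≤ span {x1, y1}`, not contained in `span {x1}` nor in `span {y1}` (`NotProj`), so it
contains `Z = a • x1 + b • y1` with `a, b ≠ 0`, and `Z * Z = (a b) • (h0 + h1)` is not nilpotent. By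
conjugation `g⁻¹ Z g ∈ D.h1 ≤ span {x2, y1}`; elements `c • x2 + d • y1` have square `c d • ee`, so
their fourth power is zero. Contradiction.
-/

namespace Pool.Agent.SGp

open Matrix

/-- the square of an odd element of the Borel subgroup -/
lemma main_sq_bor (c d : ℂ) : (c • x2 + d • y1) * (c • x2 + d • y1) = (c * d) • ee := by
  ext i j
  rcases i with i | i <;> rcases j with j | j <;> fin_cases i <;> fin_cases j <;>
    simp [x2, y1, ee, Matrix.mul_apply, Fintype.sum_sum_type, Matrix.single, mul_comm]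

/-- the square of an odd element of the Levi subgroup -/
lemma main_sq_lev (a b : ℂ) : (a • x1 + b • y1) * (a • x1 + b • y1) = (a * b) • (h0 + h1) := by
  ext i j
  rcases i with i | i <;> rcases j with j | j <;> fin_cases i <;> fin_cases j <;>
    simp [x1, y1, h0, h1, Matrix.mul_apply, Fintype.sum_sum_type, Matrix.single, mul_comm]

lemma main_ee_ee : ee * ee = 0 := by
  ext i j
  rcases i with i | i <;> rcases j with j | j <;> fin_cases i <;> fin_cases j <;>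
    simp [ee, Matrix.mul_apply, Fintype.sum_sum_type, Matrix.single]

lemma main_hh : (h0 + h1) * (h0 + h1) = h0 + h1 := by
  ext i j
  rcases i with i | i <;> rcases j with j | j <;> fin_cases i <;> fin_cases j <;>
    simp [h0, h1, Matrix.mul_apply, Fintype.sum_sum_type, Matrix.single]

lemma main_exists (S : Submodule ℂ (gl 1 2)) (hS : S ≤ Submodule.span ℂ {x1, y1})
    (h1 : ¬ S ≤ Submodule.span ℂ {x1, x2}) (h2 : ¬ S ≤ Submodule.span ℂ {y1, y2}) :
    ∃ a b : ℂ, a ≠ 0 ∧ b ≠ 0 ∧ a • x1 + b • y1 ∈ S := by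
  obtain ⟨Z1, hZ1, hn1⟩ := SetLike.not_le_iff_exists.mp h1
  obtain ⟨Z2, hZ2, hn2⟩ := SetLike.not_le_iff_exists.mp h2
  obtain ⟨a1, b1, rfl⟩ := Submodule.mem_span_pair.mp (hS hZ1)
  obtain ⟨a2, b2, rfl⟩ := Submodule.mem_span_pair.mp (hS hZ2)
  have hb1 : b1 ≠ 0 := by
    rintro rfl
    exact hn1 (Submodule.mem_span_pair.mpr ⟨a1, 0, by simp⟩)
  have ha2 : a2 ≠ 0 := by
    rintro rfl
    exact hn2 (Submodule.mem_span_pair.mpr ⟨b2, 0, by simp⟩)
  by_cases ha1 : a1 = 0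
  · by_cases hb2 : b2 = 0
    · refine ⟨a2, b1, ha2, hb1, ?_⟩
      have := S.add_mem hZ2 hZ1
      simpa [ha1, hb2] using this
    · exact ⟨a2, b2, ha2, hb2, hZ2⟩
  · exact ⟨a1, b1, ha1, hb1, hZ1⟩

theorem main : ∃ P : SMod 1 2 → Prop, IsBlock P ∧ P (triv 1 2) ∧ ∃ D D' : ClosedSub 1 2,
    IsDefect P D ∧ IsDefect P D' ∧ ¬ Conj D D' := by
  obtain ⟨P, hP, htriv⟩ := exists_block (m := 1) (n := 2)
  have hfd : ∀ A, P A → FinDim A := by
    obtain ⟨Q, hQ⟩ := hP.summand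
    exact hQ.left
  obtain ⟨D, hD1, hD2, hD3⟩ := exists_min (fun H => ∀ A, P A → HProj H A) bor
    (fun A hA => hproj_bor A (hfd A hA))
  obtain ⟨D', hD1', hD2', hD3'⟩ := exists_min (fun H => ∀ A, P A → HProj H A) lev
    (fun A hA => hproj_lev A (hfd A hA))
  refine ⟨P, hP, htriv, D, D', ⟨hD2, hD3⟩, ⟨hD2', hD3'⟩, ?_⟩
  rintro ⟨g, -, hg⟩
  obtain ⟨a, b, ha, hb, hZ⟩ := main_exists D'.h1 hD1'.2
    (fun h => not_hproj_plus D' h (hD2' _ htriv)) (fun h => not_hproj_minus D' h (hD2' _ htriv))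
  set Z : gl 1 2 := a • x1 + b • y1 with hZdef
  have hgg : emb g * (emb g⁻¹ * Z * emb g) * emb g⁻¹ = Z := by
    have : emb g * (emb g⁻¹ * Z * emb g) * emb g⁻¹ = (emb g * emb g⁻¹) * Z * (emb g * emb g⁻¹) := by
      simp only [Matrix.mul_assoc]
    rw [this, emb_mul_inv, Matrix.one_mul, Matrix.mul_one]
  have hY : emb g⁻¹ * Z * emb g ∈ D.h1 := by
    rw [hg, hgg]
    exact hZ
  obtain ⟨c, d, hcd⟩ := Submodule.mem_span_pair.mp (hD1.2 hY)
  have h4 : (emb g⁻¹ * Z * emb g) * (emb g⁻¹ * Z * emb g) *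
      ((emb g⁻¹ * Z * emb g) * (emb g⁻¹ * Z * emb g)) = 0 := by
    rw [← hcd, main_sq_bor]
    simp [main_ee_ee]
  have h5 : (emb g⁻¹ * Z * emb g) * (emb g⁻¹ * Z * emb g) *
      ((emb g⁻¹ * Z * emb g) * (emb g⁻¹ * Z * emb g)) = emb g⁻¹ * (Z * Z * (Z * Z)) * emb g := by
    have e1 : (emb g⁻¹ * Z * emb g) * (emb g⁻¹ * Z * emb g) = emb g⁻¹ * (Z * Z) * emb g := by
      have : (emb g⁻¹ * Z * emb g) * (emb g⁻¹ * Z * emb g)
          = emb g⁻¹ * (Z * (emb g * emb g⁻¹) * Z) * emb g := by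
        simp only [Matrix.mul_assoc]
      rw [this, emb_mul_inv, Matrix.mul_one]
    rw [e1]
    have : (emb g⁻¹ * (Z * Z) * emb g) * (emb g⁻¹ * (Z * Z) * emb g)
        = emb g⁻¹ * ((Z * Z) * (emb g * emb g⁻¹) * (Z * Z)) * emb g := by
      simp only [Matrix.mul_assoc]
    rw [this, emb_mul_inv, Matrix.mul_one]
  have h6 : Z * Z * (Z * Z) = 0 := by
    have : Z * Z * (Z * Z) = emb g * (emb g⁻¹ * (Z * Z * (Z * Z)) * emb g) * emb g⁻¹ := by
      have h7 : emb g * (emb g⁻¹ * (Z * Z * (Z * Z)) * emb g) * emb g⁻¹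
          = (emb g * emb g⁻¹) * (Z * Z * (Z * Z)) * (emb g * emb g⁻¹) := by
        simp only [Matrix.mul_assoc]
      rw [h7, emb_mul_inv, Matrix.one_mul, Matrix.mul_one]
    rw [this, ← h5, h4]
    simp
  rw [hZdef, main_sq_lev, Matrix.smul_mul, Matrix.mul_smul, main_hh, smul_smul] at h6
  have h7 := congrFun (congrFun h6 p0) p0
  have h8 : (a * b) * (a * b) = 0 := by
    simpa [h0, h1, Matrix.single] using h7
  exact (mul_ne_zero (mul_ne_zero ha hb) (mul_ne_zero ha hb)) h8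

end Pool.Agent.SGp
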