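import Pool.Agent.SGp.Subs
import Pool.Agent.SGp.LocFin
import Pool.Agent.SGp.KeyAlg
import Pool.Agent.SGp.Ind

/-!
# Module PBor: every finite dimensional module is `bor`-projective

Hints. `bor_lin`: `r` commutes with `ρ` of `uu t`, `d0 t`, `d1 t`, `d2 t`, hence (`a_lin_of_curve`)
with `a ee, a h0, a h1, a h2`; also with `a x2`, `a y1`. It commutes with `a ff`: for `v : A.V` take
`U` from `locfin A v`, `R = (A.L.sub U _ _).hom B.L`, `r' = r ∘ U.subtype`, `φ = R.a ff r'`;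
`R.a ee φ = 0` and `(R.a h1 - R.a h2) φ = -2 φ` (by `Rels`, since `R.a ee r' = 0` etc. by
`hom_a_zero_iff`), and `R.a ff` is nilpotent (`nilp_sub`, `nilp_fd`, `hom_nilp`), so `φ = 0` by
`sl_zero` for the swapped triple `(ff, ee, h2 - h1)`, `μ = 2`; evaluate at `v`. Then `r` commutes with
`x1` and `y2` (`r_x2_ff`, `r_ff_y1`), so with all `a X` (`gl_expand`), so `IsGLin` by `glin_of_a`.
`hproj_bor`: `I, ev` from `exists_ind`; `φ : M → I` from `IsInd.univ` applied to the identity; `ev` is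
`IsGLin` by `bor_lin`.
-/

namespace Pool.Agent.SGp

open Matrix

lemma pbor_mem_x2 : x2 ∈ bor.h1 := Submodule.subset_span (by simp)

lemma pbor_mem_y1 : y1 ∈ bor.h1 := Submodule.subset_span (by simp)

/-- a map commuting with the Borel subgroup commutes with `ff` -/
theorem pbor_ff (A B : SMod 1 2) (hB : FinDim B) (r : A.V →ₗ[ℂ] B.V) (hr : IsLin bor A B r)
    (v : A.V) : r (A.L.a ff v) = B.L.a ff (r v) := by
  obtain ⟨U, hv, hU, hp, ha⟩ := locfin A v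
  set R := (A.L.sub U hp ha).hom B.L with hR
  have hj := sub_eqv A.L U hp ha
  have hcoe : ∀ X (v : U), (((A.L.sub U hp ha).a X v : U) : A.V) = A.L.a X (v : A.V) :=
    fun X v => hj.a X v
  set r' : U →ₗ[ℂ] B.V := r ∘ₗ U.subtype with hr'
  have hr'v : ∀ v : U, r' v = r v := fun v => rfl
  obtain ⟨N1, hN1e, hN1f⟩ := nilp_sub A U hU hp ha
  obtain ⟨N2, hN2e, hN2f⟩ := nilp_fd B hB
  have hf : (R.a ff : Module.End ℂ (U →ₗ[ℂ] B.V)) ^ (N1 + N2) = 0 :=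
    hom_nilp _ _ ff ff_even N1 N2 hN1f hN2f
  have hpar : R.par r' = r' := by
    rw [hR, hom_par]
    ext v
    show B.L.par (r (A.L.par v)) = r v
    rw [hr.par, B.L.par_par]
  have kill : ∀ X, (X ∈ evenM 1 2 ∨ X ∈ oddM 1 2) → (∀ v, r (A.L.a X v) = B.L.a X (r v)) →
      R.a X r' = 0 := by
    intro X hX h
    rw [hR, hom_a_zero_iff _ _ r' (by rw [← hR]; exact hpar) X hX]
    intro v
    rw [hr'v, hr'v, hcoe]
    exact h v
  have k1 : R.a h1 r' = 0 := kill h1 (Or.inl h1_even)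
    (a_lin_of_curve A B isCurve_d1 r (fun t v => hr.ρ (d1 t) (d1_mem_bor t) v))
  have k2 : R.a h2 r' = 0 := kill h2 (Or.inl h2_even)
    (a_lin_of_curve A B isCurve_d2 r (fun t v => hr.ρ (d2 t) (d2_mem_bor t) v))
  have ke : R.a ee r' = 0 := kill ee (Or.inl ee_even)
    (a_lin_of_curve A B isCurve_uu r (fun t v => hr.ρ (uu t) (uu_mem_bor t) v))
  have hφ : R.a ff r' = 0 := by
    apply sl_zero (R.a ff : Module.End ℂ (U →ₗ[ℂ] B.V)) (R.a ee : Module.End ℂ (U →ₗ[ℂ] B.V))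
      (R.a h2 - R.a h1 : Module.End ℂ (U →ₗ[ℂ] B.V)) _ _ (N1 + N2) hf (R.a ff r') 2
      (by norm_num)
    · show R.a h2 (R.a ff r') - R.a h1 (R.a ff r') = ((2 : ℕ) : ℂ) • R.a ff r'
      rw [r_h2_ff, r_h1_ff, k1, k2, map_zero]
      simp [two_smul]
    · show R.a ff (R.a ee (R.a ff r')) = 0
      rw [r_ee_ff, ke, k1, k2]
      simp
    · intro w
      show R.a ff (R.a ee w) = R.a ee (R.a ff w) + (R.a h2 w - R.a h1 w)
      rw [r_ff_ee]
      abel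
    · intro w
      show R.a h2 (R.a ff w) - R.a h1 (R.a ff w) = R.a ff (R.a h2 w - R.a h1 w)
        + (2 : ℂ) • R.a ff w
      rw [r_h2_ff, r_h1_ff, map_sub, two_smul]
      abel
  have h1 := (hom_a_zero_iff _ _ r' (by rw [← hR]; exact hpar) ff (Or.inl ff_even)).mp
    (by rw [← hR]; exact hφ) ⟨v, hv⟩
  rw [hr'v, hr'v, hcoe] at h1
  exact h1

theorem bor_lin (A B : SMod 1 2) (hB : FinDim B) (r : A.V →ₗ[ℂ] B.V) (hr : IsLin bor A B r) :
    IsGLin A B r := by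
  have k0 : ∀ v, r (A.L.a h0 v) = B.L.a h0 (r v) :=
    a_lin_of_curve A B isCurve_d0 r (fun t v => hr.ρ (d0 t) (d0_mem_bor t) v)
  have k1 : ∀ v, r (A.L.a h1 v) = B.L.a h1 (r v) :=
    a_lin_of_curve A B isCurve_d1 r (fun t v => hr.ρ (d1 t) (d1_mem_bor t) v)
  have k2 : ∀ v, r (A.L.a h2 v) = B.L.a h2 (r v) :=
    a_lin_of_curve A B isCurve_d2 r (fun t v => hr.ρ (d2 t) (d2_mem_bor t) v)
  have ke : ∀ v, r (A.L.a ee v) = B.L.a ee (r v) :=
    a_lin_of_curve A B isCurve_uu r (fun t v => hr.ρ (uu t) (uu_mem_bor t) v)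
  have kf : ∀ v, r (A.L.a ff v) = B.L.a ff (r v) := pbor_ff A B hB r hr
  have kx2 : ∀ v, r (A.L.a x2 v) = B.L.a x2 (r v) := fun v => hr.a x2 pbor_mem_x2 v
  have ky1 : ∀ v, r (A.L.a y1 v) = B.L.a y1 (r v) := fun v => hr.a y1 pbor_mem_y1 v
  have kx1 : ∀ v, r (A.L.a x1 v) = B.L.a x1 (r v) := by
    intro v
    have e1 : A.L.a x1 v = A.L.a x2 (A.L.a ff v) - A.L.a ff (A.L.a x2 v) := by
      rw [r_x2_ff]; abel
    have e2 : B.L.a x1 (r v) = B.L.a x2 (B.L.a ff (r v)) - B.L.a ff (B.L.a x2 (r v)) := by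
      rw [r_x2_ff]; abel
    rw [e1, e2, map_sub, kx2, kf, kf, kx2]
  have ky2 : ∀ v, r (A.L.a y2 v) = B.L.a y2 (r v) := by
    intro v
    have e1 : A.L.a y2 v = A.L.a ff (A.L.a y1 v) - A.L.a y1 (A.L.a ff v) := by
      rw [r_ff_y1]; abel
    have e2 : B.L.a y2 (r v) = B.L.a ff (B.L.a y1 (r v)) - B.L.a y1 (B.L.a ff (r v)) := by
      rw [r_ff_y1]; abel
    rw [e1, e2, map_sub, ky1, kf, kf, ky1]
  refine glin_of_a A B r hr.par (fun X v => ?_)
  rw [gl_expand X]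
  simp only [map_add, map_smul, LinearMap.add_apply, LinearMap.smul_apply, k0, k1, k2, ke, kf, kx1,
    kx2, ky1, ky2]

theorem hproj_bor (M : SMod 1 2) (hM : FinDim M) : HProj bor M := by
  obtain ⟨I, ev, hI⟩ := exists_ind bor M
  obtain ⟨i, ⟨hi, hevi⟩, -⟩ := hI.univ M LinearMap.id ((IsGLin.id M).isLin bor)
  exact ⟨I, ev, hI, i, ev, hi, bor_lin I M hM ev hI.lin, hevi⟩

end Pool.Agent.SGp
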