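import Pool.Agent.SGp.Gen

/-!
# Module Subs: the Borel subgroup `bor` and the Levi subgroup `lev` of GL(1|2)

`bor`: upper triangular matrices of GL(2), odd part spanned by `x2 = E₀₂` and `y1 = E₁₀`.
`lev = GL(1|1) × GL(1)`: diagonal matrices of GL(2), odd part spanned by `x1 = E₀₁` and `y1 = E₁₀`.
-/

namespace Pool.Agent.SGp

open Matrix

/-! ### The Lie algebra of a closed subgroup is a subspace -/

lemma Subs_dv_add {m n : ℕ} (P : Reg m n) (X Y : gl m n) : dv P (X + Y) = dv P X + dv P Y := by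
  induction P using MvPolynomial.induction_on with
  | C a => simp
  | add p q hp hq => rw [dv_add, dv_add, dv_add, hp, hq]; ring
  | mul_X p i hp =>
    rw [dv_mul, dv_mul, dv_mul, hp]
    rcases i with i | i
    · simp only [dv_X_inl, Matrix.add_apply]
      ring
    · simp only [dv_X_inr, Matrix.add_apply]
      ring

lemma Subs_dv_smul {m n : ℕ} (P : Reg m n) (c : ℂ) (X : gl m n) : dv P (c • X) = c * dv P X := by
  induction P using MvPolynomial.induction_on with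
  | C a => simp
  | add p q hp hq => rw [dv_add, dv_add, hp, hq]; ring
  | mul_X p i hp =>
    rw [dv_mul, dv_mul, hp]
    rcases i with i | i
    · simp only [dv_X_inl, Matrix.smul_apply, smul_eq_mul]
      ring
    · simp only [dv_X_inr, Matrix.smul_apply, smul_eq_mul]
      ring

lemma Subs_lie_add {m n : ℕ} {H : Subgroup (G0 m n)} {X Y : gl m n} (hX : X ∈ lieAlg H)
    (hY : Y ∈ lieAlg H) : X + Y ∈ lieAlg H :=
  ⟨Submodule.add_mem _ hX.1 hY.1, fun P hP => by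
    rw [Subs_dv_add, hX.2 P hP, hY.2 P hP, add_zero]⟩

lemma Subs_lie_smul {m n : ℕ} {H : Subgroup (G0 m n)} {X : gl m n} (c : ℂ) (hX : X ∈ lieAlg H) :
    c • X ∈ lieAlg H :=
  ⟨Submodule.smul_mem _ c hX.1, fun P hP => by rw [Subs_dv_smul, hX.2 P hP, mul_zero]⟩

/-! ### Entries of products -/

lemma Subs_mul (g h : G0 1 2) (i j : Fin 2) :
    ((g * h).2 : Matrix (Fin 2) (Fin 2) ℂ) i j =
      (g.2 : Matrix (Fin 2) (Fin 2) ℂ) i 0 * (h.2 : Matrix (Fin 2) (Fin 2) ℂ) 0 j +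
      (g.2 : Matrix (Fin 2) (Fin 2) ℂ) i 1 * (h.2 : Matrix (Fin 2) (Fin 2) ℂ) 1 j := by
  show ((g.2 : Matrix (Fin 2) (Fin 2) ℂ) * (h.2 : Matrix (Fin 2) (Fin 2) ℂ)) i j = _
  rw [Matrix.mul_apply, Fin.sum_univ_two]

lemma Subs_one (i j : Fin 2) :
    ((1 : G0 1 2).2 : Matrix (Fin 2) (Fin 2) ℂ) i j = if i = j then 1 else 0 := by
  show (1 : Matrix (Fin 2) (Fin 2) ℂ) i j = _
  rw [Matrix.one_apply]

lemma Subs_inv_mul (g : G0 1 2) (i j : Fin 2) :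
    (g⁻¹.2 : Matrix (Fin 2) (Fin 2) ℂ) i 0 * (g.2 : Matrix (Fin 2) (Fin 2) ℂ) 0 j +
      (g⁻¹.2 : Matrix (Fin 2) (Fin 2) ℂ) i 1 * (g.2 : Matrix (Fin 2) (Fin 2) ℂ) 1 j =
        if i = j then 1 else 0 := by
  rw [← Subs_mul, inv_mul_cancel, Subs_one]

lemma Subs_inv_low {g : G0 1 2} (hg : (g.2 : Matrix (Fin 2) (Fin 2) ℂ) 1 0 = 0) :
    (g⁻¹.2 : Matrix (Fin 2) (Fin 2) ℂ) 1 0 = 0 := by
  have h1 := Subs_inv_mul g 1 0
  have h2 := Subs_inv_mul g 0 0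
  rw [hg] at h1 h2
  simp only [mul_zero, add_zero, if_true, Fin.isValue, one_ne_zero, if_false] at h1 h2
  have h3 : (g.2 : Matrix (Fin 2) (Fin 2) ℂ) 0 0 ≠ 0 := by
    intro h
    rw [h, mul_zero] at h2
    exact zero_ne_one h2
  exact (mul_eq_zero.1 h1).resolve_right h3

lemma Subs_inv_up {g : G0 1 2} (hg : (g.2 : Matrix (Fin 2) (Fin 2) ℂ) 0 1 = 0) :
    (g⁻¹.2 : Matrix (Fin 2) (Fin 2) ℂ) 0 1 = 0 := by
  have h1 := Subs_inv_mul g 0 1
  have h2 := Subs_inv_mul g 1 1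
  rw [hg] at h1 h2
  simp only [mul_zero, zero_add, if_true, Fin.isValue, zero_ne_one, if_false] at h1 h2
  have h3 : (g.2 : Matrix (Fin 2) (Fin 2) ℂ) 1 1 ≠ 0 := by
    intro h
    rw [h, mul_zero] at h2
    exact zero_ne_one h2
  exact (mul_eq_zero.1 h1).resolve_right h3

/-- the even part of `bor` -/
def bor0 : Subgroup (G0 1 2) where
  carrier := {g | (g.2 : Matrix (Fin 2) (Fin 2) ℂ) 1 0 = 0}
  mul_mem' := by
    intro g h hg hh
    have hg' : (g.2 : Matrix (Fin 2) (Fin 2) ℂ) 1 0 = 0 := hg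
    have hh' : (h.2 : Matrix (Fin 2) (Fin 2) ℂ) 1 0 = 0 := hh
    show ((g * h).2 : Matrix (Fin 2) (Fin 2) ℂ) 1 0 = 0
    rw [Subs_mul, hg', hh']
    ring
  one_mem' := by
    show ((1 : G0 1 2).2 : Matrix (Fin 2) (Fin 2) ℂ) 1 0 = 0
    rw [Subs_one]
    simp
  inv_mem' := fun {_} hg => Subs_inv_low hg

/-- the even part of `lev` -/
def lev0 : Subgroup (G0 1 2) where
  carrier := {g | (g.2 : Matrix (Fin 2) (Fin 2) ℂ) 1 0 = 0 ∧ (g.2 : Matrix (Fin 2) (Fin 2) ℂ) 0 1 = 0}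
  mul_mem' := by
    rintro g h ⟨hg1, hg2⟩ ⟨hh1, hh2⟩
    refine ⟨?_, ?_⟩
    · rw [Subs_mul, hg1, hh1]
      ring
    · rw [Subs_mul, hg2, hh2]
      ring
  one_mem' := by
    refine ⟨?_, ?_⟩
    · rw [Subs_one]
      simp
    · rw [Subs_one]
      simp
  inv_mem' := fun {_} hg => ⟨Subs_inv_low hg.1, Subs_inv_up hg.2⟩

lemma Subs_uu_bor (t : ℂ) : uu t ∈ bor0 := by
  show (!![1, t; 0, 1] : Matrix (Fin 2) (Fin 2) ℂ) 1 0 = 0
  simp

lemma Subs_d0_bor (t : ℂ) : d0 t ∈ bor0 := by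
  show (1 : Matrix (Fin 2) (Fin 2) ℂ) 1 0 = 0
  simp

lemma Subs_d1_bor (t : ℂ) : d1 t ∈ bor0 := by
  show (!![Complex.exp t, 0; 0, 1] : Matrix (Fin 2) (Fin 2) ℂ) 1 0 = 0
  simp

lemma Subs_d2_bor (t : ℂ) : d2 t ∈ bor0 := by
  show (!![1, 0; 0, Complex.exp t] : Matrix (Fin 2) (Fin 2) ℂ) 1 0 = 0
  simp

lemma Subs_d0_lev (t : ℂ) : d0 t ∈ lev0 :=
  ⟨Subs_d0_bor t, by
    show (1 : Matrix (Fin 2) (Fin 2) ℂ) 0 1 = 0
    simp⟩

lemma Subs_d1_lev (t : ℂ) : d1 t ∈ lev0 :=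
  ⟨Subs_d1_bor t, by
    show (!![Complex.exp t, 0; 0, 1] : Matrix (Fin 2) (Fin 2) ℂ) 0 1 = 0
    simp⟩

lemma Subs_d2_lev (t : ℂ) : d2 t ∈ lev0 :=
  ⟨Subs_d2_bor t, by
    show (!![1, 0; 0, Complex.exp t] : Matrix (Fin 2) (Fin 2) ℂ) 0 1 = 0
    simp⟩

lemma Subs_emb_inr (g : G0 1 2) (i j : Fin 2) :
    emb g (Sum.inr i) (Sum.inr j) = (g.2 : Matrix (Fin 2) (Fin 2) ℂ) i j := rfl

/-- conjugation of an element with entries in the places `(0, 2)` and `(1, 0)` -/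
lemma Subs_conj_bor {g : G0 1 2} (hg : g ∈ bor0) (a b : ℂ) :
    emb g * (a • x2 + b • y1) * emb g⁻¹ =
      (a * emb g p0 p0 * emb g⁻¹ p2 p2) • x2 + (b * emb g p1 p1 * emb g⁻¹ p0 p0) • y1 := by
  have h1 : emb g p2 p1 = 0 := hg
  have h2 : emb g⁻¹ p2 p1 = 0 := Subs_inv_low hg
  have z1 : ∀ k : Fin 2, emb g (Sum.inr k) (Sum.inl 0) = 0 := fun k => (emb_even g).2 0 k
  have z2 : ∀ k : Fin 2, emb g (Sum.inl 0) (Sum.inr k) = 0 := fun k => (emb_even g).1 0 k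
  have z3 : ∀ k : Fin 2, emb g⁻¹ (Sum.inr k) (Sum.inl 0) = 0 := fun k => (emb_even g⁻¹).2 0 k
  have z4 : ∀ k : Fin 2, emb g⁻¹ (Sum.inl 0) (Sum.inr k) = 0 := fun k => (emb_even g⁻¹).1 0 k
  ext i j
  rcases i with i | i <;> rcases j with j | j <;> fin_cases i <;> fin_cases j <;>
    simp [x2, y1, Matrix.mul_apply, Fintype.sum_sum_type, Fin.sum_univ_two, Matrix.single, z1, z2,
      z3, z4, h1, h2] <;> first | ring1 | exact Or.inl (by ring1)

/-- conjugation of an element with entries in the places `(0, 1)` and `(1, 0)` -/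
lemma Subs_conj_lev {g : G0 1 2} (hg : g ∈ lev0) (a b : ℂ) :
    emb g * (a • x1 + b • y1) * emb g⁻¹ =
      (a * emb g p0 p0 * emb g⁻¹ p1 p1) • x1 + (b * emb g p1 p1 * emb g⁻¹ p0 p0) • y1 := by
  have h1 : emb g p2 p1 = 0 := hg.1
  have h2 : emb g⁻¹ p2 p1 = 0 := Subs_inv_low hg.1
  have h3 : emb g p1 p2 = 0 := hg.2
  have h4 : emb g⁻¹ p1 p2 = 0 := Subs_inv_up hg.2
  have z1 : ∀ k : Fin 2, emb g (Sum.inr k) (Sum.inl 0) = 0 := fun k => (emb_even g).2 0 k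
  have z2 : ∀ k : Fin 2, emb g (Sum.inl 0) (Sum.inr k) = 0 := fun k => (emb_even g).1 0 k
  have z3 : ∀ k : Fin 2, emb g⁻¹ (Sum.inr k) (Sum.inl 0) = 0 := fun k => (emb_even g⁻¹).2 0 k
  have z4 : ∀ k : Fin 2, emb g⁻¹ (Sum.inl 0) (Sum.inr k) = 0 := fun k => (emb_even g⁻¹).1 0 k
  ext i j
  rcases i with i | i <;> rcases j with j | j <;> fin_cases i <;> fin_cases j <;>
    simp [x1, y1, Matrix.mul_apply, Fintype.sum_sum_type, Fin.sum_univ_two, Matrix.single, z1, z2,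
      z3, z4, h1, h2, h3, h4] <;> first | ring1 | exact Or.inl (by ring1)

lemma Subs_brk_bor (a b c d : ℂ) :
    (a • x2 + b • y1) * (c • x2 + d • y1) + (c • x2 + d • y1) * (a • x2 + b • y1) =
      (a * d + b * c) • ee := by
  ext i j
  rcases i with i | i <;> rcases j with j | j <;> fin_cases i <;> fin_cases j <;>
    simp [x2, y1, ee, Matrix.mul_apply, Fintype.sum_sum_type, Fin.sum_univ_two, Matrix.single] <;>
    ring

lemma Subs_brk_lev (a b c d : ℂ) :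
    (a • x1 + b • y1) * (c • x1 + d • y1) + (c • x1 + d • y1) * (a • x1 + b • y1) =
      (a * d + b * c) • (h0 + h1) := by
  ext i j
  rcases i with i | i <;> rcases j with j | j <;> fin_cases i <;> fin_cases j <;>
    simp [x1, y1, h0, h1, Matrix.mul_apply, Fintype.sum_sum_type, Fin.sum_univ_two,
      Matrix.single] <;>
    ring

/-- the Borel subgroup -/
def bor : ClosedSub 1 2 where
  H0 := bor0
  h1 := Submodule.span ℂ {x2, y1}
  closed := by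
    refine ⟨{MvPolynomial.X (Sum.inl (p2, p1))}, fun g => ?_⟩
    simp only [Set.mem_singleton_iff, forall_eq, rv_X_inl]
    exact Iff.rfl
  odd := by
    rw [Submodule.span_le]
    rintro X (rfl | rfl)
    · exact x2_odd
    · exact y1_odd
  ad := by
    intro g hg X hX
    obtain ⟨a, b, rfl⟩ := Submodule.mem_span_pair.1 hX
    rw [Subs_conj_bor hg]
    exact Submodule.mem_span_pair.2 ⟨_, _, rfl⟩
  brk := by
    intro X hX Y hY
    obtain ⟨a, b, rfl⟩ := Submodule.mem_span_pair.1 hX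
    obtain ⟨c, d, rfl⟩ := Submodule.mem_span_pair.1 hY
    rw [Subs_brk_bor]
    exact Subs_lie_smul _ (mem_lieAlg_of_curve isCurve_uu _ Subs_uu_bor)

/-- the Levi subgroup -/
def lev : ClosedSub 1 2 where
  H0 := lev0
  h1 := Submodule.span ℂ {x1, y1}
  closed := by
    refine ⟨{MvPolynomial.X (Sum.inl (p2, p1)), MvPolynomial.X (Sum.inl (p1, p2))}, fun g => ?_⟩
    constructor
    · rintro ⟨h1, h2⟩ P (rfl | rfl)
      · rw [rv_X_inl]
        exact h1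
      · rw [rv_X_inl]
        exact h2
    · intro h
      have h1 := h _ (Or.inl rfl)
      have h2 := h _ (Or.inr rfl)
      rw [rv_X_inl] at h1 h2
      exact ⟨h1, h2⟩
  odd := by
    rw [Submodule.span_le]
    rintro X (rfl | rfl)
    · exact x1_odd
    · exact y1_odd
  ad := by
    intro g hg X hX
    obtain ⟨a, b, rfl⟩ := Submodule.mem_span_pair.1 hX
    rw [Subs_conj_lev hg]
    exact Submodule.mem_span_pair.2 ⟨_, _, rfl⟩
  brk := by
    intro X hX Y hY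
    obtain ⟨a, b, rfl⟩ := Submodule.mem_span_pair.1 hX
    obtain ⟨c, d, rfl⟩ := Submodule.mem_span_pair.1 hY
    rw [Subs_brk_lev]
    exact Subs_lie_smul _ (Subs_lie_add (mem_lieAlg_of_curve isCurve_d0 _ Subs_d0_lev)
      (mem_lieAlg_of_curve isCurve_d1 _ Subs_d1_lev))

theorem uu_mem_bor (t : ℂ) : uu t ∈ bor.H0 := Subs_uu_bor t
theorem d0_mem_bor (t : ℂ) : d0 t ∈ bor.H0 := Subs_d0_bor t
theorem d1_mem_bor (t : ℂ) : d1 t ∈ bor.H0 := Subs_d1_bor t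
theorem d2_mem_bor (t : ℂ) : d2 t ∈ bor.H0 := Subs_d2_bor t
theorem d0_mem_lev (t : ℂ) : d0 t ∈ lev.H0 := Subs_d0_lev t
theorem d1_mem_lev (t : ℂ) : d1 t ∈ lev.H0 := Subs_d1_lev t
theorem d2_mem_lev (t : ℂ) : d2 t ∈ lev.H0 := Subs_d2_lev t

end Pool.Agent.SGp
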