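import Pool.Agent.SGp.Rels

/-!
# Module XPlus: a four dimensional module with a nonsplit trivial submodule

The module has basis `1, η1, η2, η12` (use `V = Fin 4 → ℂ`), `1, η12` even, `η1, η2` odd:
`y1 η1 = 1`, `y2 η2 = 1`, `y1 η12 = η2`, `y2 η12 = - η1`, `x1 η2 = η12`, `x2 η1 = - η12`, and zero
otherwise; `E_{ji} η_k = - δ_{jk} η_i` (`i, j, k ∈ {1, 2}`), `h0 η_k = η_k`, `h0 η12 = 2 η12`,
`h1 η12 = h2 η12 = - η12`, `ee η12 = ff η12 = 0`, and the even elements kill `1`.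
Group: `g = (e, A)`: `1 ↦ 1`, `η_k ↦ e ∑_i (A⁻¹)_{ki} η_i`, `η12 ↦ e² det(A)⁻¹ η12`.
-/

namespace Pool.Agent.SGp

open Matrix

/-- the matrix of the action of the Lie superalgebra -/
def xpM (X : gl 1 2) : Matrix (Fin 4) (Fin 4) ℂ :=
  !![0, X p1 p0, X p2 p0, 0;
     0, X p0 p0 - X p1 p1, -X p2 p1, -X p2 p0;
     0, -X p1 p2, X p0 p0 - X p2 p2, X p1 p0;
     0, -X p0 p2, X p0 p1, 2 * X p0 p0 - X p1 p1 - X p2 p2]

/-- the matrix of the action of the group -/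
noncomputable def xpN (g : G0 1 2) : Matrix (Fin 4) (Fin 4) ℂ :=
  !![1, 0, 0, 0;
     0, emb g p0 p0 * emb g⁻¹ p1 p1, emb g p0 p0 * emb g⁻¹ p2 p1, 0;
     0, emb g p0 p0 * emb g⁻¹ p1 p2, emb g p0 p0 * emb g⁻¹ p2 p2, 0;
     0, 0, 0, emb g p0 p0 ^ 2 * (emb g⁻¹ p1 p1 * emb g⁻¹ p2 p2 - emb g⁻¹ p1 p2 * emb g⁻¹ p2 p1)]

/-- the matrix of the parity -/
def xpP : Matrix (Fin 4) (Fin 4) ℂ :=
  !![1, 0, 0, 0; 0, -1, 0, 0; 0, 0, -1, 0; 0, 0, 0, 1]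

lemma xp_mul_apply (X Y : gl 1 2) (i j : Fin 1 ⊕ Fin 2) :
    (X * Y) i j = X i p0 * Y p0 j + X i p1 * Y p1 j + X i p2 * Y p2 j := by
  simp [Matrix.mul_apply, Fintype.sum_sum_type, add_assoc]

lemma xpM_lie_even (X : gl 1 2) (hX : X ∈ evenM 1 2) (Y : gl 1 2) :
    xpM X * xpM Y - xpM Y * xpM X = xpM (X * Y - Y * X) := by
  have h1 : X p0 p1 = 0 := hX.1 0 0
  have h2 : X p0 p2 = 0 := hX.1 0 1
  have h3 : X p1 p0 = 0 := hX.2 0 0
  have h4 : X p2 p0 = 0 := hX.2 0 1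
  ext i j
  fin_cases i <;> fin_cases j <;>
    simp [xpM, Matrix.mul_apply, Fin.sum_univ_succ, xp_mul_apply, h1, h2, h3, h4] <;> ring

lemma xpM_lie_odd (X : gl 1 2) (hX : X ∈ oddM 1 2) (Y : gl 1 2) (hY : Y ∈ oddM 1 2) :
    xpM X * xpM Y + xpM Y * xpM X = xpM (X * Y + Y * X) := by
  have h1 : X p0 p0 = 0 := hX.1 0 0
  have h2 : X p1 p1 = 0 := hX.2 0 0
  have h3 : X p1 p2 = 0 := hX.2 0 1
  have h4 : X p2 p1 = 0 := hX.2 1 0
  have h5 : X p2 p2 = 0 := hX.2 1 1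
  have k1 : Y p0 p0 = 0 := hY.1 0 0
  have k2 : Y p1 p1 = 0 := hY.2 0 0
  have k3 : Y p1 p2 = 0 := hY.2 0 1
  have k4 : Y p2 p1 = 0 := hY.2 1 0
  have k5 : Y p2 p2 = 0 := hY.2 1 1
  ext i j
  fin_cases i <;> fin_cases j <;>
    simp [xpM, Matrix.mul_apply, Fin.sum_univ_succ, xp_mul_apply, h1, h2, h3, h4, h5,
      k1, k2, k3, k4, k5] <;> ring

lemma xpM_par_even (X : gl 1 2) (hX : X ∈ evenM 1 2) : xpP * xpM X = xpM X * xpP := by
  have h1 : X p0 p1 = 0 := hX.1 0 0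
  have h2 : X p0 p2 = 0 := hX.1 0 1
  have h3 : X p1 p0 = 0 := hX.2 0 0
  have h4 : X p2 p0 = 0 := hX.2 0 1
  ext i j
  fin_cases i <;> fin_cases j <;>
    simp [xpM, xpP, Matrix.mul_apply, Fin.sum_univ_succ, h1, h2, h3, h4]

lemma xpM_par_odd (X : gl 1 2) (hX : X ∈ oddM 1 2) : xpP * xpM X = -(xpM X * xpP) := by
  have h1 : X p0 p0 = 0 := hX.1 0 0
  have h2 : X p1 p1 = 0 := hX.2 0 0
  have h3 : X p1 p2 = 0 := hX.2 0 1
  have h4 : X p2 p1 = 0 := hX.2 1 0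
  have h5 : X p2 p2 = 0 := hX.2 1 1
  ext i j
  fin_cases i <;> fin_cases j <;>
    simp [xpM, xpP, Matrix.mul_apply, Fin.sum_univ_succ, h1, h2, h3, h4, h5]

lemma xpN_one : xpN 1 = 1 := by
  ext i j
  fin_cases i <;> fin_cases j <;> simp [xpN, Matrix.one_apply]

lemma xp_emb_off (g : G0 1 2) : emb g p0 p1 = 0 ∧ emb g p0 p2 = 0 ∧ emb g p1 p0 = 0 ∧
    emb g p2 p0 = 0 :=
  ⟨(emb_even g).1 0 0, (emb_even g).1 0 1, (emb_even g).2 0 0, (emb_even g).2 0 1⟩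

lemma xpN_mul (g h : G0 1 2) : xpN (g * h) = xpN g * xpN h := by
  obtain ⟨a1, a2, a3, a4⟩ := xp_emb_off g
  obtain ⟨b1, b2, b3, b4⟩ := xp_emb_off h
  obtain ⟨c1, c2, c3, c4⟩ := xp_emb_off g⁻¹
  obtain ⟨d1, d2, d3, d4⟩ := xp_emb_off h⁻¹
  ext i j
  fin_cases i <;> fin_cases j <;>
    simp [xpN, Matrix.mul_apply (M := (!![_, _, _, _; _, _, _, _; _, _, _, _; _, _, _, _] :
      Matrix (Fin 4) (Fin 4) ℂ)), Fin.sum_univ_succ, xp_mul_apply, a1, a2, a3, a4,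
      b1, b2, b3, b4, c1, c2, c3, c4, d1, d2, d3, d4] <;> ring

lemma xpN_par (g : G0 1 2) : xpP * xpN g = xpN g * xpP := by
  ext i j
  fin_cases i <;> fin_cases j <;>
    simp [xpN, xpP, Matrix.mul_apply, Fin.sum_univ_succ]

/-- the relations between the entries of `g` and of its inverse -/
lemma xp_entries (g : G0 1 2) : ∃ D : ℂ, D ≠ 0 ∧
    D = emb g⁻¹ p1 p1 * emb g⁻¹ p2 p2 - emb g⁻¹ p1 p2 * emb g⁻¹ p2 p1 ∧
    emb g p1 p1 = emb g⁻¹ p2 p2 / D ∧ emb g p1 p2 = - emb g⁻¹ p1 p2 / D ∧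
    emb g p2 p1 = - emb g⁻¹ p2 p1 / D ∧ emb g p2 p2 = emb g⁻¹ p1 p1 / D ∧
    emb g p0 p0 ≠ 0 ∧ emb g⁻¹ p0 p0 = 1 / emb g p0 p0 := by
  obtain ⟨a1, a2, a3, a4⟩ := xp_emb_off g
  obtain ⟨c1, c2, c3, c4⟩ := xp_emb_off g⁻¹
  have e := emb_mul_inv g
  have f := emb_inv_mul g
  have e00 := congrFun (congrFun e p0) p0
  have e11 := congrFun (congrFun e p1) p1
  have e12 := congrFun (congrFun e p1) p2
  have e21 := congrFun (congrFun e p2) p1
  have e22 := congrFun (congrFun e p2) p2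
  have f11 := congrFun (congrFun f p1) p1
  have f12 := congrFun (congrFun f p1) p2
  have f21 := congrFun (congrFun f p2) p1
  have f22 := congrFun (congrFun f p2) p2
  rw [xp_mul_apply] at e00 e11 e12 e21 e22 f11 f12 f21 f22
  simp [a1, a2, a3, a4, c1, c2, c3, c4, Matrix.one_apply] at e00 e11 e12 e21 e22 f11 f12 f21 f22
  have hD : (emb g p1 p1 * emb g p2 p2 - emb g p1 p2 * emb g p2 p1) *
      (emb g⁻¹ p1 p1 * emb g⁻¹ p2 p2 - emb g⁻¹ p1 p2 * emb g⁻¹ p2 p1) = 1 := by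
    linear_combination (emb g p2 p1 * emb g⁻¹ p1 p2 + emb g p2 p2 * emb g⁻¹ p2 p2) * e11 + e22 - (emb g p2 p1 * emb g⁻¹ p1 p1 + emb g p2 p2 * emb g⁻¹ p2 p1) * e12
  have hD0 : emb g⁻¹ p1 p1 * emb g⁻¹ p2 p2 - emb g⁻¹ p1 p2 * emb g⁻¹ p2 p1 ≠ 0 :=
    right_ne_zero_of_mul_eq_one hD
  have he0 : emb g p0 p0 ≠ 0 := left_ne_zero_of_mul_eq_one e00
  refine ⟨_, hD0, rfl, ?_, ?_, ?_, ?_, he0, ?_⟩
  · rw [eq_div_iff hD0]; linear_combination emb g⁻¹ p2 p2 * e11 - emb g⁻¹ p2 p1 * e12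
  · rw [eq_div_iff hD0]; linear_combination emb g⁻¹ p1 p1 * e12 - emb g⁻¹ p1 p2 * e11
  · rw [eq_div_iff hD0]; linear_combination emb g⁻¹ p2 p2 * e21 - emb g⁻¹ p2 p1 * e22
  · rw [eq_div_iff hD0]; linear_combination emb g⁻¹ p1 p1 * e22 - emb g⁻¹ p1 p2 * e21
  · rw [eq_div_iff he0]; linear_combination e00

lemma xpN_ad (g : G0 1 2) (X : gl 1 2) :
    xpN g * xpM X = xpM (emb g * X * emb g⁻¹) * xpN g := by
  obtain ⟨a1, a2, a3, a4⟩ := xp_emb_off g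
  obtain ⟨c1, c2, c3, c4⟩ := xp_emb_off g⁻¹
  obtain ⟨D, hD0, hD, k1, k2, k3, k4, he0, k5⟩ := xp_entries g
  ext i j
  fin_cases i <;> fin_cases j <;>
    simp [xpN, xpM, Matrix.mul_apply (M := (!![_, _, _, _; _, _, _, _; _, _, _, _; _, _, _, _] :
      Matrix (Fin 4) (Fin 4) ℂ)), Fin.sum_univ_succ, xp_mul_apply, a1, a2, a3, a4,
      c1, c2, c3, c4, k1, k2, k3, k4, k5] <;> (try field_simp) <;> first | (rw [hD]; ring) | ring

lemma xpM_add (X Y : gl 1 2) : xpM (X + Y) = xpM X + xpM Y := by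
  ext i j
  fin_cases i <;> fin_cases j <;> simp [xpM] <;> ring

lemma xpM_smul (c : ℂ) (X : gl 1 2) : xpM (c • X) = c • xpM X := by
  ext i j
  fin_cases i <;> fin_cases j <;> simp [xpM] <;> ring

/-- the module over the Lie superalgebra -/
noncomputable def xpL : LRep 1 2 (Fin 4 → ℂ) where
  par := Matrix.mulVecLin xpP
  a := { toFun := fun X => Matrix.mulVecLin (xpM X)
         map_add' := fun X Y => by rw [xpM_add, Matrix.mulVecLin_add]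
         map_smul' := fun c X => by
          ext1
          simp [xpM_smul, Matrix.smul_mulVec] }
  par_par := fun v => by
    ext i
    fin_cases i <;> simp [xpP, Matrix.mulVec, dotProduct, Fin.sum_univ_succ]
  par_even := fun X hX v => by
    simp only [LinearMap.coe_mk, AddHom.coe_mk, Matrix.mulVecLin_apply, Matrix.mulVec_mulVec]
    rw [xpM_par_even X hX]
  par_odd := fun X hX v => by
    simp only [LinearMap.coe_mk, AddHom.coe_mk, Matrix.mulVecLin_apply, Matrix.mulVec_mulVec]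
    rw [xpM_par_odd X hX, Matrix.neg_mulVec]
  lie_even := fun X hX Y v => by
    simp only [LinearMap.coe_mk, AddHom.coe_mk, Matrix.mulVecLin_apply, Matrix.mulVec_mulVec]
    rw [← xpM_lie_even X hX Y, Matrix.sub_mulVec]
  lie_odd := fun X hX Y hY v => by
    simp only [LinearMap.coe_mk, AddHom.coe_mk, Matrix.mulVecLin_apply, Matrix.mulVec_mulVec]
    rw [← xpM_lie_odd X hX Y hY, Matrix.add_mulVec]

/-- the module over `GL(1|2)` -/
noncomputable def xpMod : SMod 1 2 where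
  V := Fin 4 → ℂ
  L := xpL
  ρ := fun g => Matrix.mulVecLin (xpN g)
  ρ_one := fun v => by simp [xpN_one]
  ρ_mul := fun g h v => by
    simp only [Matrix.mulVecLin_apply, Matrix.mulVec_mulVec, xpN_mul]
  par_ρ := fun g v => by
    show xpP *ᵥ (xpN g *ᵥ v) = xpN g *ᵥ (xpP *ᵥ v)
    rw [Matrix.mulVec_mulVec, Matrix.mulVec_mulVec, xpN_par]
  ad := fun g X v => by
    show xpN g *ᵥ (xpM X *ᵥ v) = xpM (emb g * X * emb g⁻¹) *ᵥ (xpN g *ᵥ v)
    rw [Matrix.mulVec_mulVec, Matrix.mulVec_mulVec, xpN_ad]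
  rat := fun v => by
    refine ⟨Fin 4, inferInstance,
      ![MvPolynomial.C (v 0),
        MvPolynomial.X (Sum.inl (p0, p0)) * (MvPolynomial.X (Sum.inr (p1, p1)) *
          MvPolynomial.C (v 1) + MvPolynomial.X (Sum.inr (p2, p1)) * MvPolynomial.C (v 2)),
        MvPolynomial.X (Sum.inl (p0, p0)) * (MvPolynomial.X (Sum.inr (p1, p2)) *
          MvPolynomial.C (v 1) + MvPolynomial.X (Sum.inr (p2, p2)) * MvPolynomial.C (v 2)),
        MvPolynomial.X (Sum.inl (p0, p0)) * MvPolynomial.X (Sum.inl (p0, p0)) *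
          (MvPolynomial.X (Sum.inr (p1, p1)) * MvPolynomial.X (Sum.inr (p2, p2)) -
           MvPolynomial.X (Sum.inr (p1, p2)) * MvPolynomial.X (Sum.inr (p2, p1))) *
          MvPolynomial.C (v 3)], fun i => Pi.single i 1, ?_, ?_⟩
    · intro g
      show xpN g *ᵥ v = _
      ext i
      fin_cases i <;> simp [xpN, Matrix.mulVec, dotProduct, Fin.sum_univ_succ] <;>
        first | ring1 | (left; left; ring1)
    · intro X hX
      have h1 : X p0 p1 = 0 := hX.1 0 0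
      have h2 : X p0 p2 = 0 := hX.1 0 1
      have h3 : X p1 p0 = 0 := hX.2 0 0
      have h4 : X p2 p0 = 0 := hX.2 0 1
      show xpM X *ᵥ v = _
      ext i
      fin_cases i <;> simp [xpM, Matrix.mulVec, dotProduct, Fin.sum_univ_succ, h1, h2, h3, h4,
        Matrix.one_apply] <;> ring

theorem xplus : ∃ (X : SMod 1 2) (j : ℂ →ₗ[ℂ] X.V) (r : X.V →ₗ[ℂ] ℂ),
    IsGLin (triv 1 2) X j ∧ (∃ θ, X.L.a y1 θ = j 1) ∧ r (j 1) = 1 ∧
    (∀ v, r (X.L.par v) = r v) ∧ (∀ g v, r (X.ρ g v) = r v) ∧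
    (∀ v, r (X.L.a x1 v) = 0) ∧ ∀ v, r (X.L.a x2 v) = 0 := by
  refine ⟨xpMod, LinearMap.single ℂ (fun _ : Fin 4 => ℂ) 0, LinearMap.proj 0,
    ⟨fun v => ?_, fun g v => ?_, fun X v => ?_⟩, ⟨Pi.single 1 1, ?_⟩, ?_, fun v => ?_,
    fun g v => ?_, fun v => ?_, fun v => ?_⟩
  · show Pi.single 0 v = xpP *ᵥ (Pi.single 0 v)
    ext i
    fin_cases i <;> simp [xpP, Matrix.mulVec, dotProduct, Fin.sum_univ_succ]
  · show Pi.single 0 v = xpN g *ᵥ (Pi.single 0 v)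
    ext i
    fin_cases i <;> simp [xpN, Matrix.mulVec, dotProduct, Fin.sum_univ_succ]
  · show Pi.single 0 0 = xpM X *ᵥ (Pi.single 0 v)
    ext i
    fin_cases i <;> simp [xpM, Matrix.mulVec, dotProduct, Fin.sum_univ_succ]
  · show xpM y1 *ᵥ (Pi.single 1 1) = Pi.single 0 1
    ext i
    fin_cases i <;> simp [xpM, y1, Matrix.mulVec, dotProduct, Fin.sum_univ_succ, Matrix.single]
  · show (Pi.single 0 (1 : ℂ) : Fin 4 → ℂ) 0 = 1
    simp
  · show (xpP *ᵥ v) 0 = v 0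
    simp [xpP, Matrix.mulVec, dotProduct, Fin.sum_univ_succ]
  · show (xpN g *ᵥ v) 0 = v 0
    simp [xpN, Matrix.mulVec, dotProduct, Fin.sum_univ_succ]
  · show (xpM x1 *ᵥ v) 0 = 0
    simp [xpM, x1, Matrix.mulVec, dotProduct, Fin.sum_univ_succ, Matrix.single]
  · show (xpM x2 *ᵥ v) 0 = 0
    simp [xpM, x2, Matrix.mulVec, dotProduct, Fin.sum_univ_succ, Matrix.single]

end Pool.Agent.SGp
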